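import Mathlib
import Pool.Agent.Helper21.GK.Real

/-!
Real GKK matrices: the vectors `u_iK`, `v_jK` belonging to the entries of the Schur complements,
the set of vanishing almost principal minors and the span of their gradients.
-/

namespace Pool.Agent.Helper85.CD

open Matrix Finset Pool.Agent.Helper5.GKK Pool.Agent.Helper21.GK

variable {n : ℕ}

/-- real square matrices -/
abbrev Mat (n : ℕ) := Matrix (Fin n) (Fin n) ℝ

/-- real `P`-matrices -/
def RP (A : Mat n) : Prop := ∀ S, 0 < pmr A S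

/-- `i`, `j` are different indices outside `K` -/
def Val (K : Finset (Fin n)) (i j : Fin n) : Prop := i ∉ K ∧ j ∉ K ∧ i ≠ j

/-- real GKK matrices -/
def RGKK (A : Mat n) : Prop := RP A ∧ ∀ K i j, Val K i j → 0 ≤ scr A K i j * scr A K j i

/-- real strict GKK matrices -/
def RS (A : Mat n) : Prop := RP A ∧ ∀ K i j, Val K i j → 0 < scr A K i j * scr A K j i

/-- the vanishing almost principal minors -/
def Z (A : Mat n) (K : Finset (Fin n)) (i j : Fin n) : Prop := Val K i j ∧ scr A K i j = 0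

/-- the inverse of `A(K)` -/
noncomputable def Qr (A : Mat n) (K : Finset (Fin n)) : Matrix K K ℝ :=
  (A.submatrix (Subtype.val : K → Fin n) (Subtype.val : K → Fin n))⁻¹

/-- the row vector `u_iK`: entry `1` at `i`, support in `K ∪ {i}`, `(uA)_k = 0` for `k` in `K` -/
noncomputable def uv (A : Mat n) (K : Finset (Fin n)) (i : Fin n) : Fin n → ℝ := fun x =>
  if x = i then 1 else if hx : x ∈ K then
    - ∑ y : K, A i y * Qr A K y ⟨x, hx⟩ else 0

/-- the column vector `v_jK`: entry `1` at `j`, support in `K ∪ {j}`, `(Av)_k = 0` for `k` in `K` -/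
noncomputable def vv (A : Mat n) (K : Finset (Fin n)) (j : Fin n) : Fin n → ℝ := uv Aᵀ K j

/-- the span of the gradients `u_iK v_jK^T` of the vanishing almost principal minors -/
noncomputable def W (A : Mat n) : Submodule ℝ (Mat n) :=
  Submodule.span ℝ {M | ∃ K i j, Z A K i j ∧ M = vecMulVec (uv A K i) (vv A K j)}

/-! ### the vectors -/

theorem uv_self (A : Mat n) (K : Finset (Fin n)) (i : Fin n) : uv A K i i = 1 := by simp [uv]

theorem vv_self (A : Mat n) (K : Finset (Fin n)) (i : Fin n) : vv A K i i = 1 := by simp [vv, uv]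

theorem uv_off (A : Mat n) {K : Finset (Fin n)} {i x : Fin n} (hx : x ∉ K) (hxi : x ≠ i) :
    uv A K i x = 0 := by simp [uv, hx, hxi]

theorem vv_off (A : Mat n) {K : Finset (Fin n)} {i x : Fin n} (hx : x ∉ K) (hxi : x ≠ i) :
    vv A K i x = 0 := by simp [vv, uv, hx, hxi]

theorem uv_empty (A : Mat n) (i : Fin n) : uv A ∅ i = Pi.single i 1 := by
  ext x
  by_cases h : x = i
  · subst h; simp [uv]
  · simp [uv, h]

theorem sum_uv (A : Mat n) {K : Finset (Fin n)} {i : Fin n} (hi : i ∉ K) (f : Fin n → ℝ) :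
    ∑ x, uv A K i x * f x = f i - ∑ x : K, (∑ y : K, A i y *
      Qr A K y x) * f x := by
  have h1 : ∑ x, uv A K i x * f x = ∑ x ∈ insert i K, uv A K i x * f x := by
    symm
    refine Finset.sum_subset (subset_univ _) fun x _ hx => ?_
    rw [mem_insert, not_or] at hx
    rw [uv_off A hx.2 hx.1, zero_mul]
  rw [h1, Finset.sum_insert hi, uv_self, one_mul, sub_eq_add_neg]
  congr 1
  rw [← Finset.sum_coe_sort, ← Finset.sum_neg_distrib]
  refine Finset.sum_congr rfl fun x _ => ?_
  have hxi : (x : Fin n) ≠ i := fun h => hi (h ▸ x.2)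
  simp [uv, hxi]

theorem scr_eq {A : Mat n} {K : Finset (Fin n)} (hK : pmr A K ≠ 0) (i j : Fin n) :
    scr A K i j = A i j - ∑ x : K, (∑ y : K, A i y *
      Qr A K y x) * A x j := by
  have h := sc_cx (M := A) hK i j
  have hQ : ((cx A).submatrix (Subtype.val : K → Fin n) (Subtype.val : K → Fin n))⁻¹
      = (Qr A K).map (fun x : ℝ => (x : ℂ)) := by
    have h1 : (cx A).submatrix (Subtype.val : K → Fin n) (Subtype.val : K → Fin n)
        = Complex.ofRealHom.mapMatrix (A.submatrix (Subtype.val : K → Fin n) (Subtype.val : K → Fin n)) := by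
      ext x y; rfl
    rw [h1]
    refine Matrix.inv_eq_right_inv ?_
    have h2 : (Qr A K).map (fun x : ℝ => (x : ℂ))
        = Complex.ofRealHom.mapMatrix (Qr A K) := by
      ext x y; rfl
    rw [h2, ← map_mul, Qr, Matrix.mul_nonsing_inv _ (isUnit_iff_ne_zero.mpr hK), map_one]
  have h3 : ((scr A K i j : ℝ) : ℂ) = ((A i j - ∑ x : K, (∑ y : K, A i y *
      Qr A K y x) * A x j : ℝ) : ℂ) := by
    rw [← h, sc, hQ, Finset.sum_comm]
    push_cast
    congr 1
    refine Finset.sum_congr rfl fun x _ => ?_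
    rw [Finset.sum_mul]
    rfl
  exact_mod_cast h3

theorem uv_mul {A : Mat n} (hA : RP A) {K : Finset (Fin n)} {i : Fin n} (hi : i ∉ K) (j : Fin n) :
    (uv A K i ᵥ* A) j = scr A K i j := by
  rw [scr_eq (hA K).ne']
  exact sum_uv A hi (fun x => A x j)

theorem uv_mul_mem {A : Mat n} (hA : RP A) {K : Finset (Fin n)} {i k : Fin n} (hi : i ∉ K)
    (hk : k ∈ K) : (uv A K i ᵥ* A) k = 0 := by
  have h := sum_uv A hi (fun x => A x k)
  have h' : (uv A K i ᵥ* A) k = ∑ x, uv A K i x * A x k := rfl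
  rw [h', h]
  have h1 : ∑ x : K, (∑ y : K, A i y *
      Qr A K y x) * A x k = A i k := by
    have h2 : ∀ x : K, (∑ y : K, A i y *
        Qr A K y x) * A x k
        = ∑ y : K, A i y * (Qr A K y x *
          A.submatrix (Subtype.val : K → Fin n) (Subtype.val : K → Fin n) x ⟨k, hk⟩) := by
      intro x
      rw [Finset.sum_mul]
      refine Finset.sum_congr rfl fun y _ => ?_
      simp [mul_assoc]
    rw [Finset.sum_congr rfl fun x _ => h2 x, Finset.sum_comm]
    simp_rw [← Finset.mul_sum]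
    have h3 : ∀ y : K, ∑ x : K, Qr A K y x *
          A.submatrix (Subtype.val : K → Fin n) (Subtype.val : K → Fin n) x ⟨k, hk⟩
        = (1 : Matrix K K ℝ) y ⟨k, hk⟩ := by
      intro y
      rw [← Matrix.nonsing_inv_mul (A.submatrix (Subtype.val : K → Fin n) (Subtype.val : K → Fin n))
        (isUnit_iff_ne_zero.mpr (hA K).ne')]
      rfl
    simp_rw [h3]
    rw [Finset.sum_eq_single ⟨k, hk⟩]
    · simp
    · intro y _ hy; simp [Matrix.one_apply_ne hy]
    · intro h; exact absurd (mem_univ _) h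
  rw [h1, sub_self]

/-! ### transposition -/

theorem pmr_transpose (A : Mat n) (S : Finset (Fin n)) : pmr Aᵀ S = pmr A S := by
  unfold pmr
  rw [← Matrix.det_transpose]
  rfl

theorem RP.transpose {A : Mat n} (hA : RP A) : RP Aᵀ := fun S => by rw [pmr_transpose]; exact hA S

theorem scr_transpose (A : Mat n) (K : Finset (Fin n)) (i j : Fin n) : scr Aᵀ K i j = scr A K j i := by
  unfold scr
  rw [pmr_transpose]
  congr 1
  unfold ppr
  rw [← Matrix.det_transpose]
  rfl

theorem vv_mul {A : Mat n} (hA : RP A) {K : Finset (Fin n)} {j : Fin n} (hj : j ∉ K) (i : Fin n) :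
    (A *ᵥ vv A K j) i = scr A K i j := by
  have h := uv_mul hA.transpose hj i
  rw [scr_transpose, Matrix.vecMul_transpose] at h
  exact h

theorem vv_mul_mem {A : Mat n} (hA : RP A) {K : Finset (Fin n)} {j k : Fin n} (hj : j ∉ K)
    (hk : k ∈ K) : (A *ᵥ vv A K j) k = 0 := by
  have h := uv_mul_mem hA.transpose hj hk
  rw [Matrix.vecMul_transpose] at h
  exact h

theorem vv_transpose (A : Mat n) (K : Finset (Fin n)) (j : Fin n) : vv Aᵀ K j = uv A K j := rfl

/-- the exact difference formula -/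
theorem scr_sub {A B : Mat n} (hA : RP A) (hB : RP B) {K : Finset (Fin n)} {i j : Fin n} (hi : i ∉ K)
    (hj : j ∉ K) : scr B K i j - scr A K i j = uv B K i ⬝ᵥ ((B - A) *ᵥ vv A K j) := by
  have h1 : uv B K i ⬝ᵥ (B *ᵥ vv A K j) = scr B K i j := by
    rw [Matrix.dotProduct_mulVec, dotProduct]
    rw [Finset.sum_eq_single j]
    · rw [uv_mul hB hi, vv_self, mul_one]
    · intro x _ hx
      by_cases hxK : x ∈ K
      · rw [uv_mul_mem hB hi hxK, zero_mul]
      · rw [vv_off A hxK hx, mul_zero]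
    · intro h; exact absurd (mem_univ _) h
  have h2 : uv B K i ⬝ᵥ (A *ᵥ vv A K j) = scr A K i j := by
    rw [dotProduct, Finset.sum_eq_single i]
    · rw [vv_mul hA hj, uv_self, one_mul]
    · intro x _ hx
      by_cases hxK : x ∈ K
      · rw [vv_mul_mem hA hj hxK, mul_zero]
      · rw [uv_off B hxK hx, zero_mul]
    · intro h; exact absurd (mem_univ _) h
  rw [Matrix.sub_mulVec, dotProduct_sub, h1, h2]

end Pool.Agent.Helper85.CD
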