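import Mathlib
import Pool.Agent.Helper85.CD.Defs
import Pool.Agent.Helper21.GK.Parts

/-!
Uniqueness and continuity of the vectors `u_iK`, and the first order perturbation lemma.
-/

namespace Pool.Agent.Helper85.CD

open Matrix Finset Filter Topology Pool.Agent.Helper5.GKK Pool.Agent.Helper21.GK

variable {n : ℕ}

theorem Val.symm {K : Finset (Fin n)} {i j : Fin n} (h : Val K i j) : Val K j i :=
  ⟨h.2.1, h.1, h.2.2.symm⟩

theorem Z_transpose {A : Mat n} {K : Finset (Fin n)} {i j : Fin n} : Z Aᵀ K i j ↔ Z A K j i := by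
  unfold Z
  rw [scr_transpose]
  exact and_congr_left' ⟨Val.symm, Val.symm⟩

theorem RGKK.transpose {A : Mat n} (hA : RGKK A) : RGKK Aᵀ := by
  refine ⟨hA.1.transpose, fun K i j h => ?_⟩
  rw [scr_transpose, scr_transpose]
  exact hA.2 K j i h.symm

theorem RS.transpose {A : Mat n} (hA : RS A) : RS Aᵀ := by
  refine ⟨hA.1.transpose, fun K i j h => ?_⟩
  rw [scr_transpose, scr_transpose]
  exact hA.2 K j i h.symm

/-- a vector with `w_k (wA)_k = 0` for all `k` vanishes -/
theorem eq_zero_of_mul {A : Mat n} (hA : RP A) {w : Fin n → ℝ}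
    (h : ∀ k, w k * (w ᵥ* A) k = 0) : w = 0 := by
  classical
  set S : Finset (Fin n) := univ.filter fun k => w k ≠ 0 with hS
  have h1 : (fun x : S => w x) ᵥ* (A.submatrix (Subtype.val : S → Fin n) (Subtype.val : S → Fin n)) = 0 := by
    funext k
    have hk : w k ≠ 0 := (mem_filter.mp k.2).2
    have h2 : (w ᵥ* A) k = 0 := (mul_eq_zero.mp (h k)).resolve_left hk
    have h3 : (w ᵥ* A) k = ∑ x, w x * A x k := rfl
    rw [h3] at h2
    have h4 : ∑ x, w x * A x k = ∑ x ∈ S, w x * A x k := by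
      symm
      refine Finset.sum_subset (subset_univ _) fun x _ hx => ?_
      have : w x = 0 := by
        by_contra hne
        exact hx (mem_filter.mpr ⟨mem_univ _, hne⟩)
      rw [this, zero_mul]
    rw [h4, ← Finset.sum_coe_sort] at h2
    exact h2
  have hu : IsUnit (A.submatrix (Subtype.val : S → Fin n) (Subtype.val : S → Fin n)) :=
    (Matrix.isUnit_iff_isUnit_det _).mpr (isUnit_iff_ne_zero.mpr (hA S).ne')
  have h5 : (fun x : S => w x) = 0 := by
    have := Matrix.vecMul_injective_of_isUnit hu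
    exact this (by simpa using h1)
  funext k
  by_contra hk
  have := congrFun h5 ⟨k, mem_filter.mpr ⟨mem_univ _, hk⟩⟩
  exact hk this

theorem uv_mul_ne {A : Mat n} (hA : RP A) {K : Finset (Fin n)} {i : Fin n} (hi : i ∉ K) {k : Fin n}
    (hk : k ≠ i) : uv A K i k * (uv A K i ᵥ* A) k = 0 := by
  by_cases h : k ∈ K
  · rw [uv_mul_mem hA hi h, mul_zero]
  · rw [uv_off A h hk, zero_mul]

theorem uv_mul_self {A : Mat n} (hA : RP A) {K : Finset (Fin n)} {i : Fin n} (hi : i ∉ K) :
    0 < (uv A K i ᵥ* A) i := by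
  rw [uv_mul hA hi]
  exact scr_self_pos hA hi

/-- uniqueness of `u_iK` -/
theorem uv_unique {A : Mat n} (hA : RP A) {K : Finset (Fin n)} {i : Fin n} (hi : i ∉ K)
    {w : Fin n → ℝ} (h1 : w i = 1) (h2 : ∀ x, x ∉ K → x ≠ i → w x = 0)
    (h3 : ∀ k ∈ K, (w ᵥ* A) k = 0) : w = uv A K i := by
  have h : w - uv A K i = 0 := by
    refine eq_zero_of_mul hA fun k => ?_
    by_cases hk : k ∈ K
    · rw [Matrix.sub_vecMul, Pi.sub_apply (w ᵥ* A), h3 k hk, uv_mul_mem hA hi hk, sub_zero, mul_zero]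
    · by_cases hki : k = i
      · subst hki
        rw [Pi.sub_apply, h1, uv_self, sub_self, zero_mul]
      · rw [Pi.sub_apply, h2 k hk hki, uv_off A hk hki, sub_zero, zero_mul]
  exact sub_eq_zero.mp h

/-- if `u_iK` is a multiple of `u_i'K'` then `i = i'` and the two vectors are equal -/
theorem uv_parallel {A : Mat n} (hA : RP A) {K K' : Finset (Fin n)} {i i' : Fin n} (hi : i ∉ K)
    (hi' : i' ∉ K') {c : ℝ} (h : uv A K i = c • uv A K' i') : i = i' ∧ uv A K i = uv A K' i' := by
  have h1 : i = i' := by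
    by_contra hne
    have h2 := uv_mul_ne hA hi' hne
    have h3 : uv A K i i = c * uv A K' i' i := by rw [h]; rfl
    rw [uv_self] at h3
    have h4 : (uv A K i ᵥ* A) i = c * (uv A K' i' ᵥ* A) i := by
      conv_lhs => rw [h]
      rw [Matrix.smul_vecMul]; rfl
    have h5 := uv_mul_self hA hi
    have h6 : (uv A K i ᵥ* A) i = 0 := by
      have : (uv A K i ᵥ* A) i = c * uv A K' i' i * (c * (uv A K' i' ᵥ* A) i) := by
        rw [← h3, one_mul, h4]
      rw [this]
      calc _ = c * c * (uv A K' i' i * (uv A K' i' ᵥ* A) i) := by ring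
        _ = 0 := by rw [h2, mul_zero]
    exact h5.ne' h6
  refine ⟨h1, ?_⟩
  subst h1
  have h3 : uv A K i i = c * uv A K' i i := by rw [h]; rfl
  rw [uv_self, uv_self, mul_one] at h3
  rw [h, ← h3, one_smul]

theorem vv_parallel {A : Mat n} (hA : RP A) {K K' : Finset (Fin n)} {i i' : Fin n} (hi : i ∉ K)
    (hi' : i' ∉ K') {c : ℝ} (h : vv A K i = c • vv A K' i') : i = i' ∧ vv A K i = vv A K' i' :=
  uv_parallel hA.transpose hi hi' h

theorem vv_unique {A : Mat n} (hA : RP A) {K : Finset (Fin n)} {i : Fin n} (hi : i ∉ K)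
    {w : Fin n → ℝ} (h1 : w i = 1) (h2 : ∀ x, x ∉ K → x ≠ i → w x = 0)
    (h3 : ∀ k ∈ K, (A *ᵥ w) k = 0) : w = vv A K i :=
  uv_unique hA.transpose hi h1 h2 fun k hk => by rw [Matrix.vecMul_transpose]; exact h3 k hk

theorem uv_ne_zero (A : Mat n) (K : Finset (Fin n)) (i : Fin n) : uv A K i ≠ 0 := fun h => by
  have := congrFun h i
  rw [uv_self] at this
  exact one_ne_zero this

theorem vv_ne_zero (A : Mat n) (K : Finset (Fin n)) (i : Fin n) : vv A K i ≠ 0 := uv_ne_zero Aᵀ K i

/-! ### continuity -/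

theorem continuousAt_inv_real {κ : Type*} [Fintype κ] [DecidableEq κ] {M0 : Matrix κ κ ℝ}
    (h0 : M0.det ≠ 0) (x y : κ) : ContinuousAt (fun M : Matrix κ κ ℝ => M⁻¹ x y) M0 := by
  have : (fun A : Matrix κ κ ℝ => A⁻¹ x y) = fun A : Matrix κ κ ℝ => (A.det)⁻¹ * A.adjugate x y := by
    funext A
    rw [Matrix.inv_def, Ring.inverse_eq_inv']
    rfl
  rw [this]
  refine ContinuousAt.mul (ContinuousAt.inv₀ ?_ h0) ?_
  · exact (Continuous.matrix_det continuous_id).continuousAt
  · exact (continuous_apply_apply x y).continuousAt.comp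
      (Continuous.matrix_adjugate continuous_id).continuousAt

theorem continuousAt_uv {A : Mat n} (hA : RP A) (K : Finset (Fin n)) (i : Fin n) :
    ContinuousAt (fun B : Mat n => uv B K i) A := by
  refine continuousAt_pi.mpr fun x => ?_
  by_cases hx : x = i
  · simp only [uv, hx, if_true]; exact continuousAt_const
  by_cases hK : x ∈ K
  · simp only [uv, hx, if_false, hK, dif_pos]
    refine ContinuousAt.neg (tendsto_finsetSum _ fun y _ => ?_)
    refine ContinuousAt.mul (continuous_apply_apply i (y : Fin n)).continuousAt ?_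
    unfold Qr
    have h1 := continuousAt_inv_real (M0 := A.submatrix (Subtype.val : K → Fin n) (Subtype.val : K → Fin n))
      (hA K).ne' y ⟨x, hK⟩
    exact ContinuousAt.comp (f := fun B : Mat n => B.submatrix (Subtype.val : K → Fin n) (Subtype.val : K → Fin n))
      h1 (continuous_id.matrix_submatrix _ _).continuousAt
  · simp only [uv, hx, if_false, hK, dif_neg, not_false_eq_true]; exact continuousAt_const

theorem continuousAt_scr {A : Mat n} (hA : RP A) (K : Finset (Fin n)) (i j : Fin n) :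
    ContinuousAt (fun B : Mat n => scr B K i j) A := by
  unfold scr
  exact (continuous_ppr K i j).continuousAt.div (continuous_pmr K).continuousAt (hA K).ne'

theorem eventually_RP {A : Mat n} (hA : RP A) : ∀ᶠ B in 𝓝 A, RP B := by
  unfold RP
  rw [eventually_all]
  intro S
  exact (continuous_pmr S).continuousAt.eventually (lt_mem_nhds (hA S))

/-- the directional derivative of `scr` -/
noncomputable def dl (A X : Mat n) (K : Finset (Fin n)) (i j : Fin n) : ℝ :=
  uv A K i ⬝ᵥ (X *ᵥ vv A K j)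

theorem dl_transpose (A X : Mat n) (K : Finset (Fin n)) (i j : Fin n) :
    dl Aᵀ Xᵀ K i j = dl A X K j i := by
  unfold dl
  rw [vv_transpose, Matrix.mulVec_transpose, dotProduct_comm, ← Matrix.dotProduct_mulVec]
  rfl

theorem eventually_ne {A : Mat n} (hA : RGKK A) {ι : Type*} {l : Filter ι} {f : ι → Mat n}
    (hf : Tendsto f l (𝓝 A)) {K : Finset (Fin n)} {i j : Fin n} (hv : Val K i j) (h1 : scr A K i j ≠ 0)
    (h2 : scr A K j i ≠ 0) : ∀ᶠ t in l, 0 < scr (f t) K i j * scr (f t) K j i := by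
  have h3 : 0 < scr A K i j * scr A K j i := lt_of_le_of_ne (hA.2 K i j hv) (mul_ne_zero h1 h2).symm
  have h4 : ContinuousAt (fun B : Mat n => scr B K i j * scr B K j i) A :=
    (continuousAt_scr hA.1 K i j).mul (continuousAt_scr hA.1 K j i)
  exact (h4.tendsto.comp hf).eventually (lt_mem_nhds h3)

theorem tendsto_line (A X : Mat n) : Tendsto (fun t : ℝ => A + t • X) (𝓝[>] 0) (𝓝 A) := by
  have h : Continuous fun t : ℝ => A + t • X := by fun_prop
  have h1 := h.tendsto 0
  rw [zero_smul, add_zero] at h1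
  exact h1.mono_left nhdsWithin_le_nhds

/-- **First order perturbation.** -/
theorem lp_suff {A X : Mat n} (hA : RGKK A)
    (h1 : ∀ K i j, Z A K i j → scr A K j i ≠ 0 → 0 < dl A X K i j * scr A K j i)
    (h2 : ∀ K i j, Z A K i j → scr A K j i = 0 → 0 < dl A X K i j * dl A X K j i) :
    ∀ᶠ t : ℝ in 𝓝[>] 0, RS (A + t • X) := by
  have hl := tendsto_line A X
  have hRP : ∀ᶠ t : ℝ in 𝓝[>] 0, RP (A + t • X) := hl.eventually (eventually_RP hA.1)
  have hpos : ∀ᶠ t : ℝ in 𝓝[>] 0, (0 : ℝ) < t := self_mem_nhdsWithin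
  -- the quotient
  have hq : ∀ K i j, Val K i j → Tendsto (fun t : ℝ => uv (A + t • X) K i ⬝ᵥ (X *ᵥ vv A K j))
      (𝓝[>] 0) (𝓝 (dl A X K i j)) := by
    intro K i j _
    have h3 : Tendsto (fun t : ℝ => uv (A + t • X) K i) (𝓝[>] 0) (𝓝 (uv A K i)) :=
      (continuousAt_uv hA.1 K i).tendsto.comp hl
    unfold dl dotProduct
    exact tendsto_finsetSum _ fun x _ => (tendsto_pi_nhds.mp h3 x).mul tendsto_const_nhds
  have hz : ∀ K i j, Val K i j → scr A K i j = 0 → ∀ t : ℝ, RP (A + t • X) →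
      scr (A + t • X) K i j = t * (uv (A + t • X) K i ⬝ᵥ (X *ᵥ vv A K j)) := by
    intro K i j hv h0 t ht
    have h4 := scr_sub hA.1 ht hv.1 hv.2.1
    rw [h0, sub_zero, add_sub_cancel_left, Matrix.smul_mulVec, dotProduct_smul, smul_eq_mul] at h4
    exact h4
  have key : ∀ (K : Finset (Fin n)) (i j : Fin n), ∀ᶠ t : ℝ in 𝓝[>] 0, Val K i j →
      0 < scr (A + t • X) K i j * scr (A + t • X) K j i := by
    intro K i j
    by_cases hv : Val K i j
    swap
    · exact Eventually.of_forall fun t h => absurd h hv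
    have one : ∀ i j, Val K i j → scr A K i j = 0 → scr A K j i ≠ 0 → ∀ᶠ t : ℝ in 𝓝[>] 0,
        0 < scr (A + t • X) K i j * scr (A + t • X) K j i := by
      intro i j hv h0 h0'
      have h5 : Tendsto (fun t : ℝ => (uv (A + t • X) K i ⬝ᵥ (X *ᵥ vv A K j)) *
          scr (A + t • X) K j i) (𝓝[>] 0) (𝓝 (dl A X K i j * scr A K j i)) :=
        (hq K i j hv).mul ((continuousAt_scr hA.1 K j i).tendsto.comp hl)
      filter_upwards [h5.eventually (lt_mem_nhds (h1 K i j ⟨hv, h0⟩ h0')), hRP, hpos] with t h6 h7 h8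
      rw [hz K i j hv h0 t h7, mul_assoc]
      exact mul_pos h8 h6
    by_cases h0 : scr A K i j = 0
    · by_cases h0' : scr A K j i = 0
      · have h5 : Tendsto (fun t : ℝ => (uv (A + t • X) K i ⬝ᵥ (X *ᵥ vv A K j)) *
            (uv (A + t • X) K j ⬝ᵥ (X *ᵥ vv A K i))) (𝓝[>] 0) (𝓝 (dl A X K i j * dl A X K j i)) :=
          (hq K i j hv).mul (hq K j i hv.symm)
        filter_upwards [h5.eventually (lt_mem_nhds (h2 K i j ⟨hv, h0⟩ h0')), hRP, hpos] with t h6 h7 h8 _
        rw [hz K i j hv h0 t h7, hz K j i hv.symm h0' t h7]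
        have : 0 < t * t * ((uv (A + t • X) K i ⬝ᵥ (X *ᵥ vv A K j)) *
            (uv (A + t • X) K j ⬝ᵥ (X *ᵥ vv A K i))) := mul_pos (mul_pos h8 h8) h6
        calc 0 < _ := this
          _ = _ := by ring
      · filter_upwards [one i j hv h0 h0'] with t ht _ using ht
    · by_cases h0' : scr A K j i = 0
      · filter_upwards [one j i hv.symm h0' h0] with t ht _
        rw [mul_comm]; exact ht
      · filter_upwards [eventually_ne hA hl hv h0 h0'] with t ht _ using ht
  have hall : ∀ᶠ t : ℝ in 𝓝[>] 0, ∀ (K : Finset (Fin n)) (i j : Fin n), Val K i j →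
      0 < scr (A + t • X) K i j * scr (A + t • X) K j i := by
    refine eventually_all.mpr fun K => eventually_all.mpr fun i => eventually_all.mpr fun j => key K i j
  filter_upwards [hRP, hall] with t h3 h4
  exact ⟨h3, h4⟩

/-- the closure of the real strict GKK matrices -/
def RL (n : ℕ) : Set (Mat n) := closure {B : Mat n | RS B}

theorem mem_RL_of_lp {A X : Mat n} (hA : RGKK A)
    (h1 : ∀ K i j, Z A K i j → scr A K j i ≠ 0 → 0 < dl A X K i j * scr A K j i)
    (h2 : ∀ K i j, Z A K i j → scr A K j i = 0 → 0 < dl A X K i j * dl A X K j i) : A ∈ RL n :=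
  mem_closure_of_tendsto (tendsto_line A X) (lp_suff hA h1 h2)

theorem RL_transpose {A : Mat n} (hA : Aᵀ ∈ RL n) : A ∈ RL n := by
  have h := map_mem_closure (f := fun B : Mat n => Bᵀ) (t := {B : Mat n | RS B})
    (continuous_id.matrix_transpose) hA fun B hB => RS.transpose hB
  rw [Matrix.transpose_transpose] at h
  exact h

theorem isStrictGKK_cx {A : Mat n} (hA : RS A) : IsStrictGKK (cx A) := by
  rw [isStrictGKK_iff]
  exact ⟨fun S => pm_cx_pos.mpr (hA.1 S), fun K i j h1 h2 h3 =>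
    (ap_cx_pos hA.1 h1 h2 h3).mpr (hA.2 K i j ⟨h1, h2, h3⟩)⟩

theorem cx_mem_closure {A : Mat n} (hA : A ∈ RL n) :
    cx A ∈ closure {B : Matrix (Fin n) (Fin n) ℂ | IsStrictGKK B} :=
  map_mem_closure continuous_cx hA fun _ hB => isStrictGKK_cx hB

end Pool.Agent.Helper85.CD
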