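import Mathlib
import Pool.Agent.Helper85.CD.Basic

/-!
The exceptional configurations: three zeros in one column of a Schur complement, and the linear
program attached to them.
-/

namespace Pool.Agent.Helper85.CD

open Matrix Finset Pool.Agent.Helper5.GKK Pool.Agent.Helper21.GK

variable {n : ℕ}

/-- three zeros in the column `o` of the Schur complement `A/K`, in the rows `I` -/
def Col3 (A : Mat n) (K : Finset (Fin n)) (o : Fin n) (I : Finset (Fin n)) : Prop :=
  o ∉ K ∧ o ∉ I ∧ Disjoint I K ∧ I.card = 3 ∧ ∀ i ∈ I, scr A K i o = 0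

/-- the weak linear program: a nonzero column `y` supported in `I` that satisfies all sign
conditions given by the row `o` -/
def Feas (A : Mat n) (K : Finset (Fin n)) (o : Fin n) (I : Finset (Fin n)) : Prop :=
  ∃ y : Fin n → ℝ, (∀ i, i ∉ I → y i = 0) ∧ y ≠ 0 ∧
    ∀ i ∈ I, ∀ T, T ⊆ I → i ∉ T → 0 ≤ (uv A (K ∪ T) i ⬝ᵥ y) * scr A (K ∪ T) o i

end Pool.Agent.Helper85.CD
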