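import Mathlib

/-!
Block [D]: the linear program of a class of rank 2 is always solvable (elementary inequalities).
PROOF. `a` and `b` have the same sign; replacing `(x2, y2, a, b)` by its negative we may assume `a, b > 0`.
If `x1 x2 < 0` (or one of them 0) take `y` with the signs of `x`, `y1 y2 < 0`. If `x1, x2 > 0`: three cones for `x`,
`x1 < x2 b/d2` | between | `x2 < x1 a/d1` (the first and third exclude each other because
`ab < d1 d2`), and for `y`: `y1 < y2 a/d2` | between | `y2 < y1 b/d1`, take `y` in the corresponding open cone; on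
a wall `x1 = x2 b/d2` take `y` in the middle cone. Same with both signs negative.
-/

namespace Pool.Agent.Helper85.CD

theorem two_dim_aux {a b d1 d2 x1 x2 : ℝ} (hd1 : 0 < d1) (hd2 : 0 < d2) (ha : 0 < a) (hb : 0 < b)
    (hlt : a * b < d1 * d2) (hx1 : 0 ≤ x1) : ∃ y1 y2 : ℝ,
    (y1 ≠ 0 ∧ 0 ≤ y1 * x1) ∧ (y2 ≠ 0 ∧ 0 ≤ y2 * x2) ∧
    (y1 - a * y2 / d2 ≠ 0 ∧ 0 ≤ (y1 - a * y2 / d2) * (x1 - x2 * b / d2)) ∧
    (y2 - b * y1 / d1 ≠ 0 ∧ 0 ≤ (y2 - b * y1 / d1) * (x2 - x1 * a / d1)) := by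
  rcases le_or_gt x2 0 with hx2 | hx2
  · have e1 : 0 < a / d2 := div_pos ha hd2
    have e2 : 0 < b / d1 := div_pos hb hd1
    have e3 : x2 * b / d2 ≤ 0 := div_nonpos_of_nonpos_of_nonneg (mul_nonpos_of_nonpos_of_nonneg hx2 hb.le) hd2.le
    have e4 : 0 ≤ x1 * a / d1 := div_nonneg (mul_nonneg hx1 ha.le) hd1.le
    have f1 : (1 : ℝ) - a * (-1) / d2 = 1 + a / d2 := by ring
    have f2 : (-1 : ℝ) - b * 1 / d1 = -(1 + b / d1) := by ring
    refine ⟨1, -1, ⟨one_ne_zero, by linarith⟩, ⟨by norm_num, by linarith⟩, ⟨?_, ?_⟩, ⟨?_, ?_⟩⟩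
    · rw [f1]; positivity
    · rw [f1]; exact mul_nonneg (by positivity) (by linarith)
    · rw [f2]; exact neg_ne_zero.2 (by positivity)
    · rw [f2]
      nlinarith [mul_nonneg (show (0:ℝ) ≤ 1 + b / d1 by positivity) (show 0 ≤ x1 * a / d1 - x2 by linarith)]
  · have g1 : a * b / d1 < d2 := by rw [div_lt_iff₀ hd1]; linarith
    have g2 : a * b / d2 < d1 := by rw [div_lt_iff₀ hd2]; linarith
    rcases lt_or_ge x1 (x2 * b / d2) with h1 | h1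
    · have h2 : x1 * a / d1 < x2 := by
        rw [lt_div_iff₀ hd2] at h1
        rw [div_lt_iff₀ hd1]
        have : x1 * d2 * a < x2 * b * a := mul_lt_mul_of_pos_right h1 ha
        have h3 : x2 * (a * b) < x2 * (d1 * d2) := mul_lt_mul_of_pos_left hlt hx2
        have h4 : (x1 * a) * d2 < (x2 * d1) * d2 := by nlinarith
        exact lt_of_mul_lt_mul_right h4 hd2.le
      have f1 : a - a * (2 * d2) / d2 = -a := by field_simp; ring
      have f2 : 0 < 2 * d2 - b * a / d1 := by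
        have : b * a / d1 = a * b / d1 := by ring
        rw [this]; linarith
      refine ⟨a, 2 * d2, ⟨ha.ne', mul_nonneg ha.le hx1⟩, ⟨by positivity, by positivity⟩, ⟨?_, ?_⟩, ⟨f2.ne', ?_⟩⟩
      · rw [f1]; exact neg_ne_zero.2 ha.ne'
      · rw [f1]; nlinarith [mul_nonneg ha.le (show 0 ≤ x2 * b / d2 - x1 by linarith)]
      · exact mul_nonneg f2.le (by linarith)
    · rcases lt_or_ge x2 (x1 * a / d1) with h2 | h2
      · have f1 : b - b * (2 * d1) / d1 = -b := by field_simp; ring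
        have f2 : 0 < 2 * d1 - a * b / d2 := by linarith
        refine ⟨2 * d1, b, ⟨by positivity, by positivity⟩, ⟨hb.ne', by positivity⟩, ⟨f2.ne', ?_⟩, ⟨?_, ?_⟩⟩
        · exact mul_nonneg f2.le (by linarith)
        · rw [f1]; exact neg_ne_zero.2 hb.ne'
        · rw [f1]; nlinarith [mul_nonneg hb.le (show 0 ≤ x1 * a / d1 - x2 by linarith)]
      · have f1 : (a * b + d1 * d2) - a * (2 * b * d2) / d2 = d1 * d2 - a * b := by field_simp; ring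
        have f2 : 2 * b * d2 - b * (a * b + d1 * d2) / d1 = b * (d1 * d2 - a * b) / d1 := by
          field_simp; ring
        have f3 : 0 < d1 * d2 - a * b := by linarith
        have f4 : 0 < b * (d1 * d2 - a * b) / d1 := by positivity
        refine ⟨a * b + d1 * d2, 2 * b * d2, ⟨by positivity, by positivity⟩, ⟨by positivity, by positivity⟩,
          ⟨?_, ?_⟩, ⟨?_, ?_⟩⟩
        · rw [f1]; exact f3.ne'
        · rw [f1]; exact mul_nonneg f3.le (by linarith)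
        · rw [f2]; exact f4.ne'
        · rw [f2]; exact mul_nonneg f4.le (by linarith)

theorem two_dim_pos {a b d1 d2 x1 x2 : ℝ} (hd1 : 0 < d1) (hd2 : 0 < d2) (ha : 0 < a) (hb : 0 < b)
    (hlt : a * b < d1 * d2) : ∃ y1 y2 : ℝ,
    (y1 ≠ 0 ∧ 0 ≤ y1 * x1) ∧ (y2 ≠ 0 ∧ 0 ≤ y2 * x2) ∧
    (y1 - a * y2 / d2 ≠ 0 ∧ 0 ≤ (y1 - a * y2 / d2) * (x1 - x2 * b / d2)) ∧
    (y2 - b * y1 / d1 ≠ 0 ∧ 0 ≤ (y2 - b * y1 / d1) * (x2 - x1 * a / d1)) := by
  rcases le_or_gt 0 x1 with hx1 | hx1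
  · exact two_dim_aux hd1 hd2 ha hb hlt hx1
  · obtain ⟨y1, y2, ⟨h1, h2⟩, ⟨h3, h4⟩, ⟨h5, h6⟩, ⟨h7, h8⟩⟩ :=
      two_dim_aux (x1 := -x1) (x2 := -x2) hd1 hd2 ha hb hlt (by linarith)
    have e1 : -y1 - a * (-y2) / d2 = -(y1 - a * y2 / d2) := by ring
    have e2 : -y2 - b * (-y1) / d1 = -(y2 - b * y1 / d1) := by ring
    refine ⟨-y1, -y2, ⟨neg_ne_zero.2 h1, by linarith⟩, ⟨neg_ne_zero.2 h3, by linarith⟩,
      ⟨by rw [e1]; exact neg_ne_zero.2 h5, ?_⟩, ⟨by rw [e2]; exact neg_ne_zero.2 h7, ?_⟩⟩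
    · rw [e1]
      have : -(y1 - a * y2 / d2) * (x1 - x2 * b / d2)
        = (y1 - a * y2 / d2) * (-x1 - -x2 * b / d2) := by ring
      rw [this]; exact h6
    · rw [e2]
      have : -(y2 - b * y1 / d1) * (x2 - x1 * a / d1)
        = (y2 - b * y1 / d1) * (-x2 - -x1 * a / d1) := by ring
      rw [this]; exact h8

theorem two_dim {a b d1 d2 x1 x2 : ℝ} (hd1 : 0 < d1) (hd2 : 0 < d2) (hab : 0 < a * b)
    (hlt : a * b < d1 * d2) (hx : x1 ≠ 0 ∨ x2 ≠ 0) : ∃ y1 y2 : ℝ,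
    (y1 ≠ 0 ∧ 0 ≤ y1 * x1) ∧ (y2 ≠ 0 ∧ 0 ≤ y2 * x2) ∧
    (y1 - a * y2 / d2 ≠ 0 ∧ 0 ≤ (y1 - a * y2 / d2) * (x1 - x2 * b / d2)) ∧
    (y2 - b * y1 / d1 ≠ 0 ∧ 0 ≤ (y2 - b * y1 / d1) * (x2 - x1 * a / d1)) := by
  rcases pos_and_pos_or_neg_and_neg_of_mul_pos hab with ⟨ha, hb⟩ | ⟨ha, hb⟩
  · exact two_dim_pos hd1 hd2 ha hb hlt
  · obtain ⟨y1, y2, ⟨h1, h2⟩, ⟨h3, h4⟩, ⟨h5, h6⟩, ⟨h7, h8⟩⟩ :=
      two_dim_pos (a := -a) (b := -b) (x1 := x1) (x2 := -x2) hd1 hd2 (by linarith) (by linarith)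
        (by linarith)
    have e1 : y1 - a * (-y2) / d2 = y1 - -a * y2 / d2 := by ring
    have e2 : -y2 - b * y1 / d1 = -(y2 - -b * y1 / d1) := by ring
    refine ⟨y1, -y2, ⟨h1, h2⟩, ⟨neg_ne_zero.2 h3, by linarith⟩,
      ⟨by rw [e1]; exact h5, ?_⟩, ⟨by rw [e2]; exact neg_ne_zero.2 h7, ?_⟩⟩
    · rw [e1]
      have : (y1 - -a * y2 / d2) * (x1 - x2 * b / d2)
        = (y1 - -a * y2 / d2) * (x1 - -x2 * -b / d2) := by ring
      rw [this]; exact h6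
    · rw [e2]
      have : -(y2 - -b * y1 / d1) * (x2 - x1 * a / d1)
        = (y2 - -b * y1 / d1) * (-x2 - x1 * -a / d1) := by ring
      rw [this]; exact h8

end Pool.Agent.Helper85.CD
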