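import Mathlib
import Pool.Agent.Helper85.CD.Cfg
import Pool.Agent.Helper85.CD.Two

/-!
Classes of rank 2: the elements of `Z A` with a given vector `v`.
-/

namespace Pool.Agent.Helper85.CD

open Matrix Finset Filter Topology Pool.Agent.Helper5.GKK Pool.Agent.Helper21.GK

variable {n : ℕ}

theorem uv_insert {A : Mat n} (hA : RP A) {K : Finset (Fin n)} {i k : Fin n} (hi : i ∉ K) (hk : k ∉ K)
    (hik : i ≠ k) : uv A (insert k K) i = uv A K i - (scr A K i k / scr A K k k) • uv A K k := by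
  symm
  refine uv_unique hA (by simp [hi, hik]) ?_ ?_ ?_
  · simp [uv_self, uv_off A hi hik]
  · intro x hx hxi
    rw [mem_insert, not_or] at hx
    simp [uv_off A hx.2 hxi, uv_off A hx.2 hx.1]
  · intro x hx
    rw [Matrix.sub_vecMul, Pi.sub_apply (uv A K i ᵥ* A), Matrix.smul_vecMul, Pi.smul_apply, smul_eq_mul]
    rcases mem_insert.mp hx with rfl | hx
    · rw [uv_mul hA hi, uv_mul hA hk]
      have := (scr_self_pos hA hk).ne'
      field_simp
      ring
    · rw [uv_mul_mem hA hi hx, uv_mul_mem hA hk hx]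
      ring

theorem vv_insert {A : Mat n} (hA : RP A) {K : Finset (Fin n)} {i k : Fin n} (hi : i ∉ K) (hk : k ∉ K)
    (hik : i ≠ k) : vv A (insert k K) i = vv A K i - (scr A K k i / scr A K k k) • vv A K k := by
  have h := uv_insert hA.transpose hi hk hik
  rw [scr_transpose, scr_transpose] at h
  exact h

theorem vv_insert_zero {A : Mat n} (hA : RP A) {K : Finset (Fin n)} {i k : Fin n} (hi : i ∉ K)
    (hk : k ∉ K) (hik : i ≠ k) (h : scr A K k i = 0) : vv A (insert k K) i = vv A K i := by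
  rw [vv_insert hA hi hk hik, h, zero_div, zero_smul, sub_zero]

/-- a class of rank 2 -/
structure Cls (A : Mat n) (K0 : Finset (Fin n)) (p q o : Fin n) : Prop where
  pK : p ∉ K0
  qK : q ∉ K0
  oK : o ∉ K0
  pq : p ≠ q
  po : p ≠ o
  qo : q ≠ o
  zp : scr A K0 p o = 0
  zq : scr A K0 q o = 0
  all : ∀ K i, Z A K i o → vv A K o = vv A K0 o →
    (i = p ∧ (K = K0 ∨ K = insert q K0)) ∨ (i = q ∧ (K = K0 ∨ K = insert p K0))

theorem Cls.symm {A : Mat n} {K0 : Finset (Fin n)} {p q o : Fin n} (h : Cls A K0 p q o) :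
    Cls A K0 q p o := ⟨h.qK, h.pK, h.oK, h.pq.symm, h.qo, h.po, h.zq, h.zp, fun K i h1 h2 =>
  (h.all K i h1 h2).symm⟩

theorem exists_cls {A : Mat n} (hA : RP A) (hc : ∀ K o I, ¬ Col3 A K o I) {K1 K2 : Finset (Fin n)}
    {i1 i2 o : Fin n} (h1 : Z A K1 i1 o) (h2 : Z A K2 i2 o) (hv : vv A K1 o = vv A K2 o)
    (hne : ¬ (K1 = K2 ∧ i1 = i2)) : ∃ K0 p q, Cls A K0 p q o ∧ vv A K0 o = vv A K1 o := by
  classical
  set v := vv A K1 o with hvd
  have hoK1 : o ∉ K1 := h1.1.2.1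
  set K0 : Finset (Fin n) := univ.filter fun x => x ≠ o ∧ v x ≠ 0 with hK0
  set I : Finset (Fin n) := univ.filter fun x => x ≠ o ∧ v x = 0 ∧ (A *ᵥ v) x = 0 with hI
  have mK0 : ∀ x, x ∈ K0 ↔ x ≠ o ∧ v x ≠ 0 := fun x => by simp [hK0]
  have mI : ∀ x, x ∈ I ↔ x ≠ o ∧ v x = 0 ∧ (A *ᵥ v) x = 0 := fun x => by simp [hI]
  have hoK0 : o ∉ K0 := fun h => ((mK0 o).mp h).1 rfl
  have hsub : ∀ K i, Z A K i o → vv A K o = v → K0 ⊆ K ∧ K ⊆ K0 ∪ I ∧ i ∈ I := by
    intro K i hz hvK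
    refine ⟨fun x hx => ?_, fun x hx => ?_, ?_⟩
    · by_contra hxK
      have h3 := (mK0 x).mp hx
      rw [← hvK] at h3
      exact h3.2 (vv_off A hxK h3.1)
    · have hxo : x ≠ o := fun h => hz.1.2.1 (h ▸ hx)
      have h4 := vv_mul_mem hA hz.1.2.1 hx
      rw [hvK] at h4
      by_cases h5 : v x = 0
      · exact mem_union_right _ ((mI x).mpr ⟨hxo, h5, h4⟩)
      · exact mem_union_left _ ((mK0 x).mpr ⟨hxo, h5⟩)
    · have h4 := vv_mul hA hz.1.2.1 i
      rw [hz.2, hvK] at h4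
      have h5 := vv_off A hz.1.1 hz.1.2.2
      rw [hvK] at h5
      exact (mI i).mpr ⟨hz.1.2.2, h5, h4⟩
  have hs1 := hsub K1 i1 h1 rfl
  have hs2 := hsub K2 i2 h2 hv.symm
  have hvK0 : vv A K0 o = v := by
    symm
    refine vv_unique hA hoK0 (by rw [hvd, vv_self]) (fun x hx hxo => ?_) (fun k hk => ?_)
    · by_contra hne
      exact hx ((mK0 x).mpr ⟨hxo, hne⟩)
    · exact vv_mul_mem hA hoK1 (hs1.1 hk)
  have hcol : ∀ i ∈ I, scr A K0 i o = 0 := by
    intro i hi
    rw [← vv_mul hA hoK0 i, hvK0]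
    exact ((mI i).mp hi).2.2
  have hIK : Disjoint I K0 := by
    rw [Finset.disjoint_left]
    intro x hx hx'
    exact ((mK0 x).mp hx').2 ((mI x).mp hx).2.1
  have hoI : o ∉ I := fun h => ((mI o).mp h).1 rfl
  have hle : I.card ≤ 2 := by
    by_contra hcon
    obtain ⟨I', hI', hcard⟩ := Finset.exists_subset_card_eq (show 3 ≤ I.card by omega)
    exact hc K0 o I' ⟨hoK0, fun h => hoI (hI' h), hIK.mono_left hI', hcard, fun i hi => hcol i (hI' hi)⟩
  have hge : 2 ≤ I.card := by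
    by_contra hcon
    have hc1 : I.card ≤ 1 := by omega
    have he : ∀ x ∈ I, ∀ y ∈ I, x = y := fun x hx y hy => Finset.card_le_one.mp hc1 x hx y hy
    have hKe : ∀ K i, Z A K i o → vv A K o = v → K = K0 := by
      intro K i hz hvK
      obtain ⟨s1, s2, s3⟩ := hsub K i hz hvK
      refine Finset.Subset.antisymm (fun x hx => ?_) s1
      rcases mem_union.mp (s2 hx) with h | h
      · exact h
      · exact absurd (he x h i s3 ▸ hx) hz.1.1
    exact hne ⟨(hKe K1 i1 h1 rfl).trans (hKe K2 i2 h2 hv.symm).symm, he i1 hs1.2.2 i2 hs2.2.2⟩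
  obtain ⟨p, q, hpq, hIpq⟩ := Finset.card_eq_two.mp (le_antisymm hle hge)
  have hp : p ∈ I := by rw [hIpq]; simp
  have hq : q ∈ I := by rw [hIpq]; simp
  refine ⟨K0, p, q, ⟨Finset.disjoint_left.mp hIK hp, Finset.disjoint_left.mp hIK hq, hoK0, hpq,
    fun h => hoI (h ▸ hp), fun h => hoI (h ▸ hq), hcol p hp, hcol q hq, fun K i hz hvK => ?_⟩, hvK0⟩
  rw [hvK0] at hvK
  obtain ⟨s1, s2, s3⟩ := hsub K i hz hvK
  rw [hIpq] at s2 s3
  have key : ∀ p q : Fin n, i = p → K ⊆ K0 ∪ {p, q} → K = K0 ∨ K = insert q K0 := by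
    intro p q hip hs
    subst hip
    by_cases hqK : q ∈ K
    · right
      refine Finset.Subset.antisymm (fun x hx => ?_) (fun x hx => ?_)
      · rcases mem_union.mp (hs hx) with h | h
        · exact mem_insert_of_mem h
        · rcases mem_insert.mp h with h | h
          · exact absurd (h ▸ hx) hz.1.1
          · rw [mem_singleton.mp h]; exact mem_insert_self _ _
      · rcases mem_insert.mp hx with rfl | h
        · exact hqK
        · exact s1 h
    · left
      refine Finset.Subset.antisymm (fun x hx => ?_) s1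
      rcases mem_union.mp (hs hx) with h | h
      · exact h
      · rcases mem_insert.mp h with h | h
        · exact absurd (h ▸ hx) hz.1.1
        · exact absurd (mem_singleton.mp h ▸ hx) hqK
  rcases mem_insert.mp s3 with h | h
  · exact Or.inl ⟨h, key p q h s2⟩
  · refine Or.inr ⟨mem_singleton.mp h, key q p (mem_singleton.mp h) ?_⟩
    rwa [Finset.pair_comm]

/-- the linear program of a class of rank 2 -/
theorem class_lp {A : Mat n} (hA : RGKK A) {K0 : Finset (Fin n)} {p q o : Fin n}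
    (h : Cls A K0 p q o) (h1 : scr A K0 p q ≠ 0) (h2 : scr A K0 q p ≠ 0)
    (hx : scr A K0 o p ≠ 0 ∨ scr A K0 o q ≠ 0) : ∃ y1 y2 : ℝ, ∀ K i, Z A K i o →
      vv A K o = vv A K0 o → (y1 * uv A K i p + y2 * uv A K i q ≠ 0 ∧
        0 ≤ (y1 * uv A K i p + y2 * uv A K i q) * scr A K o i) := by
  have hd1 := scr_self_pos hA.1 h.pK
  have hd2 := scr_self_pos hA.1 h.qK
  have hab : 0 < scr A K0 p q * scr A K0 q p :=
    lt_of_le_of_ne (hA.2 K0 p q ⟨h.pK, h.qK, h.pq⟩) (mul_ne_zero h1 h2).symm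
  have hlt : scr A K0 p q * scr A K0 q p < scr A K0 p p * scr A K0 q q := by
    have h3 := scr_self_pos hA.1 (K := insert q K0) (k := p) (by simp [h.pK, h.pq])
    rw [scr_insert hA.1 h.qK] at h3
    rw [sub_pos, div_lt_iff₀ hd2] at h3
    exact h3
  obtain ⟨y1, y2, g1, g2, g3, g4⟩ := two_dim hd1 hd2 hab hlt hx
  refine ⟨y1, y2, fun K i hz hv => ?_⟩
  have up : uv A K0 p p = 1 := uv_self A K0 p
  have uq : uv A K0 q q = 1 := uv_self A K0 q
  have upq : uv A K0 p q = 0 := uv_off A h.qK h.pq.symm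
  have uqp : uv A K0 q p = 0 := uv_off A h.pK h.pq
  rcases h.all K i hz hv with ⟨rfl, rfl | rfl⟩ | ⟨rfl, rfl | rfl⟩
  · rw [up, upq, mul_one, mul_zero, add_zero]
    exact g1
  · rw [uv_insert hA.1 h.pK h.qK h.pq, scr_insert hA.1 h.qK]
    simp only [Pi.sub_apply, Pi.smul_apply, smul_eq_mul, up, upq, uq, uqp, mul_zero, sub_zero, mul_one,
      zero_sub]
    have e : y1 + y2 * -(scr A K0 i q / scr A K0 q q) = y1 - scr A K0 i q * y2 / scr A K0 q q := by ring
    rw [e]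
    exact g3
  · rw [uq, uqp, mul_one, mul_zero, zero_add]
    exact g2
  · rw [uv_insert hA.1 h.qK h.pK h.pq.symm, scr_insert hA.1 h.pK]
    simp only [Pi.sub_apply, Pi.smul_apply, smul_eq_mul, up, upq, uq, uqp, mul_zero, sub_zero, mul_one,
      zero_sub]
    have e : y1 * -(scr A K0 i p / scr A K0 p p) + y2 = y2 - scr A K0 i p * y1 / scr A K0 p p := by ring
    rw [e]
    exact g4

end Pool.Agent.Helper85.CD
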