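import Mathlib

/-!
Block [C1]: linear algebra of rank one matrices.
PROOF of `three_indep`. If `sum c_a u_a v_a^T = 0` and `c_1 <> 0`: apply to a vector `x` with `x . v_2 = 0`,
`x . v_1 <> 0`: `c_1 (v_1.x) u_1 + c_3 (v_3.x) u_3 = 0`, so `u_1` is parallel `u_3` (contradiction) as the
coefficient of `u_1` is not 0 (if `c_3 (v_3.x) = 0` then `u_1 = 0`, which is `0 • u_3`: excluded).
PROOF of `four_plane`. The four matrices are dependent (`hd`), any three are independent, so
`G_4 = sum c_k G_k` with all `c_k <> 0`; apply to `x` with `x . v_4 = 0`: `sum_k c_k (v_k.x) u_k = 0`. If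
`u_1,u_2,u_3` were independent, `v_k . x = 0` for all such `x`, so `v_k` is parallel `v_4`. Contradiction;
so any three of the four `u` are dependent, and two of them are independent.
-/

namespace Pool.Agent.Helper85.CD

open Matrix Finset

variable {n : ℕ}

private theorem c1_exists {v w : Fin n → ℝ} (h : ∀ c : ℝ, v ≠ c • w) : ∃ x : Fin n → ℝ, w ⬝ᵥ x = 0 ∧ v ⬝ᵥ x ≠ 0 := by
  set c : ℝ := (v ⬝ᵥ w) / (w ⬝ᵥ w) with hc
  have h0 : v - c • w ≠ 0 := fun h1 => h c (sub_eq_zero.1 h1)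
  have h1 : w ⬝ᵥ (v - c • w) = 0 := by
    rw [dotProduct_sub, dotProduct_smul, smul_eq_mul]
    by_cases hw : w ⬝ᵥ w = 0
    · rw [dotProduct_self_eq_zero] at hw
      simp [hw]
    · rw [hc, div_mul_cancel₀ _ hw, dotProduct_comm w v, sub_self]
  refine ⟨v - c • w, h1, fun h2 => h0 ?_⟩
  rw [← dotProduct_self_eq_zero]
  nth_rewrite 1 [sub_eq_add_neg]
  rw [add_dotProduct, h2, neg_dotProduct, smul_dotProduct, h1]
  simp

private theorem c1_app {ι : Type*} [Fintype ι] {g : ι → ℝ} {u v : ι → (Fin n → ℝ)}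
    (h : ∑ a, g a • vecMulVec (u a) (v a) = 0) (x : Fin n → ℝ) : ∑ a, (g a * (v a ⬝ᵥ x)) • u a = 0 := by
  funext i
  have h1 : ∀ j, ∑ a, g a * (u a i * v a j) = 0 := by
    intro j
    have := congrFun (congrFun h i) j
    rw [Matrix.sum_apply] at this
    simpa [vecMulVec_apply] using this
  rw [Finset.sum_apply]
  have h2 : ∑ a, ((g a * (v a ⬝ᵥ x)) • u a) i = ∑ j, (∑ a, g a * (u a i * v a j)) * x j := by
    simp only [Pi.smul_apply, smul_eq_mul, dotProduct, Finset.sum_mul, Finset.mul_sum]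
    rw [Finset.sum_comm]
    refine Finset.sum_congr rfl fun j _ => Finset.sum_congr rfl fun a _ => ?_
    ring
  rw [h2]
  simp [h1]

theorem three_indep {u v : Fin 3 → (Fin n → ℝ)} (hu : ∀ a b, a ≠ b → ∀ c : ℝ, u a ≠ c • u b)
    (hv : ∀ a b, a ≠ b → ∀ c : ℝ, v a ≠ c • v b) :
    LinearIndependent ℝ (fun a => vecMulVec (u a) (v a)) := by
  rw [Fintype.linearIndependent_iff]
  intro g hg a
  by_contra ha
  obtain ⟨b, c, hab, hac, hs⟩ : ∃ b c : Fin 3, a ≠ b ∧ a ≠ c ∧
      ∀ f : Fin 3 → (Fin n → ℝ), ∑ i, f i = f a + f b + f c := by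
    fin_cases a
    · exact ⟨1, 2, by decide, by decide, fun f => by rw [Fin.sum_univ_three]; rfl⟩
    · exact ⟨0, 2, by decide, by decide, fun f => by
        rw [Fin.sum_univ_three, add_comm (f 0) (f 1)]; rfl⟩
    · exact ⟨0, 1, by decide, by decide, fun f => by
        rw [Fin.sum_univ_three, add_comm (f 0 + f 1), ← add_assoc]; rfl⟩
  obtain ⟨x, hx1, hx2⟩ := c1_exists (hv a b hab)
  have h1 := c1_app hg x
  rw [hs, hx1, mul_zero, zero_smul, add_zero] at h1
  have h2 : g a * (v a ⬝ᵥ x) ≠ 0 := mul_ne_zero ha hx2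
  refine hu a c hac (-(g a * (v a ⬝ᵥ x))⁻¹ * (g c * (v c ⬝ᵥ x))) ?_
  have h3 : (g a * (v a ⬝ᵥ x)) • u a = -((g c * (v c ⬝ᵥ x)) • u c) := eq_neg_of_add_eq_zero_left h1
  calc u a = (g a * (v a ⬝ᵥ x))⁻¹ • ((g a * (v a ⬝ᵥ x)) • u a) := by rw [smul_smul, inv_mul_cancel₀ h2, one_smul]
    _ = _ := by rw [h3, smul_neg, smul_smul, neg_mul, neg_smul]

theorem two_indep {u v : Fin 2 → (Fin n → ℝ)} (hu : ∀ a b, a ≠ b → ∀ c : ℝ, u a ≠ c • u b)
    (hv : ∀ a b, a ≠ b → ∀ c : ℝ, v a ≠ c • v b) :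
    LinearIndependent ℝ (fun a => vecMulVec (u a) (v a)) := by
  rw [Fintype.linearIndependent_iff]
  intro g hg a
  by_contra ha
  obtain ⟨b, hab, hs⟩ : ∃ b : Fin 2, a ≠ b ∧ ∀ f : Fin 2 → (Fin n → ℝ), ∑ i, f i = f a + f b := by
    fin_cases a
    · exact ⟨1, by decide, fun f => by rw [Fin.sum_univ_two]; rfl⟩
    · exact ⟨0, by decide, fun f => by rw [Fin.sum_univ_two, add_comm (f 0) (f 1)]; rfl⟩
  obtain ⟨x, hx1, hx2⟩ := c1_exists (hv a b hab)
  have h1 := c1_app hg x
  rw [hs, hx1, mul_zero, zero_smul, add_zero] at h1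
  have h2 : g a * (v a ⬝ᵥ x) ≠ 0 := mul_ne_zero ha hx2
  refine hu a b hab 0 ?_
  rw [zero_smul]
  exact (smul_eq_zero.1 h1).resolve_left h2

theorem four_plane {u v : Fin 4 → (Fin n → ℝ)} (hu : ∀ a b, a ≠ b → ∀ c : ℝ, u a ≠ c • u b)
    (hv : ∀ a b, a ≠ b → ∀ c : ℝ, v a ≠ c • v b)
    (hd : Module.finrank ℝ (Submodule.span ℝ (Set.range fun a => vecMulVec (u a) (v a))) ≤ 3) :
    Module.finrank ℝ (Submodule.span ℝ (Set.range u)) ≤ 2 := by
  have hdep : ¬ LinearIndependent ℝ (fun a => vecMulVec (u a) (v a)) := by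
    intro h
    have := finrank_span_eq_card h
    rw [Fintype.card_fin] at this
    omega
  rw [Fintype.not_linearIndependent_iff] at hdep
  obtain ⟨g, hg, a0, ha0⟩ := hdep
  have hall : ∀ a, g a ≠ 0 := by
    intro a ha
    have h3 := three_indep (u := fun k => u (a.succAbove k)) (v := fun k => v (a.succAbove k))
      (fun k l hkl c => hu _ _ (fun h => hkl (Fin.succAbove_right_injective h)) c)
      (fun k l hkl c => hv _ _ (fun h => hkl (Fin.succAbove_right_injective h)) c)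
    rw [Fintype.linearIndependent_iff] at h3
    have h4 : ∑ k : Fin 3, g (a.succAbove k) • vecMulVec (u (a.succAbove k)) (v (a.succAbove k)) = 0 := by
      rw [Fin.sum_univ_succAbove _ a, ha, zero_smul, zero_add] at hg
      exact hg
    have h5 := h3 _ h4
    have : a0 ≠ a := fun h => ha0 (h ▸ ha)
    obtain ⟨k, hk⟩ := Fin.exists_succAbove_eq this
    exact ha0 (hk ▸ h5 k)
  have key : ∀ a b : Fin 4, a ≠ b → (∀ f : Fin 4 → (Fin n → ℝ), ∑ i, f i = f 0 + f 1 + f a + f b) →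
      u a ∈ Submodule.span ℝ ({u 0, u 1} : Set (Fin n → ℝ)) := by
    intro a b hab hs
    obtain ⟨x, hx1, hx2⟩ := c1_exists (hv a b hab)
    have h1 := c1_app hg x
    rw [hs, hx1, mul_zero, zero_smul, add_zero] at h1
    have h2 : g a * (v a ⬝ᵥ x) ≠ 0 := mul_ne_zero (hall a) hx2
    have h3 : (g a * (v a ⬝ᵥ x)) • u a ∈ Submodule.span ℝ ({u 0, u 1} : Set (Fin n → ℝ)) := by
      rw [← neg_mem_iff, ← eq_neg_of_add_eq_zero_left h1]
      exact Submodule.add_mem _ (Submodule.smul_mem _ _ (Submodule.subset_span (by simp)))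
        (Submodule.smul_mem _ _ (Submodule.subset_span (by simp)))
    exact (Submodule.smul_mem_iff _ h2).1 h3
  have hsub : Submodule.span ℝ (Set.range u) ≤ Submodule.span ℝ ({u 0, u 1} : Set (Fin n → ℝ)) := by
    rw [Submodule.span_le]
    rintro _ ⟨a, rfl⟩
    fin_cases a
    · exact Submodule.subset_span (by simp)
    · exact Submodule.subset_span (by simp)
    · exact key 2 3 (by decide) fun f => by rw [Fin.sum_univ_four]
    · exact key 3 2 (by decide) fun f => by rw [Fin.sum_univ_four, add_assoc, add_comm (f 2), ← add_assoc]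
  classical
  have h6 : Module.finrank ℝ (Submodule.span ℝ ({u 0, u 1} : Set (Fin n → ℝ))) ≤ 2 := by
    have h7 := finrank_span_finset_le_card (R := ℝ) ({u 0, u 1} : Finset (Fin n → ℝ))
    have h8 : ({u 0, u 1} : Finset (Fin n → ℝ)).card ≤ 2 := Finset.card_le_two
    rw [Finset.coe_pair] at h7
    exact h7.trans h8
  exact (Submodule.finrank_mono hsub).trans h6

/-- prescribed values on independent matrices -/
theorem exists_dual {ι : Type*} [Fintype ι] {G : ι → Matrix (Fin n) (Fin n) ℝ}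
    (hG : LinearIndependent ℝ G) (c : ι → ℝ) :
    ∃ X : Matrix (Fin n) (Fin n) ℝ, ∀ a, ∑ i, ∑ j, X i j * G a i j = c a := by
  classical
  obtain ⟨f, hf⟩ := LinearMap.exists_extend ((Module.Basis.span hG).constr ℝ c)
  refine ⟨Matrix.of fun i j => f (Matrix.single i j 1), fun a => ?_⟩
  have h1 : f (G a) = c a := by
    have h2 := LinearMap.congr_fun hf (Module.Basis.span hG a)
    rw [Module.Basis.constr_basis, LinearMap.comp_apply, Submodule.subtype_apply, Module.Basis.span_apply] at h2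
    exact h2
  rw [← h1]
  conv_rhs => rw [Matrix.matrix_eq_sum_single (G a)]
  rw [map_sum]
  refine Finset.sum_congr rfl fun i _ => ?_
  rw [map_sum]
  refine Finset.sum_congr rfl fun j _ => ?_
  have h3 : Matrix.single i j (G a i j) = G a i j • Matrix.single i j (1 : ℝ) := by
    rw [Matrix.smul_single, smul_eq_mul, mul_one]
  rw [h3, map_smul, smul_eq_mul, Matrix.of_apply, mul_comm]

end Pool.Agent.Helper85.CD
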