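import Mathlib
import Pool.Agent.Helper85.CD.Cls
import Pool.Agent.Helper85.CD.RankOne

/-!
A class of rank 2 in a space `W A` of dimension at most 3: the elements of `Z A` outside the class.
-/

namespace Pool.Agent.Helper85.CD

open Matrix Finset Filter Topology Pool.Agent.Helper5.GKK Pool.Agent.Helper21.GK

variable {n : ℕ}

theorem exists_coord (A : Mat n) {K : Finset (Fin n)} {o : Fin n} {w : Fin n → ℝ}
    (h : ∀ c : ℝ, w ≠ c • vv A K o) : ∃ x, w x - vv A K o x * w o ≠ 0 := by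
  by_contra hcon
  push Not at hcon
  refine h (w o) (funext fun x => ?_)
  have := hcon x
  rw [Pi.smul_apply, smul_eq_mul]
  linarith

theorem vv_nonpar {A : Mat n} (hA : RP A) {K K' : Finset (Fin n)} {i i' : Fin n} (hi : i ∉ K)
    (hi' : i' ∉ K') (h : vv A K i ≠ vv A K' i') : ∀ c : ℝ, vv A K i ≠ c • vv A K' i' :=
  fun c hc => h (vv_parallel hA hi hi' hc).2

theorem uv_class {A : Mat n} (hA : RP A) {K0 : Finset (Fin n)} {p q o : Fin n} (h : Cls A K0 p q o)
    {K : Finset (Fin n)} {i : Fin n} (hz : Z A K i o) (hv : vv A K o = vv A K0 o) :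
    uv A K i = uv A K i p • uv A K0 p + uv A K i q • uv A K0 q := by
  have up : uv A K0 p p = 1 := uv_self A K0 p
  have uq : uv A K0 q q = 1 := uv_self A K0 q
  have upq : uv A K0 p q = 0 := uv_off A h.qK h.pq.symm
  have uqp : uv A K0 q p = 0 := uv_off A h.pK h.pq
  rcases h.all K i hz hv with ⟨rfl, rfl | rfl⟩ | ⟨rfl, rfl | rfl⟩
  · rw [up, upq, one_smul, zero_smul, add_zero]
  · rw [uv_insert hA h.pK h.qK h.pq]
    funext x
    simp only [Pi.sub_apply, Pi.add_apply, Pi.smul_apply, smul_eq_mul, up, upq, uq, uqp]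
    ring
  · rw [uq, uqp, one_smul, zero_smul, zero_add]
  · rw [uv_insert hA h.qK h.pK h.pq.symm]
    funext x
    simp only [Pi.sub_apply, Pi.add_apply, Pi.smul_apply, smul_eq_mul, up, upq, uq, uqp]
    ring

theorem mem_W {A : Mat n} {K : Finset (Fin n)} {i j : Fin n} (hz : Z A K i j) :
    vecMulVec (uv A K i) (vv A K j) ∈ W A := Submodule.subset_span ⟨K, i, j, hz, rfl⟩

theorem Cls.Zp {A : Mat n} {K0 : Finset (Fin n)} {p q o : Fin n} (h : Cls A K0 p q o) : Z A K0 p o :=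
  ⟨⟨h.pK, h.oK, h.po⟩, h.zp⟩

theorem Cls.Zq {A : Mat n} {K0 : Finset (Fin n)} {p q o : Fin n} (h : Cls A K0 p q o) : Z A K0 q o :=
  ⟨⟨h.qK, h.oK, h.qo⟩, h.zq⟩

section

variable {A : Mat n} (hA : RP A) (hd : Module.finrank ℝ (W A) ≤ 3) {K0 : Finset (Fin n)}
  {p q o : Fin n} (h : Cls A K0 p q o) {Kb : Finset (Fin n)} {ib jb : Fin n} (hb : Z A Kb ib jb)
  (hbv : vv A Kb jb ≠ vv A K0 o)

include hA h hb hbv

theorem indep3 : LinearIndependent ℝ ![vecMulVec (uv A K0 p) (vv A K0 o),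
    vecMulVec (uv A K0 q) (vv A K0 o), vecMulVec (uv A Kb ib) (vv A Kb jb)] := by
  rw [Fintype.linearIndependent_iff]
  intro g hg
  rw [Fin.sum_univ_three] at hg
  simp only [Matrix.cons_val_zero, Matrix.cons_val_one, Matrix.cons_val] at hg
  have e : ∀ k x, g 0 * (uv A K0 p k * vv A K0 o x) + g 1 * (uv A K0 q k * vv A K0 o x)
      + g 2 * (uv A Kb ib k * vv A Kb jb x) = 0 := by
    intro k x
    have := congrFun (congrFun hg k) x
    simpa [vecMulVec_apply] using this
  have up : uv A K0 p p = 1 := uv_self A K0 p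
  have uq : uv A K0 q q = 1 := uv_self A K0 q
  have upq : uv A K0 p q = 0 := uv_off A h.qK h.pq.symm
  have uqp : uv A K0 q p = 0 := uv_off A h.pK h.pq
  have vo : vv A K0 o o = 1 := vv_self A K0 o
  obtain ⟨x, hx⟩ := exists_coord A (vv_nonpar hA hb.1.2.1 h.oK hbv)
  have g2 : g 2 = 0 := by
    have e1 := e ib x
    have e2 := e ib o
    rw [uv_self, vo] at e2
    rw [uv_self] at e1
    have e3 : g 2 * (vv A Kb jb x - vv A K0 o x * vv A Kb jb o) = 0 := by
      linear_combination e1 - vv A K0 o x * e2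
    exact (mul_eq_zero.mp e3).resolve_right hx
  have g0 : g 0 = 0 := by
    have := e p o
    rw [up, uqp, vo, g2] at this
    linarith
  have g1 : g 1 = 0 := by
    have := e q o
    rw [uq, upq, vo, g2] at this
    linarith
  intro a
  fin_cases a
  · exact g0
  · exact g1
  · exact g2

include hd in
theorem outside {Kc : Finset (Fin n)} {ic jc : Fin n} (hc : Z A Kc ic jc) : ∃ α β γ : ℝ, ∀ k x,
    uv A Kc ic k * vv A Kc jc x = (α * uv A K0 p k + β * uv A K0 q k) * vv A K0 o x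
      + γ * (uv A Kb ib k * vv A Kb jb x) := by
  have hli := indep3 hA h hb hbv
  have hle : Submodule.span ℝ (Set.range ![vecMulVec (uv A K0 p) (vv A K0 o),
      vecMulVec (uv A K0 q) (vv A K0 o), vecMulVec (uv A Kb ib) (vv A Kb jb)]) ≤ W A := by
    rw [Submodule.span_le]
    rintro _ ⟨a, rfl⟩
    fin_cases a
    · exact mem_W h.Zp
    · exact mem_W h.Zq
    · exact mem_W hb
  have hr := finrank_span_eq_card hli
  have heq : Submodule.span ℝ (Set.range ![vecMulVec (uv A K0 p) (vv A K0 o),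
      vecMulVec (uv A K0 q) (vv A K0 o), vecMulVec (uv A Kb ib) (vv A Kb jb)]) = W A := by
    refine Submodule.eq_of_le_of_finrank_le hle ?_
    rw [hr]
    simpa using hd
  have hmem := mem_W hc
  rw [← heq] at hmem
  obtain ⟨c, hc'⟩ := (Submodule.mem_span_range_iff_exists_fun ℝ).mp hmem
  rw [Fin.sum_univ_three] at hc'
  refine ⟨c 0, c 1, c 2, fun k x => ?_⟩
  have := congrFun (congrFun hc' k) x
  simp only [Matrix.cons_val_zero, Matrix.cons_val_one, Matrix.cons_val, Matrix.add_apply,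
    Matrix.smul_apply, vecMulVec_apply, smul_eq_mul] at this
  rw [← this]
  ring

include hd in
/-- all elements outside the class have the same `u` -/
theorem outside_u {Kc : Finset (Fin n)} {ic jc : Fin n} (hc : Z A Kc ic jc)
    (hcv : vv A Kc jc ≠ vv A K0 o) : ic = ib ∧ uv A Kc ic = uv A Kb ib := by
  obtain ⟨α, β, γ, e⟩ := outside hA hd h hb hbv hc
  obtain ⟨x, hx⟩ := exists_coord A (vv_nonpar hA hc.1.2.1 h.oK hcv)
  refine uv_parallel hA hc.1.1 hb.1.1
    (c := γ * (vv A Kb jb x - vv A K0 o x * vv A Kb jb o) / (vv A Kc jc x - vv A K0 o x * vv A Kc jc o))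
    (funext fun k => ?_)
  have e1 := e k x
  have e2 := e k o
  rw [vv_self A K0 o] at e2
  rw [Pi.smul_apply, smul_eq_mul, div_mul_eq_mul_div, eq_div_iff hx]
  linear_combination e1 - vv A K0 o x * e2

include hd in
theorem outside_unique (hU : ∀ α β : ℝ, uv A Kb ib ≠ α • uv A K0 p + β • uv A K0 q)
    {Kc : Finset (Fin n)} {ic jc : Fin n} (hc : Z A Kc ic jc)
    (hcv : vv A Kc jc ≠ vv A K0 o) : Kc = Kb ∧ ic = ib ∧ jc = jb := by
  obtain ⟨α, β, γ, e⟩ := outside hA hd h hb hbv hc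
  obtain ⟨hi, hu⟩ := outside_u hA hd h hb hbv hc hcv
  have e0 : vv A Kc jc o - γ * vv A Kb jb o = 0 := by
    by_contra hne
    refine hU (α / (vv A Kc jc o - γ * vv A Kb jb o)) (β / (vv A Kc jc o - γ * vv A Kb jb o))
      (funext fun k => ?_)
    have e2 := e k o
    rw [vv_self A K0 o, hu] at e2
    rw [Pi.add_apply, Pi.smul_apply, Pi.smul_apply, smul_eq_mul, smul_eq_mul, div_mul_eq_mul_div,
      div_mul_eq_mul_div, ← add_div, eq_div_iff hne]
    linear_combination e2
  have e1 : ∀ k, α * uv A K0 p k + β * uv A K0 q k = 0 := by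
    intro k
    have e2 := e k o
    rw [vv_self A K0 o, hu] at e2
    linear_combination uv A Kb ib k * e0 - e2
  have e3 : vv A Kc jc = γ • vv A Kb jb := by
    funext x
    have e2 := e ib x
    rw [hu, e1, uv_self] at e2
    rw [Pi.smul_apply, smul_eq_mul]
    linarith
  obtain ⟨hj, hv⟩ := vv_parallel hA hc.1.2.1 hb.1.2.1 e3
  subst hi hj
  refine ⟨?_, rfl, rfl⟩
  ext k
  constructor
  · intro hk
    by_contra hkb
    have hki : k ≠ ic := fun hh => hc.1.1 (hh ▸ hk)
    have hkj : k ≠ jc := fun hh => hc.1.2.1 (hh ▸ hk)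
    have hz : Z A Kb k jc := ⟨⟨hkb, hb.1.2.1, hkj⟩, by
      rw [← vv_mul hA hb.1.2.1 k, ← hv]
      exact vv_mul_mem hA hc.1.2.1 hk⟩
    exact hki (outside_u hA hd h hb hbv hz hbv).1
  · intro hk
    by_contra hkb
    have hki : k ≠ ic := fun hh => hb.1.1 (hh ▸ hk)
    have hkj : k ≠ jc := fun hh => hb.1.2.1 (hh ▸ hk)
    have hz : Z A Kc k jc := ⟨⟨hkb, hc.1.2.1, hkj⟩, by
      rw [← vv_mul hA hc.1.2.1 k, hv]
      exact vv_mul_mem hA hb.1.2.1 hk⟩
    exact hki (outside_u hA hd h hb hbv hz hcv).1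

end

end Pool.Agent.Helper85.CD
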