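import Mathlib
import Pool.Agent.Helper85.CD.CaseB1

/-!
Block [B] (helper85): a class of rank 2, first part.
-/

namespace Pool.Agent.Helper85.CD

open Matrix Finset Filter Topology Pool.Agent.Helper5.GKK Pool.Agent.Helper21.GK

variable {n : ℕ}

theorem dl_eq_sum' (A X : Mat n) (K : Finset (Fin n)) (i j : Fin n) :
    dl A X K i j = ∑ a, ∑ b, X a b * (uv A K i a * vv A K j b) := by
  unfold dl dotProduct Matrix.mulVec dotProduct
  refine Finset.sum_congr rfl fun a _ => ?_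
  rw [Finset.mul_sum]
  refine Finset.sum_congr rfl fun b _ => ?_
  ring

theorem dl_vecMulVec (A : Mat n) (y z : Fin n → ℝ) (K : Finset (Fin n)) (i j : Fin n) :
    dl A (vecMulVec y z) K i j = (uv A K i ⬝ᵥ y) * (z ⬝ᵥ vv A K j) := by
  unfold dl
  rw [Matrix.vecMulVec_mulVec, dotProduct_smul]
  simp

theorem eq_of_vv {A : Mat n} (hA : RP A) {K K' : Finset (Fin n)} {j j' : Fin n} (hj : j ∉ K)
    (hj' : j' ∉ K') (h : vv A K j = vv A K' j') : j = j' :=
  (vv_parallel hA hj hj' (c := 1) (by rw [h, one_smul])).1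

theorem comb_mul (A : Mat n) (a b : ℝ) (u w : Fin n → ℝ) (k : Fin n) :
    ((a • u + b • w) ᵥ* A) k = a * (u ᵥ* A) k + b * (w ᵥ* A) k := by
  rw [Matrix.add_vecMul, Pi.add_apply ((a • u) ᵥ* A), Matrix.smul_vecMul, Matrix.smul_vecMul,
    Pi.smul_apply, Pi.smul_apply, smul_eq_mul, smul_eq_mul]

theorem pos_of {a b : ℝ} (ha : a ≠ 0) (hab : 0 ≤ a * b) (hb : b ≠ 0) : 0 < a * b :=
  lt_of_le_of_ne hab (mul_ne_zero ha hb).symm

/-- the whole set is one class -/
theorem caseB0 {A : Mat n} (hA : RGKK A) {K0 : Finset (Fin n)} {p q o : Fin n} (h : Cls A K0 p q o)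
    (hall : ∀ K i j, Z A K i j → vv A K j = vv A K0 o) : A ∈ RL n := by
  have hj : ∀ K i j, Z A K i j → j = o := fun K i j hz => eq_of_vv hA.1 hz.1.2.1 h.oK (hall K i j hz)
  have n1 : scr A K0 p q ≠ 0 := fun h0 => h.qo (hj K0 p q ⟨⟨h.pK, h.qK, h.pq⟩, h0⟩)
  have n2 : scr A K0 q p ≠ 0 := fun h0 => h.po (hj K0 q p ⟨⟨h.qK, h.pK, h.pq.symm⟩, h0⟩)
  have n3 : scr A K0 o p ≠ 0 := fun h0 => h.po (hj K0 o p ⟨⟨h.oK, h.pK, h.po.symm⟩, h0⟩)
  obtain ⟨y1, y2, hy⟩ := class_lp hA h n1 n2 (Or.inl n3)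
  have hdl : ∀ K i j, Z A K i j → dl A (vecMulVec (Pi.single p y1 + Pi.single q y2) (Pi.single o 1)) K i j
      = y1 * uv A K i p + y2 * uv A K i q := by
    intro K i j hz
    have := hj K i j hz
    subst this
    rw [dl_vecMulVec, dotProduct_add, dotProduct_single, dotProduct_single, single_dotProduct, vv_self]
    ring
  refine mem_RL_of_lp (X := vecMulVec (Pi.single p y1 + Pi.single q y2) (Pi.single o 1)) hA
    (fun K i j hz hne => ?_) (fun K i j hz h0 => ?_)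
  · rw [hdl K i j hz]
    have := hj K i j hz
    subst this
    obtain ⟨g1, g2⟩ := hy K i hz (hall K i _ hz)
    exact pos_of g1 g2 hne
  · have e1 := hj K i j hz
    have e2 := hj K j i ⟨hz.1.symm, h0⟩
    exact absurd (e2.trans e1.symm) hz.1.2.2

/-- one further independent element -/
theorem caseB1 {A : Mat n} (hA : RGKK A) (hd : Module.finrank ℝ (W A) ≤ 3) {K0 : Finset (Fin n)}
    {p q o : Fin n} (h : Cls A K0 p q o) {Kb : Finset (Fin n)} {ib jb : Fin n} (hb : Z A Kb ib jb)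
    (hbv : vv A Kb jb ≠ vv A K0 o)
    (hU : ∀ α β : ℝ, uv A Kb ib ≠ α • uv A K0 p + β • uv A K0 q) : A ∈ RL n := by
  have hout : ∀ K i j, Z A K i j → vv A K j ≠ vv A K0 o → K = Kb ∧ i = ib ∧ j = jb :=
    fun K i j hz hv => outside_unique hA.1 hd h hb hbv hU hz hv
  have nv : ∀ K j, j ∉ K → j ≠ o → vv A K j ≠ vv A K0 o := fun K j hj hjo he =>
    hjo (eq_of_vv hA.1 hj h.oK he)
  have n1 : scr A K0 p q ≠ 0 := by
    intro h0
    obtain ⟨e1, e2, e3⟩ := hout K0 p q ⟨⟨h.pK, h.qK, h.pq⟩, h0⟩ (nv K0 q h.qK h.qo)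
    refine hU 1 0 ?_
    rw [← e1, ← e2, one_smul, zero_smul, add_zero]
  have n2 : scr A K0 q p ≠ 0 := by
    intro h0
    obtain ⟨e1, e2, e3⟩ := hout K0 q p ⟨⟨h.qK, h.pK, h.pq.symm⟩, h0⟩ (nv K0 p h.pK h.po)
    refine hU 0 1 ?_
    rw [← e1, ← e2, one_smul, zero_smul, zero_add]
  have n3 : scr A K0 o p ≠ 0 ∨ scr A K0 o q ≠ 0 := by
    by_contra hcon
    push Not at hcon
    obtain ⟨_, _, e3⟩ := hout K0 o p ⟨⟨h.oK, h.pK, h.po.symm⟩, hcon.1⟩ (nv K0 p h.pK h.po)
    obtain ⟨_, _, e3'⟩ := hout K0 o q ⟨⟨h.oK, h.qK, h.qo.symm⟩, hcon.2⟩ (nv K0 q h.qK h.qo)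
    exact h.pq (e3.trans e3'.symm)
  obtain ⟨y1, y2, hy⟩ := class_lp hA h n1 n2 n3
  set β : ℝ := if scr A Kb jb ib = 0 then y1 * uv A Kb jb p + y2 * uv A Kb jb q else scr A Kb jb ib
    with hβ
  obtain ⟨X, hX⟩ := exists_dual (indep3 hA.1 h hb hbv) ![y1, y2, β]
  have x1 : dl A X K0 p o = y1 := by
    rw [dl_eq_sum']
    have := hX 0
    simpa [vecMulVec_apply] using this
  have x2 : dl A X K0 q o = y2 := by
    rw [dl_eq_sum']
    have := hX 1
    simpa [vecMulVec_apply] using this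
  have x3 : dl A X Kb ib jb = β := by
    rw [dl_eq_sum']
    have := hX 2
    simpa [vecMulVec_apply] using this
  have hdl : ∀ K i, Z A K i o → vv A K o = vv A K0 o →
      dl A X K i o = y1 * uv A K i p + y2 * uv A K i q := by
    intro K i hz hv
    have e1 := uv_class hA.1 h hz hv
    unfold dl at x1 x2 ⊢
    rw [e1, hv, add_dotProduct, smul_dotProduct, smul_dotProduct, x1, x2]
    simp only [Pi.add_apply, Pi.smul_apply, smul_eq_mul, uv_self, uv_off A h.qK h.pq.symm,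
      uv_off A h.pK h.pq]
    ring
  have hstar : scr A Kb jb ib = 0 → ib = o ∧ vv A Kb ib = vv A K0 o := by
    intro h0
    have hz : Z A Kb jb ib := ⟨hb.1.symm, h0⟩
    by_cases hv : vv A Kb ib = vv A K0 o
    · exact ⟨eq_of_vv hA.1 hb.1.1 h.oK hv, hv⟩
    · exact absurd (hout Kb jb ib hz hv).2.2 hb.1.2.2
  refine mem_RL_of_lp (X := X) hA (fun K i j hz hne => ?_) (fun K i j hz h0 => ?_)
  · by_cases hv : vv A K j = vv A K0 o
    · have := eq_of_vv hA.1 hz.1.2.1 h.oK hv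
      subst this
      rw [hdl K i hz hv]
      obtain ⟨g1, g2⟩ := hy K i hz hv
      exact pos_of g1 g2 hne
    · obtain ⟨rfl, rfl, rfl⟩ := hout K i j hz hv
      rw [x3, hβ, if_neg hne]
      exact mul_self_pos.mpr hne
  · have key : ∀ K i j, Z A K i j → Z A K j i → vv A K j = vv A K0 o →
        0 < dl A X K i j * dl A X K j i := by
      intro K i j hz hz' hv
      have := eq_of_vv hA.1 hz.1.2.1 h.oK hv
      subst this
      obtain ⟨e1, e2, e3⟩ := hout K j i hz' (nv K i hz.1.1 hz.1.2.2)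
      subst e1 e2 e3
      rw [hdl K i hz hv, x3, hβ, if_pos hz.2]
      exact mul_self_pos.mpr (hy K i hz hv).1
    have hz' : Z A K j i := ⟨hz.1.symm, h0⟩
    by_cases hv : vv A K j = vv A K0 o
    · exact key K i j hz hz' hv
    · by_cases hv' : vv A K i = vv A K0 o
      · rw [mul_comm]; exact key K j i hz' hz hv'
      · obtain ⟨_, e2, _⟩ := hout K i j hz hv
        obtain ⟨_, e2', _⟩ := hout K j i hz' hv'
        exact absurd (e2.trans e2'.symm) hz.1.2.2

/-- a vector `u` in the plane of the class belongs to the class -/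
theorem u_star {A : Mat n} (hA : RP A) {K0 : Finset (Fin n)} {p q o : Fin n} (h : Cls A K0 p q o)
    {Kb : Finset (Fin n)} {ib : Fin n} (hi : ib ∉ Kb) {α β : ℝ}
    (hU : uv A Kb ib = α • uv A K0 p + β • uv A K0 q) :
    (ib = p ∧ ∃ Ks, Z A Ks p o ∧ vv A Ks o = vv A K0 o ∧ uv A Ks p = uv A Kb ib) ∨
    (ib = q ∧ ∃ Ks, Z A Ks q o ∧ vv A Ks o = vv A K0 o ∧ uv A Ks q = uv A Kb ib) := by
  have main : ∀ {p q : Fin n} (_ : Cls A K0 p q o) {α β : ℝ}
      (_ : uv A Kb ib = α • uv A K0 p + β • uv A K0 q), ib = p →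
      ∃ Ks, Z A Ks p o ∧ vv A Ks o = vv A K0 o ∧ uv A Ks p = uv A Kb ib := by
    intro p q h α β hU hip
    subst hip
    have hα : α = 1 := by
      have := congrFun hU ib
      rw [Pi.add_apply, Pi.smul_apply, Pi.smul_apply, uv_self, uv_self, uv_off A h.pK h.pq] at this
      simpa using this.symm
    subst hα
    have hmul : ∀ k, (uv A Kb ib ᵥ* A) k = scr A K0 ib k + β * scr A K0 q k := by
      intro k
      rw [hU, comb_mul, uv_mul hA h.pK, uv_mul hA h.qK, one_mul]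
    have hq0 : uv A Kb ib q = β := by
      rw [hU, Pi.add_apply, Pi.smul_apply, Pi.smul_apply, uv_self, uv_off A h.qK h.pq.symm]
      simp
    have hne := uv_mul_ne hA hi h.pq.symm
    rw [hq0, hmul] at hne
    rcases mul_eq_zero.mp hne with h0 | h0
    · refine ⟨K0, h.Zp, rfl, ?_⟩
      rw [hU, h0, zero_smul, add_zero, one_smul]
    · refine ⟨insert q K0, ⟨⟨by simp [h.pK, h.pq], by simp [h.oK, h.qo.symm], h.po⟩, ?_⟩,
        vv_insert_zero hA h.oK h.qK h.qo.symm h.zq, ?_⟩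
      · rw [scr_insert hA h.qK, h.zp, h.zq]
        ring
      · have hqq := (scr_self_pos hA h.qK).ne'
        have hβ : β = -(scr A K0 ib q / scr A K0 q q) := by
          field_simp
          linarith
        rw [uv_insert hA h.pK h.qK h.pq, hU, hβ, one_smul, neg_smul, ← sub_eq_add_neg]
  have hin : ib = p ∨ ib = q := by
    by_contra hcon
    push Not at hcon
    have h1 := uv_mul_self hA hi
    have h2 : (uv A Kb ib ᵥ* A) ib = α * scr A K0 p ib + β * scr A K0 q ib := by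
      rw [hU, comb_mul, uv_mul hA h.pK, uv_mul hA h.qK]
    have hmem : ib ∈ K0 := by
      by_contra hK
      have := congrFun hU ib
      rw [Pi.add_apply, Pi.smul_apply, Pi.smul_apply, uv_self, uv_off A hK hcon.1,
        uv_off A hK hcon.2] at this
      simp at this
    rw [h2, ← uv_mul hA h.pK, ← uv_mul hA h.qK, uv_mul_mem hA h.pK hmem, uv_mul_mem hA h.qK hmem] at h1
    simp at h1
  rcases hin with h1 | h1
  · exact Or.inl ⟨h1, main h hU h1⟩
  · refine Or.inr ⟨h1, main h.symm (α := β) (β := α) ?_ h1⟩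
    rw [hU, add_comm]

end Pool.Agent.Helper85.CD
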