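import Mathlib
import Pool.Agent.Helper85.CD.CaseB0

/-!
Block [B] (helper85): a class of rank 2.
-/

namespace Pool.Agent.Helper85.CD

open Matrix Finset Filter Topology Pool.Agent.Helper5.GKK Pool.Agent.Helper21.GK

variable {n : ℕ}

/-- two classes of rank 2, one in a column and one in a row, with one common element -/
theorem caseB2 {A : Mat n} (hA : RGKK A) {K0 L0 : Finset (Fin n)} {p q r o : Fin n}
    (h : Cls A K0 p q o) (h' : Cls Aᵀ L0 o r p) (hs : scr A K0 p q ≠ 0)
    {Ks : Finset (Fin n)} (hz0 : Z A Ks p o) (hv0 : vv A Ks o = vv A K0 o)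
    (hu0 : uv A Ks p = uv A L0 p)
    (hout : ∀ K i j, Z A K i j → vv A K j = vv A K0 o ∨ (i = p ∧ uv A K i = uv A L0 p)) :
    A ∈ RL n := by
  have hA' := hA.transpose
  have hin : ∀ K i j, Z A K i j → (j = o ∧ vv A K j = vv A K0 o) ∨ (i = p ∧ uv A K i = uv A L0 p) := by
    intro K i j hz
    rcases hout K i j hz with hv | hu
    · exact Or.inl ⟨eq_of_vv hA.1 hz.1.2.1 h.oK hv, hv⟩
    · exact Or.inr hu
  have hone : ∀ K i j, Z A K i j → scr A K j i ≠ 0 := by
    intro K i j hz h0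
    have hz' : Z A K j i := ⟨hz.1.symm, h0⟩
    rcases hin K i j hz with ⟨e1, _⟩ | ⟨e1, _⟩ <;> rcases hin K j i hz' with ⟨e2, _⟩ | ⟨e2, _⟩
    · exact hz.1.2.2 (e2.trans e1.symm)
    · exact h.po (e2.symm.trans e1)
    · exact h.po (e1.symm.trans e2)
    · exact hz.1.2.2 (e1.trans e2.symm)
  have hrp : r ≠ p := h'.qo
  have hor : o ≠ r := h'.pq
  have hpL : p ∉ L0 := h'.oK
  have hoL : o ∉ L0 := h'.pK
  have hrL : r ∉ L0 := h'.qK
  have zr : scr A L0 p r = 0 := by rw [← scr_transpose]; exact h'.zq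
  -- the linear program of the column class
  have n2 : scr A K0 q p ≠ 0 := by
    intro h0
    rcases hin K0 q p ⟨⟨h.qK, h.pK, h.pq.symm⟩, h0⟩ with ⟨e, _⟩ | ⟨e, _⟩
    · exact h.po e
    · exact h.pq e.symm
  have n3 : scr A K0 o p ≠ 0 := hone K0 p o h.Zp
  obtain ⟨y1, y2, hy⟩ := class_lp hA h hs n2 (Or.inl n3)
  -- the linear program of the row class
  have m1 : scr Aᵀ L0 o r ≠ 0 := by
    rw [scr_transpose]
    intro h0
    rcases hin L0 r o ⟨⟨hrL, hoL, hor.symm⟩, h0⟩ with ⟨_, hv⟩ | ⟨e, _⟩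
    · rcases h.all L0 r ⟨⟨hrL, hoL, hor.symm⟩, h0⟩ hv with ⟨e, _⟩ | ⟨e, e' | e'⟩
      · exact hrp e
      · subst e e'
        exact hs zr
      · exact hpL (e' ▸ mem_insert_self p K0)
    · exact hrp e
  have m2 : scr Aᵀ L0 r o ≠ 0 := by
    rw [scr_transpose]
    intro h0
    rcases hin L0 o r ⟨⟨hoL, hrL, hor⟩, h0⟩ with ⟨e, _⟩ | ⟨e, _⟩
    · exact hor e.symm
    · exact h.po e.symm
  have m3 : scr Aᵀ L0 p o ≠ 0 := by
    rw [scr_transpose]
    refine hone L0 p o ⟨⟨hpL, hoL, h.po⟩, ?_⟩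
    rw [← scr_transpose]; exact h'.zp
  obtain ⟨z1, z2, hz⟩ := class_lp hA' h' m1 m2 (Or.inl m3)
  -- the perturbation
  set c : ℝ := z1 * vv A Ks o o + z2 * vv A Ks o r with hc
  set d : ℝ := y1 * uv A Ks p p + y2 * uv A Ks p q with hd
  have hzT : Z Aᵀ Ks o p := Z_transpose.mpr hz0
  have c1 : c ≠ 0 ∧ 0 ≤ c * scr A Ks o p := by
    have := hz Ks o hzT hu0
    rw [scr_transpose] at this
    exact this
  have d1 : d ≠ 0 ∧ 0 ≤ d * scr A Ks o p := hy Ks p hz0 hv0
  have s1 : scr A Ks o p ≠ 0 := hone Ks p o hz0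
  have c2 := pos_of c1.1 c1.2 s1
  have d2 := pos_of d1.1 d1.2 s1
  have hdc : 0 < d / c := by
    have h5 : 0 < d * c := by
      have h6 : 0 < (d * scr A Ks o p) * (c * scr A Ks o p) := mul_pos d2 c2
      have h7 : (d * scr A Ks o p) * (c * scr A Ks o p) = (d * c) * (scr A Ks o p * scr A Ks o p) := by ring
      rw [h7] at h6
      exact (pos_iff_pos_of_mul_pos h6).mpr (mul_self_pos.mpr s1)
    have : d / c = d * c / (c * c) := by field_simp
    rw [this]
    exact div_pos h5 (mul_self_pos.mpr c1.1)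
  have hdl : ∀ K i j, dl A (c⁻¹ • vecMulVec (Pi.single p y1 + Pi.single q y2)
      (Pi.single o z1 + Pi.single r z2)) K i j
      = (y1 * uv A K i p + y2 * uv A K i q) * (z1 * vv A K j o + z2 * vv A K j r) / c := by
    intro K i j
    have e : dl A (c⁻¹ • vecMulVec (Pi.single p y1 + Pi.single q y2)
      (Pi.single o z1 + Pi.single r z2)) K i j = c⁻¹ * dl A (vecMulVec (Pi.single p y1 + Pi.single q y2)
      (Pi.single o z1 + Pi.single r z2)) K i j := by
      unfold dl
      rw [Matrix.smul_mulVec, dotProduct_smul, smul_eq_mul]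
    rw [e, dl_vecMulVec, dotProduct_add, dotProduct_single, dotProduct_single, add_dotProduct,
      single_dotProduct, single_dotProduct]
    field_simp
  refine mem_RL_of_lp (X := c⁻¹ • vecMulVec (Pi.single p y1 + Pi.single q y2)
      (Pi.single o z1 + Pi.single r z2)) hA (fun K i j hzz hne => ?_) (fun K i j hzz h0 =>
      absurd h0 (hone K i j hzz))
  rw [hdl]
  rcases hin K i j hzz with ⟨e, hv⟩ | ⟨e, hu⟩
  · subst e
    obtain ⟨g1, g2⟩ := hy K i hzz hv
    have e1 : z1 * vv A K j j + z2 * vv A K j r = c := by rw [hc, hv0, hv]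
    rw [e1, mul_div_assoc, div_self c1.1, mul_one]
    exact pos_of g1 g2 hne
  · subst e
    have hzz' : Z Aᵀ K j i := Z_transpose.mpr hzz
    obtain ⟨g1, g2⟩ := hz K j hzz' hu
    rw [scr_transpose] at g2
    have e1 : y1 * uv A K i i + y2 * uv A K i q = d := by rw [hd, hu0, hu]
    rw [e1]
    have g3 : 0 < (z1 * vv A K j o + z2 * vv A K j r) * scr A K j i := pos_of g1 g2 hne
    have := mul_pos hdc g3
    calc 0 < d / c * ((z1 * vv A K j o + z2 * vv A K j r) * scr A K j i) := this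
      _ = _ := by ring

/-- the entries of the Schur complement after the perturbation of three entries -/
theorem scr_pert {A M : Mat n} (hA : RP A) (hM : RP M) {K : Finset (Fin n)} {p q o : Fin n}
    {P Q R : ℝ} (hMA : M = A + (P • vecMulVec (Pi.single p 1) (Pi.single o 1)
      + (Q • vecMulVec (Pi.single q 1) (Pi.single o 1) + R • vecMulVec (Pi.single p 1) (Pi.single q 1))))
    {i j : Fin n} (hi : i ∉ K) (hj : j ∉ K) : scr M K i j = scr A K i j
      + P * (uv M K i p * vv A K j o) + Q * (uv M K i q * vv A K j o) + R * (uv M K i p * vv A K j q) := by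
  have h := scr_sub hA hM hi hj
  have e : M - A = P • vecMulVec (Pi.single p 1) (Pi.single o 1)
      + (Q • vecMulVec (Pi.single q 1) (Pi.single o 1) + R • vecMulVec (Pi.single p 1) (Pi.single q 1)) := by
    rw [hMA]; abel
  rw [e, Matrix.add_mulVec, Matrix.add_mulVec, Matrix.smul_mulVec, Matrix.smul_mulVec,
    Matrix.smul_mulVec, Matrix.vecMulVec_mulVec, Matrix.vecMulVec_mulVec, Matrix.vecMulVec_mulVec,
    dotProduct_add, dotProduct_add, dotProduct_smul, dotProduct_smul, dotProduct_smul] at h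
  simp only [smul_eq_mul, single_dotProduct, one_mul, dotProduct_smul, dotProduct_single, mul_one,
    MulOpposite.smul_eq_mul_unop, MulOpposite.unop_op] at h
  linarith

/-- the triangular configuration: second order perturbation -/
theorem caseB3 {A : Mat n} (hA : RGKK A) {K0 : Finset (Fin n)} {p q o : Fin n}
    (h : Cls A K0 p q o) (h' : Cls Aᵀ K0 o q p)
    (hin : ∀ K i j, Z A K i j → vv A K j = vv A K0 o ∨ (i = p ∧ uv A K i = uv A K0 p)) :
    A ∈ RL n := by
  have hone : ∀ K i j, Z A K i j → scr A K j i ≠ 0 := by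
    intro K i j hz h0
    have hz' : Z A K j i := ⟨hz.1.symm, h0⟩
    rcases hin K i j hz with e1 | ⟨e1, _⟩ <;> rcases hin K j i hz' with e2 | ⟨e2, _⟩
    · exact hz.1.2.2 ((eq_of_vv hA.1 hz.1.1 h.oK e2).trans (eq_of_vv hA.1 hz.1.2.1 h.oK e1).symm)
    · exact h.po (e2.symm.trans (eq_of_vv hA.1 hz.1.2.1 h.oK e1))
    · exact h.po (e1.symm.trans (eq_of_vv hA.1 hz.1.1 h.oK e2))
    · exact hz.1.2.2 (e1.trans e2.symm)
  have zpq : scr A K0 p q = 0 := by rw [← scr_transpose]; exact h'.zq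
  have x1 : scr A K0 o p ≠ 0 := hone K0 p o h.Zp
  have x2 : scr A K0 o q ≠ 0 := hone K0 q o h.Zq
  have x3 : scr A K0 q p ≠ 0 := hone K0 p q ⟨⟨h.pK, h.qK, h.pq⟩, zpq⟩
  have dp := scr_self_pos hA.1 h.pK
  have dq := scr_self_pos hA.1 h.qK
  have d0 := scr_self_pos hA.1 h.oK
  have x4 : scr A K0 o p - scr A K0 o q * scr A K0 q p / scr A K0 q q ≠ 0 := by
    rw [← scr_insert hA.1 h.qK]
    refine hone (insert q K0) p o ⟨⟨by simp [h.pK, h.pq], by simp [h.oK, h.qo.symm], h.po⟩, ?_⟩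
    rw [scr_insert hA.1 h.qK, h.zp, h.zq]
    ring
  set f : ℝ → Mat n := fun t => A + ((t * t * scr A K0 o p) • vecMulVec (Pi.single p 1) (Pi.single o 1)
      + ((t * scr A K0 o q) • vecMulVec (Pi.single q 1) (Pi.single o 1)
      + (t * scr A K0 q p) • vecMulVec (Pi.single p 1) (Pi.single q 1))) with hf
  have hft : Tendsto f (𝓝[>] 0) (𝓝 A) := by
    have h1 : Continuous f := by
      rw [hf]
      fun_prop
    have h2 := h1.tendsto 0
    have h3 : f 0 = A := by simp [hf]
    rw [h3] at h2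
    exact h2.mono_left nhdsWithin_le_nhds
  refine mem_closure_of_tendsto hft ?_
  have hRP : ∀ᶠ t : ℝ in 𝓝[>] 0, RP (f t) := hft.eventually (eventually_RP hA.1)
  have hpos : ∀ᶠ t : ℝ in 𝓝[>] 0, (0 : ℝ) < t := self_mem_nhdsWithin
  have hs1 : ∀ᶠ t : ℝ in 𝓝[>] 0, scr A K0 o q - t * scr A K0 q p * scr A K0 o p / scr A K0 p p ≠ 0 := by
    have h1 : Continuous fun t : ℝ => scr A K0 o q - t * scr A K0 q p * scr A K0 o p / scr A K0 p p := by
      fun_prop
    have h2 := h1.tendsto 0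
    simp only [zero_mul, zero_div, sub_zero] at h2
    exact (h2.mono_left nhdsWithin_le_nhds).eventually_ne x2
  have hs2 : ∀ᶠ t : ℝ in 𝓝[>] 0, scr A K0 q p - t * scr A K0 o p * scr A K0 o q / scr A K0 o o ≠ 0 := by
    have h1 : Continuous fun t : ℝ => scr A K0 q p - t * scr A K0 o p * scr A K0 o q / scr A K0 o o := by
      fun_prop
    have h2 := h1.tendsto 0
    simp only [zero_mul, zero_div, sub_zero] at h2
    exact (h2.mono_left nhdsWithin_le_nhds).eventually_ne x3
  have hall : ∀ᶠ t : ℝ in 𝓝[>] 0, ∀ (K : Finset (Fin n)) (i j : Fin n), Val K i j →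
      scr A K i j ≠ 0 → scr A K j i ≠ 0 → 0 < scr (f t) K i j * scr (f t) K j i := by
    refine eventually_all.mpr fun K => eventually_all.mpr fun i => eventually_all.mpr fun j => ?_
    by_cases hv : Val K i j
    swap
    · exact Eventually.of_forall fun t h => absurd h hv
    by_cases h1 : scr A K i j = 0
    · exact Eventually.of_forall fun t _ h => absurd h1 h
    by_cases h2 : scr A K j i = 0
    · exact Eventually.of_forall fun t _ _ h => absurd h2 h
    filter_upwards [eventually_ne hA hft hv h1 h2] with t ht _ _ _ using ht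
  filter_upwards [hRP, hpos, hs1, hs2, hall] with t hM ht hs1 hs2 hall
  set M := f t with hMdef
  have hMA : M = A + ((t * t * scr A K0 o p) • vecMulVec (Pi.single p 1) (Pi.single o 1)
      + ((t * scr A K0 o q) • vecMulVec (Pi.single q 1) (Pi.single o 1)
      + (t * scr A K0 q p) • vecMulVec (Pi.single p 1) (Pi.single q 1))) := rfl
  have E : ∀ {i j}, i ∉ K0 → j ∉ K0 → _ := fun {i j} hi hj => scr_pert hA.1 hM hMA (i := i) (j := j) hi hj
  have upp : uv M K0 p p = 1 := uv_self _ _ _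
  have upq : uv M K0 p q = 0 := uv_off _ h.qK h.pq.symm
  have uqp : uv M K0 q p = 0 := uv_off _ h.pK h.pq
  have uqq : uv M K0 q q = 1 := uv_self _ _ _
  have uop : uv M K0 o p = 0 := uv_off _ h.pK h.po
  have uoq : uv M K0 o q = 0 := uv_off _ h.qK h.qo
  have vpo : vv A K0 p o = 0 := vv_off _ h.oK h.po.symm
  have vpq : vv A K0 p q = 0 := vv_off _ h.qK h.pq.symm
  have vqo : vv A K0 q o = 0 := vv_off _ h.oK h.qo.symm
  have vqq : vv A K0 q q = 1 := vv_self _ _ _
  have voo : vv A K0 o o = 1 := vv_self _ _ _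
  have voq : vv A K0 o q = 0 := vv_off _ h.qK h.qo
  have Epo : scr M K0 p o = t * t * scr A K0 o p := by
    rw [E h.pK h.oK, h.zp, upp, voo, upq, voq]; ring
  have Eqo : scr M K0 q o = t * scr A K0 o q := by
    rw [E h.qK h.oK, h.zq, uqp, voo, uqq, voq]; ring
  have Epq : scr M K0 p q = t * scr A K0 q p := by
    rw [E h.pK h.qK, zpq, upp, vqo, upq, vqq]; ring
  have Eop : scr M K0 o p = scr A K0 o p := by
    rw [E h.oK h.pK, uop, vpo, uoq, vpq]; ring
  have Eoq : scr M K0 o q = scr A K0 o q := by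
    rw [E h.oK h.qK, uop, vqo, uoq, vqq]; ring
  have Eqp : scr M K0 q p = scr A K0 q p := by
    rw [E h.qK h.pK, uqp, vpo, uqq, vpq]; ring
  have Epp : scr M K0 p p = scr A K0 p p := by
    rw [E h.pK h.pK, upp, vpo, upq, vpq]; ring
  have Eqq : scr M K0 q q = scr A K0 q q := by
    rw [E h.qK h.qK, uqp, vqo, uqq, vqq]; ring
  have Eoo : scr M K0 o o = scr A K0 o o := by
    rw [E h.oK h.oK, uop, voo, uoq, voq]; ring
  have key : ∀ K i j, Z A K i j → 0 < scr M K i j * scr M K j i := by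
    intro K i j hz
    rcases hin K i j hz with hv | ⟨hip, hu⟩
    · have hjo := eq_of_vv hA.1 hz.1.2.1 h.oK hv
      subst hjo
      rcases h.all K i hz hv with ⟨rfl, rfl | rfl⟩ | ⟨rfl, rfl | rfl⟩
      · rw [Epo, Eop]
        have := mul_pos (mul_pos ht ht) (mul_self_pos.mpr x1)
        calc 0 < _ := this
          _ = _ := by ring
      · rw [scr_insert hM h.qK, scr_insert hM h.qK, Epo, Eop, Eqo, Eoq, Epq, Eqp, Eqq]
        have := mul_pos (mul_pos ht ht) (mul_self_pos.mpr x4)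
        calc 0 < _ := this
          _ = _ := by ring
      · rw [Eqo, Eoq]
        have := mul_pos ht (mul_self_pos.mpr x2)
        calc 0 < _ := this
          _ = _ := by ring
      · rw [scr_insert hM h.pK, scr_insert hM h.pK, Epo, Eop, Eqo, Eoq, Epq, Eqp, Epp]
        have := mul_pos ht (mul_self_pos.mpr hs1)
        calc 0 < _ := this
          _ = _ := by ring
    · subst hip
      have hz' : Z Aᵀ K j i := Z_transpose.mpr hz
      rcases h'.all K j hz' hu with ⟨rfl, rfl | rfl⟩ | ⟨rfl, rfl | rfl⟩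
      · rw [Epo, Eop]
        have := mul_pos (mul_pos ht ht) (mul_self_pos.mpr x1)
        calc 0 < _ := this
          _ = _ := by ring
      · rw [scr_insert hM h.qK, scr_insert hM h.qK, Epo, Eop, Eqo, Eoq, Epq, Eqp, Eqq]
        have := mul_pos (mul_pos ht ht) (mul_self_pos.mpr x4)
        calc 0 < _ := this
          _ = _ := by ring
      · rw [Epq, Eqp]
        have := mul_pos ht (mul_self_pos.mpr x3)
        calc 0 < _ := this
          _ = _ := by ring
      · rw [scr_insert hM h.oK, scr_insert hM h.oK, Epo, Eop, Eqo, Eoq, Epq, Eqp, Eoo]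
        have := mul_pos ht (mul_self_pos.mpr hs2)
        calc 0 < _ := this
          _ = _ := by ring
  refine ⟨hM, fun K i j hv => ?_⟩
  by_cases h1 : scr A K i j = 0
  · exact key K i j ⟨hv, h1⟩
  · by_cases h2 : scr A K j i = 0
    · rw [mul_comm]; exact key K j i ⟨hv.symm, h2⟩
    · exact hall K i j hv h1 h2

theorem caseB {A : Mat n} (hA : RGKK A) (hd : Module.finrank ℝ (W A) ≤ 3)
    (hc : ∀ K o I, ¬ Col3 A K o I) (hr : ∀ K o I, ¬ Col3 Aᵀ K o I)
    {K K' : Finset (Fin n)} {i i' o : Fin n} (h1 : Z A K i o) (h2 : Z A K' i' o)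
    (hv : vv A K o = vv A K' o) (hne : ¬ (K = K' ∧ i = i')) : A ∈ RL n := by
  obtain ⟨K0, p, q, h, _⟩ := exists_cls hA.1 hc h1 h2 hv hne
  by_cases hall : ∀ K i j, Z A K i j → vv A K j = vv A K0 o
  · exact caseB0 hA h hall
  push Not at hall
  obtain ⟨Kb, ib, jb, hb, hbv⟩ := hall
  by_cases hU : ∀ α β : ℝ, uv A Kb ib ≠ α • uv A K0 p + β • uv A K0 q
  · exact caseB1 hA hd h hb hbv hU
  push Not at hU
  obtain ⟨α, β, hU⟩ := hU
  have main : ∀ {p q : Fin n}, Cls A K0 p q o → (ib = p ∧ ∃ Ks, Z A Ks p o ∧ vv A Ks o = vv A K0 o ∧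
      uv A Ks p = uv A Kb ib) → A ∈ RL n := by
    rintro p q h ⟨rfl, Ks, hz0, hv0, hu0⟩
    have hout := fun {K i j} (hz : Z A K i j) (hv : vv A K j ≠ vv A K0 o) =>
      outside_u hA.1 hd h hb hbv hz hv
    have hne' : ¬ (Ks = Kb ∧ o = jb) := by
      rintro ⟨rfl, rfl⟩
      exact hbv hv0
    obtain ⟨L0, r, s, h', hL0⟩ := exists_cls hA.transpose.1 hr (Z_transpose.mpr hz0)
      (Z_transpose.mpr hb) hu0 hne'
    have hr' : ∃ r, Cls Aᵀ L0 o r ib := by
      rcases h'.all Ks o (Z_transpose.mpr hz0) hL0.symm with ⟨e, _⟩ | ⟨e, _⟩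
      · subst e; exact ⟨s, h'⟩
      · subst e; exact ⟨r, h'.symm⟩
    obtain ⟨r, h'⟩ := hr'
    have hL0' : uv A L0 ib = uv A Ks ib := hL0
    by_cases hs : scr A K0 ib q = 0
    · -- triangular
      have hzq : Z A K0 ib q := ⟨⟨h.pK, h.qK, h.pq⟩, hs⟩
      have hvq : vv A K0 q ≠ vv A K0 o := fun he => h.qo (eq_of_vv hA.1 h.qK h.oK he)
      have hu1 : uv A K0 ib = uv A L0 ib := by
        rw [hL0', hu0]; exact (hout hzq hvq).2
      have h'' : Cls Aᵀ K0 o q ib := by
        rcases h'.all K0 q (Z_transpose.mpr hzq) hu1 with ⟨e, _⟩ | ⟨e, e' | e'⟩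
        · exact absurd e h.qo
        · subst e e'; exact h'
        · exact absurd (e' ▸ mem_insert_self o L0) h.oK
      refine caseB3 hA h h'' fun K i j hz => ?_
      by_cases hv : vv A K j = vv A K0 o
      · exact Or.inl hv
      · have := hout hz hv
        exact Or.inr ⟨this.1, by rw [this.2, hu1, hL0', hu0]⟩
    · refine caseB2 hA h h' hs hz0 hv0 hL0'.symm fun K i j hz => ?_
      by_cases hv : vv A K j = vv A K0 o
      · exact Or.inl hv
      · have := hout hz hv
        exact Or.inr ⟨this.1, by rw [this.2, hL0', hu0]⟩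
  rcases u_star hA.1 h hb.1.1 hU with hh | hh
  · exact main h hh
  · exact main h.symm hh

end Pool.Agent.Helper85.CD
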