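import Mathlib
import Pool.Agent.Helper85.CD.Basic

/-!
Block [C2]: four vectors `u_a` in a plane.
PROOF. For an index `k` consider the linear forms `w_k` and `(wA)_k` on the plane `U` spanned by the `u_a`.
If both are nonzero on `U`, each vanishes on at most one of the four pairwise nonparallel `u_a`
(`uv_parallel`), and every `u_a` with `i_a <> k` is killed by one of them (`uv_mul_ne`); so at least two
`a` have `i_a = k`. For `k = i_a` both are nonzero (`uv_self`, `uv_mul_self`). Not all `i_a` are equal to one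
`k`: otherwise take `w = u_0 - u_1 <> 0`, `w_k = 0`; by `eq_zero_of_mul` some `l <> k` has `w_l (wA)_l <> 0`, so both
forms of `l` are nonzero on `U` and some `i_a = l`. So two `i_a` are `p`, two are `q <> p`. The two `u_a` with
`i_a = p` are killed by `w_q` or by `(wA)_q`, each of which kills at most one of the four: so for exactly one
of them `w_q = 0` and `(wA)_q <> 0`; this is the `a` of the statement (`q` is not in `K_a` because
`(u_a A)_q <> 0`, `uv_mul_mem`), `c`, `d` are the two with `i = q`.
-/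

namespace Pool.Agent.Helper85.CD

open Matrix Finset Pool.Agent.Helper5.GKK Pool.Agent.Helper21.GK

variable {n : ℕ}

/-- a linear form which kills two of the four vectors kills all of them -/
private theorem one_zero38 {A : Mat n} (hA : RP A) {K : Fin 4 → Finset (Fin n)} {i : Fin 4 → Fin n}
    (hi : ∀ a, i a ∉ K a) (hne : ∀ a b, a ≠ b → uv A (K a) (i a) ≠ uv A (K b) (i b))
    (hU : Module.finrank ℝ (Submodule.span ℝ (Set.range fun a => uv A (K a) (i a))) ≤ 2)
    (f : (Fin n → ℝ) →ₗ[ℝ] ℝ) (a b : Fin 4) (hab : a ≠ b) (ha : f (uv A (K a) (i a)) = 0)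
    (hb : f (uv A (K b) (i b)) = 0) (c : Fin 4) : f (uv A (K c) (i c)) = 0 := by
  classical
  set u : Fin 4 → Fin n → ℝ := fun a => uv A (K a) (i a) with hu
  have hlin : LinearIndependent ℝ ![u a, u b] := by
    rw [LinearIndependent.pair_iff]
    intro s t hst
    have ht : t = 0 := by
      by_contra ht
      have h1 : u b = (-(s / t)) • u a := by
        have h2 : t • u b = (-s) • u a := by
          rw [neg_smul]
          exact eq_neg_of_add_eq_zero_right hst
        calc u b = t⁻¹ • (t • u b) := by rw [smul_smul, inv_mul_cancel₀ ht, one_smul]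
          _ = t⁻¹ • ((-s) • u a) := by rw [h2]
          _ = _ := by rw [smul_smul]; congr 1; field_simp
      exact hne b a hab.symm (uv_parallel hA (hi b) (hi a) h1).2
    refine ⟨?_, ht⟩
    rw [ht, zero_smul, add_zero] at hst
    rcases smul_eq_zero.1 hst with h | h
    · exact h
    · exact absurd h (uv_ne_zero A (K a) (i a))
  have hle : Submodule.span ℝ (Set.range ![u a, u b]) ≤ Submodule.span ℝ (Set.range u) := by
    apply Submodule.span_mono
    rintro x ⟨j, rfl⟩
    fin_cases j
    · exact ⟨a, rfl⟩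
    · exact ⟨b, rfl⟩
  have hrank : Module.finrank ℝ (Submodule.span ℝ (Set.range ![u a, u b])) = 2 := by
    rw [finrank_span_eq_card hlin]
    rfl
  have heq : Submodule.span ℝ (Set.range ![u a, u b]) = Submodule.span ℝ (Set.range u) :=
    Submodule.eq_of_le_of_finrank_le hle (by rw [hrank]; exact hU)
  have hc : u c ∈ Submodule.span ℝ (Set.range ![u a, u b]) := by
    rw [heq]
    exact Submodule.subset_span ⟨c, rfl⟩
  have hker : Submodule.span ℝ (Set.range ![u a, u b]) ≤ LinearMap.ker f := by
    rw [Submodule.span_le]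
    rintro x ⟨j, rfl⟩
    fin_cases j
    · exact ha
    · exact hb
  exact hker hc

theorem four_lemma {A : Mat n} (hA : RP A) {K : Fin 4 → Finset (Fin n)} {i : Fin 4 → Fin n}
    (hi : ∀ a, i a ∉ K a) (hne : ∀ a b, a ≠ b → uv A (K a) (i a) ≠ uv A (K b) (i b))
    (hU : Module.finrank ℝ (Submodule.span ℝ (Set.range fun a => uv A (K a) (i a))) ≤ 2) :
    ∃ a c d : Fin 4, c ≠ d ∧ a ≠ c ∧ a ≠ d ∧ i c = i d ∧ i a ≠ i c ∧ i c ∉ K a ∧
      (uv A (K a) (i a) ᵥ* A) (i c) ≠ 0 := by
  classical
  set u : Fin 4 → Fin n → ℝ := fun a => uv A (K a) (i a) with hu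
  have hone := one_zero38 hA hi hne hU
  have hone1 : ∀ k a b, a ≠ b → u a k = 0 → u b k = 0 → ∀ c, u c k = 0 := by
    intro k a b hab h1 h2 c
    have h := hone (LinearMap.proj k : (Fin n → ℝ) →ₗ[ℝ] ℝ) a b hab h1 h2 c
    exact h
  have hone2 : ∀ k a b, a ≠ b → (u a ᵥ* A) k = 0 → (u b ᵥ* A) k = 0 → ∀ c, (u c ᵥ* A) k = 0 := by
    intro k a b hab h1 h2 c
    have h := hone ((LinearMap.proj k : (Fin n → ℝ) →ₗ[ℝ] ℝ).comp (Matrix.vecMulLinear A)) a b hab
      h1 h2 c
    exact h
  -- an index for which both forms are nonzero occurs at least twice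
  have htwo : ∀ k, (∃ a, u a k ≠ 0) → (∃ b, (u b ᵥ* A) k ≠ 0) →
      2 ≤ (univ.filter fun a => i a = k).card := by
    rintro k ⟨a0, ha0⟩ ⟨b0, hb0⟩
    have h1 : (univ.filter fun a => u a k = 0).card ≤ 1 := by
      rw [Finset.card_le_one]
      intro a ha b hb
      by_contra hab
      exact ha0 (hone1 k a b hab (mem_filter.1 ha).2 (mem_filter.1 hb).2 a0)
    have h2 : (univ.filter fun a => (u a ᵥ* A) k = 0).card ≤ 1 := by
      rw [Finset.card_le_one]
      intro a ha b hb
      by_contra hab
      exact hb0 (hone2 k a b hab (mem_filter.1 ha).2 (mem_filter.1 hb).2 b0)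
    have h3 : (univ : Finset (Fin 4)) ⊆ (univ.filter fun a => i a = k) ∪
        ((univ.filter fun a => u a k = 0) ∪ (univ.filter fun a => (u a ᵥ* A) k = 0)) := by
      intro a _
      by_cases hk : i a = k
      · exact mem_union_left _ (mem_filter.2 ⟨mem_univ _, hk⟩)
      · apply mem_union_right
        rcases mul_eq_zero.1 (uv_mul_ne hA (hi a) (Ne.symm hk)) with h | h
        · exact mem_union_left _ (mem_filter.2 ⟨mem_univ _, h⟩)
        · exact mem_union_right _ (mem_filter.2 ⟨mem_univ _, h⟩)
    have h4 := (Finset.card_le_card h3).trans (Finset.card_union_le _ _)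
    have h5 := Finset.card_union_le (univ.filter fun a => u a k = 0)
      (univ.filter fun a => (u a ᵥ* A) k = 0)
    rw [Finset.card_univ, Fintype.card_fin] at h4
    omega
  have htwo' : ∀ a, 2 ≤ (univ.filter fun b => i b = i a).card := by
    intro a
    apply htwo (i a) ⟨a, ?_⟩ ⟨a, ?_⟩
    · change uv A (K a) (i a) (i a) ≠ 0
      rw [uv_self]; exact one_ne_zero
    · exact (uv_mul_self hA (hi a)).ne'
  -- not all indices are equal
  obtain ⟨b, hb⟩ : ∃ b, i b ≠ i 0 := by
    by_contra hcon
    push Not at hcon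
    have hw : u 0 - u 1 ≠ 0 := fun h => hne 0 1 (by decide) (sub_eq_zero.1 h)
    apply hw
    apply eq_zero_of_mul hA
    intro l
    by_contra hl
    have hlk : l ≠ i 0 := by
      rintro rfl
      apply hl
      have e0 : u 0 (i 0) = 1 := uv_self A (K 0) (i 0)
      have e1 : u 1 (i 0) = 1 := by
        rw [← hcon 1]
        exact uv_self A (K 1) (i 1)
      rw [Pi.sub_apply, e0, e1, sub_self, zero_mul]
    have hl1 : (u 0 - u 1) l ≠ 0 := left_ne_zero_of_mul hl
    have hl2 : ((u 0 - u 1) ᵥ* A) l ≠ 0 := right_ne_zero_of_mul hl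
    have g1 : ∃ a, u a l ≠ 0 := by
      by_contra hc
      push Not at hc
      apply hl1
      rw [Pi.sub_apply, hc 0, hc 1, sub_zero]
    have g2 : ∃ a, (u a ᵥ* A) l ≠ 0 := by
      by_contra hc
      push Not at hc
      apply hl2
      rw [Matrix.sub_vecMul]
      change (u 0 ᵥ* A) l - (u 1 ᵥ* A) l = 0
      rw [hc 0, hc 1, sub_zero]
    have h2 := htwo l g1 g2
    obtain ⟨a, ha⟩ := Finset.card_pos.1 (by omega : 0 < (univ.filter fun a => i a = l).card)
    exact hlk ((mem_filter.1 ha).2.symm.trans (hcon a))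
  have hp := htwo' 0
  have hq := htwo' b
  have hdisj : Disjoint (univ.filter fun a => i a = i 0) (univ.filter fun a => i a = i b) := by
    rw [Finset.disjoint_left]
    intro a h1 h2
    exact hb ((mem_filter.1 h2).2.symm.trans (mem_filter.1 h1).2)
  have hsum : (univ.filter fun a => i a = i 0).card + (univ.filter fun a => i a = i b).card ≤ 4 := by
    rw [← Finset.card_union_of_disjoint hdisj]
    exact (Finset.card_le_univ _).trans (by rw [Fintype.card_fin])
  obtain ⟨a1, a2, ha12, hset⟩ := Finset.card_eq_two.1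
    (by omega : (univ.filter fun a => i a = i 0).card = 2)
  obtain ⟨c, d, hcd, hset2⟩ := Finset.card_eq_two.1
    (by omega : (univ.filter fun a => i a = i b).card = 2)
  have hi1 : i a1 = i 0 := by
    have : a1 ∈ univ.filter fun a => i a = i 0 := by rw [hset]; simp
    exact (mem_filter.1 this).2
  have hi2 : i a2 = i 0 := by
    have : a2 ∈ univ.filter fun a => i a = i 0 := by rw [hset]; simp
    exact (mem_filter.1 this).2
  have hic : i c = i b := by
    have : c ∈ univ.filter fun a => i a = i b := by rw [hset2]; simp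
    exact (mem_filter.1 this).2
  have hid : i d = i b := by
    have : d ∈ univ.filter fun a => i a = i b := by rw [hset2]; simp
    exact (mem_filter.1 this).2
  -- the final step
  have fin : ∀ a, i a = i 0 → (u a ᵥ* A) (i b) ≠ 0 →
      ∃ a c d : Fin 4, c ≠ d ∧ a ≠ c ∧ a ≠ d ∧ i c = i d ∧ i a ≠ i c ∧ i c ∉ K a ∧
      (uv A (K a) (i a) ᵥ* A) (i c) ≠ 0 := by
    intro a ha h
    refine ⟨a, c, d, hcd, ?_, ?_, hic.trans hid.symm, ?_, ?_, ?_⟩
    · rintro rfl
      exact hb (hic.symm.trans ha)
    · rintro rfl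
      exact hb (hid.symm.trans ha)
    · rw [ha, hic]
      exact Ne.symm hb
    · intro hmem
      rw [hic] at hmem
      exact h (uv_mul_mem hA (hi a) hmem)
    · rw [hic]
      exact h
  have hb1 : u b (i b) ≠ 0 := by
    change uv A (K b) (i b) (i b) ≠ 0
    rw [uv_self]; exact one_ne_zero
  have hb2 : (u b ᵥ* A) (i b) ≠ 0 := (uv_mul_self hA (hi b)).ne'
  by_cases h : (u a1 ᵥ* A) (i b) = 0
  · refine fin a2 hi2 fun h2 => ?_
    exact hb2 (hone2 (i b) a1 a2 ha12 h h2 b)
  · exact fin a1 hi1 h

end Pool.Agent.Helper85.CD
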