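import Mathlib
import Pool.Agent.Helper85.CD.Basic
import Pool.Agent.Helper85.CD.RankOne
import Pool.Agent.Helper85.CD.Four

/-!
Block [C]: if `dim W A <= 3` and different elements of `Z A` have different `u` and different `v`, then
`A` is a limit.

PROOF. (1) `Z A` (as a set of triples) has at most three elements: otherwise take four. By `uv_parallel`,
`vv_parallel`, `hu`, `hv` the `u_a` are pairwise nonparallel, the `v_a` too. The `G_a` lie in `W A`, so
`four_plane` applies to `u` and (transposed) to `v`: all `u_a` lie in a plane, all `v_a` in a plane `V`.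
`four_lemma` gives `a`, `c`, `d`, `q := i_c = i_d`, `q` not in `K_a`, `(u_a A)_q <> 0`; so `q <> j_a` (`(u_a A)_{j_a} = 0`,
`uv_mul`) and `(v_a)_q = 0`. For `x = c, d`: `(A v_x)_q = 0` (`vv_mul`, `x` in `Z`); `v_c`, `v_d` span `V`, so
`(A v_a)_q = 0`: `(K_a,q,j_a)` is in `Z` and has the same `v` as `(K_a,i_a,j_a)`, contradiction with `hv`.
(2) At most three: the `G_a` are independent (`three_indep`, `two_indep`), so by `exists_dual` there is `X`
with `dl A X K i j` = any prescribed nonzero values on `Z A` (`dl = sum X G`); choose the signs of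
`scr A K j i` if this is not 0, otherwise 1; `mem_RL_of_lp`.
-/

namespace Pool.Agent.Helper85.CD

open Matrix Finset Filter Topology Pool.Agent.Helper5.GKK Pool.Agent.Helper21.GK

variable {n : ℕ}

private theorem c3_indep {ι : Type*} [Fintype ι] (hc : Fintype.card ι ≤ 3) {u v : ι → (Fin n → ℝ)}
    (hu : ∀ a b, a ≠ b → ∀ c : ℝ, u a ≠ c • u b) (hv : ∀ a b, a ≠ b → ∀ c : ℝ, v a ≠ c • v b)
    (hu0 : ∀ a, u a ≠ 0) (hv0 : ∀ a, v a ≠ 0) :
    LinearIndependent ℝ (fun a => vecMulVec (u a) (v a)) := by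
  have e := Fintype.equivFin ι
  generalize hm : Fintype.card ι = m at hc e
  rw [← linearIndependent_equiv e.symm]
  have hu' : ∀ a b, a ≠ b → ∀ c : ℝ, (u ∘ e.symm) a ≠ c • (u ∘ e.symm) b :=
    fun a b hab => hu _ _ fun h => hab (e.symm.injective h)
  have hv' : ∀ a b, a ≠ b → ∀ c : ℝ, (v ∘ e.symm) a ≠ c • (v ∘ e.symm) b :=
    fun a b hab => hv _ _ fun h => hab (e.symm.injective h)
  interval_cases m
  · exact linearIndependent_empty_type
  · rw [linearIndependent_unique_iff]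
    intro h
    change vecMulVec (u (e.symm default)) (v (e.symm default)) = 0 at h
    rw [Matrix.vecMulVec_eq_zero] at h
    rcases h with h | h
    · exact hu0 _ h
    · exact hv0 _ h
  · exact two_indep (u := u ∘ e.symm) (v := v ∘ e.symm) hu' hv'
  · exact three_indep (u := u ∘ e.symm) (v := v ∘ e.symm) hu' hv'

private theorem c3_dl (A X : Mat n) (K : Finset (Fin n)) (i j : Fin n) :
    dl A X K i j = ∑ a, ∑ b, X a b * vecMulVec (uv A K i) (vv A K j) a b := by
  unfold dl dotProduct Matrix.mulVec dotProduct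
  refine Finset.sum_congr rfl fun a _ => ?_
  rw [Finset.mul_sum]
  refine Finset.sum_congr rfl fun b _ => ?_
  rw [Matrix.vecMulVec_apply]
  ring

/-- the triples of `Z` -/
private abbrev C3T (A : Mat n) := {p : Finset (Fin n) × Fin n × Fin n // Z A p.1 p.2.1 p.2.2}

private theorem c3_card {A : Mat n} (hA : RGKK A) (hd : Module.finrank ℝ (W A) ≤ 3)
    (hv : ∀ K i K' i' o, Z A K i o → Z A K' i' o → vv A K o = vv A K' o → K = K' ∧ i = i')
    (pu : ∀ p q : C3T A, p ≠ q → ∀ c : ℝ, uv A p.1.1 p.1.2.1 ≠ c • uv A q.1.1 q.1.2.1)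
    (pv : ∀ p q : C3T A, p ≠ q → ∀ c : ℝ, vv A p.1.1 p.1.2.2 ≠ c • vv A q.1.1 q.1.2.2)
    (e : Fin 4 ↪ C3T A) : False := by
  have hu4 : ∀ a b, a ≠ b → ∀ c : ℝ, uv A (e a).1.1 (e a).1.2.1 ≠ c • uv A (e b).1.1 (e b).1.2.1 :=
    fun a b hab => pu _ _ fun h => hab (e.injective h)
  have hv4 : ∀ a b, a ≠ b → ∀ c : ℝ, vv A (e a).1.1 (e a).1.2.2 ≠ c • vv A (e b).1.1 (e b).1.2.2 :=
    fun a b hab => pv _ _ fun h => hab (e.injective h)
  set u : Fin 4 → (Fin n → ℝ) := fun a => uv A (e a).1.1 (e a).1.2.1 with hu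
  set v : Fin 4 → (Fin n → ℝ) := fun a => vv A (e a).1.1 (e a).1.2.2 with hv'
  have hle : Submodule.span ℝ (Set.range fun a => vecMulVec (u a) (v a)) ≤ W A := by
    refine Submodule.span_mono ?_
    rintro M ⟨a, rfl⟩
    exact ⟨_, _, _, (e a).2, rfl⟩
  have hd1 : Module.finrank ℝ (Submodule.span ℝ (Set.range fun a => vecMulVec (u a) (v a))) ≤ 3 :=
    (Submodule.finrank_mono hle).trans hd
  have hd2 : Module.finrank ℝ (Submodule.span ℝ (Set.range fun a => vecMulVec (v a) (u a))) ≤ 3 := by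
    have h1 : Submodule.span ℝ (Set.range fun a => vecMulVec (v a) (u a)) =
        (Submodule.span ℝ (Set.range fun a => vecMulVec (u a) (v a))).map
          (Matrix.transposeLinearEquiv (Fin n) (Fin n) ℝ ℝ).toLinearMap := by
      rw [Submodule.map_span, ← Set.range_comp]
      congr 2
      funext a
      ext x y
      simp [Matrix.vecMulVec_apply, mul_comm]
    rw [h1]
    exact (Submodule.finrank_map_le _ _).trans hd1
  have hU := four_plane hu4 hv4 hd1
  have hV := four_plane hv4 hu4 hd2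
  obtain ⟨a, c, d, hcd, hac, had, hicd, hiac, hq, hne⟩ :=
    four_lemma hA.1 (K := fun a => (e a).1.1) (i := fun a => (e a).1.2.1)
      (fun a => (e a).2.1.1) (fun a b hab h => hu4 a b hab 1 (by rw [one_smul]; exact h)) hU
  have hZa := (e a).2
  have hZc := (e c).2
  have hZd := (e d).2
  have hqj : (e c).1.2.1 ≠ (e a).1.2.2 := by
    intro h
    rw [h, uv_mul hA.1 hZa.1.1] at hne
    exact hne hZa.2
  have hc0 : (A *ᵥ vv A (e c).1.1 (e c).1.2.2) (e c).1.2.1 = 0 := by
    rw [vv_mul hA.1 hZc.1.2.1]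
    exact hZc.2
  have hd0 : (A *ᵥ vv A (e d).1.1 (e d).1.2.2) (e c).1.2.1 = 0 := by
    rw [hicd, vv_mul hA.1 hZd.1.2.1]
    exact hZd.2
  -- the plane
  have hind : LinearIndependent ℝ ![v c, v d] := by
    rw [LinearIndependent.pair_iff]
    intro s t hst
    have hs : s = 0 := by
      by_contra hs
      apply hv4 c d hcd (-(s⁻¹ * t))
      have h2 : s • v c = -(t • v d) := by
        rw [eq_neg_iff_add_eq_zero]
        exact hst
      have h3 : v c = s⁻¹ • (s • v c) := by rw [smul_smul, inv_mul_cancel₀ hs, one_smul]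
      change v c = -(s⁻¹ * t) • v d
      rw [h3, h2, smul_neg, smul_smul, neg_smul]
    refine ⟨hs, ?_⟩
    rw [hs, zero_smul, zero_add] at hst
    exact (smul_eq_zero.1 hst).resolve_right (vv_ne_zero A _ _)
  have hspan : Submodule.span ℝ {v c, v d} = Submodule.span ℝ (Set.range v) := by
    refine Submodule.eq_of_le_of_finrank_le (Submodule.span_mono ?_) ?_
    · rintro x (rfl | rfl)
      · exact ⟨c, rfl⟩
      · exact ⟨d, rfl⟩
    · have h4 := finrank_span_eq_card hind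
      rw [Fintype.card_fin, Matrix.range_cons, Matrix.range_cons, Matrix.range_empty, Set.union_empty] at h4
      have h5 : ({v c} ∪ {v d} : Set (Fin n → ℝ)) = {v c, v d} := rfl
      rw [h5] at h4
      rw [h4]
      exact hV
  have hva : v a ∈ Submodule.span ℝ {v c, v d} := by
    rw [hspan]
    exact Submodule.subset_span ⟨a, rfl⟩
  rw [Submodule.mem_span_pair] at hva
  obtain ⟨s, t, hst⟩ := hva
  have ha0 : (A *ᵥ vv A (e a).1.1 (e a).1.2.2) (e c).1.2.1 = 0 := by
    have h6 : vv A (e a).1.1 (e a).1.2.2 = s • vv A (e c).1.1 (e c).1.2.2 +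
        t • vv A (e d).1.1 (e d).1.2.2 := hst.symm
    rw [h6, Matrix.mulVec_add, Matrix.mulVec_smul, Matrix.mulVec_smul, Pi.add_apply, Pi.smul_apply,
      Pi.smul_apply, hc0, hd0, smul_zero, smul_zero, add_zero]
  rw [vv_mul hA.1 hZa.1.2.1] at ha0
  have hZ' : Z A (e a).1.1 (e c).1.2.1 (e a).1.2.2 := ⟨⟨hq, hZa.1.2.1, hqj⟩, ha0⟩
  exact hiac (hv _ _ _ _ _ hZa hZ' rfl).2

theorem caseC {A : Mat n} (hA : RGKK A) (hd : Module.finrank ℝ (W A) ≤ 3)
    (hv : ∀ K i K' i' o, Z A K i o → Z A K' i' o → vv A K o = vv A K' o → K = K' ∧ i = i')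
    (hu : ∀ K j K' j' o, Z A K o j → Z A K' o j' → uv A K o = uv A K' o → K = K' ∧ j = j') :
    A ∈ RL n := by
  classical
  have pu : ∀ p q : C3T A, p ≠ q → ∀ c : ℝ, uv A p.1.1 p.1.2.1 ≠ c • uv A q.1.1 q.1.2.1 := by
    rintro ⟨⟨K, i, j⟩, hp⟩ ⟨⟨K', i', j'⟩, hq⟩ hpq c h
    obtain ⟨h1, h2⟩ := uv_parallel hA.1 hp.1.1 hq.1.1 h
    simp only at h1 h2 hp hq
    subst h1
    obtain ⟨h3, h4⟩ := hu _ _ _ _ _ hp hq h2
    subst h3
    subst h4
    exact hpq rfl
  have pv : ∀ p q : C3T A, p ≠ q → ∀ c : ℝ, vv A p.1.1 p.1.2.2 ≠ c • vv A q.1.1 q.1.2.2 := by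
    rintro ⟨⟨K, i, j⟩, hp⟩ ⟨⟨K', i', j'⟩, hq⟩ hpq c h
    obtain ⟨h1, h2⟩ := vv_parallel hA.1 hp.1.2.1 hq.1.2.1 h
    simp only at h1 h2 hp hq
    subst h1
    obtain ⟨h3, h4⟩ := hv _ _ _ _ _ hp hq h2
    subst h3
    subst h4
    exact hpq rfl
  have hcard : Fintype.card (C3T A) ≤ 3 := by
    by_contra h
    push Not at h
    have h4 : Fintype.card (Fin 4) ≤ Fintype.card (C3T A) := by
      rw [Fintype.card_fin]
      exact h
    obtain ⟨e⟩ := Function.Embedding.nonempty_of_card_le h4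
    exact c3_card hA hd hv pu pv e
  have hind := c3_indep hcard (u := fun p : C3T A => uv A p.1.1 p.1.2.1)
    (v := fun p : C3T A => vv A p.1.1 p.1.2.2) pu pv (fun p => uv_ne_zero _ _ _)
    (fun p => vv_ne_zero _ _ _)
  obtain ⟨X, hX⟩ := exists_dual hind fun p : C3T A =>
    if scr A p.1.1 p.1.2.2 p.1.2.1 = 0 then 1 else scr A p.1.1 p.1.2.2 p.1.2.1
  have hdl : ∀ K i j, Z A K i j → dl A X K i j = if scr A K j i = 0 then 1 else scr A K j i := by
    intro K i j hZ
    rw [c3_dl]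
    exact hX ⟨(K, i, j), hZ⟩
  refine mem_RL_of_lp (X := X) hA ?_ ?_
  · intro K i j hZ h
    rw [hdl K i j hZ, if_neg h]
    exact mul_self_pos.2 h
  · intro K i j hZ h
    have hZ' : Z A K j i := ⟨hZ.1.symm, h⟩
    rw [hdl K i j hZ, hdl K j i hZ', if_pos h, if_pos hZ.2]
    norm_num

end Pool.Agent.Helper85.CD
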