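import Mathlib
import Pool.Agent.Helper85.CD.Basic
import Pool.Agent.Helper69.CD.Codim

/-!
Block [H] (helper69): the Hausdorff dimension of the set of real P-matrices at which the vanishing
almost principal minors have `r` independent gradients.

PROOF. At `A` choose `r` triples `a_1, ..., a_r` in `Z A` with independent gradients `G_a`. For `B`, `B'`
near `A` with `scr B K_a i_a j_a = 0 = scr B' K_a i_a j_a` the exact formula `scr_sub` gives
`uv B' K i . (B' - B) vv B K j = 0`, so `|<G_a, B' - B>| <= eps |B' - B|`; hence the projection to a
complement of the span of the `G_a` is antilipschitz on the common zero set near `A`. There are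
finitely many choices of `r` triples; use `exists_mem_nhdsWithin_lt_dimH_of_lt_dimH`.
-/

namespace Pool.Agent.Helper85.CD

open Matrix Finset Filter Topology Pool.Agent.Helper5.GKK Pool.Agent.Helper21.GK
open scoped ENNReal

variable {n : ℕ}

theorem dimH_W_le (n r : ℕ) : dimH {B : Fin n → Fin n → ℝ | RP (Matrix.of B) ∧
    r ≤ Module.finrank ℝ (W (Matrix.of B))} ≤ ((n ^ 2 - r : ℕ) : ℝ≥0∞) :=
  Pool.Agent.Helper69.CD.dimH_W_le n r

end Pool.Agent.Helper85.CD
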