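import Mathlib
import Pool.Agent.Helper85.CD.Basic
import Pool.Agent.Helper5.GKK.Counter

/-!
Block [E] (helper96): for every `n >= 4` a real GKK matrix of order `n` that is not a limit, with three
zeros in one column and no other vanishing almost principal product.

PROOF. `D = [[2,1,2],[3,4,1],[3,1,4]]`, `p = (-1,1,1)`: the numbers `u_iK . p` and `v_iK . p` of `D` have
the same sign for all `K` and `i`. Start with `A0 = D + 1` and `X`: `p` in the rows and columns with
index at least four (`o` has index three), and `1` between any two indices outside `I`. The products of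
`A0 + t X`, `t` small, are positive to first order except for the pairs `(i, o)`, `(o, i)`; those are positive
to second order if `K` contains an index outside `I`. Last step: row `o` on `I` becomes
`delta (4,5,-1)`, `delta` small; the part on `I + o` is diagonally similar to `ex4`, not a limit.
-/

set_option linter.unusedTactic false
set_option linter.unreachableTactic false

namespace Pool.Agent.Helper85.CD

open Matrix Finset Filter Topology Pool.Agent.Helper5.GKK Pool.Agent.Helper21.GK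
open scoped ComplexOrder

variable {n : ℕ}

/-! ### the block and its extension by a unit matrix -/

/-- `D + 1` -/
noncomputable def bd (n : ℕ) (D : Mat 3) : Mat n := Matrix.of fun x y =>
  if h : (x : ℕ) < 3 ∧ (y : ℕ) < 3 then D ⟨x, h.1⟩ ⟨y, h.2⟩ else if x = y then 1 else 0

theorem bd_cast (h3 : 3 ≤ n) (D : Mat 3) (i j : Fin 3) :
    bd n D (Fin.castLE h3 i) (Fin.castLE h3 j) = D i j := by
  simp [bd]

theorem bd_right (D : Mat 3) (x y : Fin n) (h : 3 ≤ (y : ℕ)) : bd n D x y = if x = y then 1 else 0 := by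
  have : ¬ ((x : ℕ) < 3 ∧ (y : ℕ) < 3) := fun hh => by omega
  simp only [bd, of_apply, dif_neg this]

theorem bd_transpose (D : Mat 3) : (bd n D)ᵀ = bd n Dᵀ := by
  ext x y
  simp only [bd, of_apply, transpose_apply]
  by_cases h : (x : ℕ) < 3 ∧ (y : ℕ) < 3
  · rw [dif_pos h, dif_pos h.symm]
  · rw [dif_neg h, dif_neg fun hh => h hh.symm]
    simp only [eq_comm]

theorem bd_left (D : Mat 3) (x y : Fin n) (h : 3 ≤ (x : ℕ)) : bd n D x y = if x = y then 1 else 0 := by
  have h1 := bd_right Dᵀ y x h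
  rw [← bd_transpose, transpose_apply] at h1
  rw [h1]
  simp only [eq_comm]

theorem RP_bd (h3 : 3 ≤ n) {D : Mat 3} (hD : RP D) : RP (bd n D) := by
  intro S
  rw [← pm_cx_pos, pm_ext h3 (cx D) (cx (bd n D)), pm_cx_pos]
  · exact hD _
  · intro i j
    rw [cx_apply, cx_apply, bd_cast]
  · intro i j hj
    rw [cx_apply, bd_right D i j hj]
    split_ifs <;> simp

theorem sum_cast (h3 : 3 ≤ n) (f : Fin n → ℝ) (hf : ∀ x : Fin n, 3 ≤ (x : ℕ) → f x = 0) :
    ∑ x, f x = ∑ i : Fin 3, f (Fin.castLE h3 i) := by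
  refine (Fintype.sum_of_injective (Fin.castLE h3) (Fin.castLE_injective h3) _ f ?_ fun i => rfl).symm
  intro x hx
  refine hf x ?_
  by_contra h
  exact hx ⟨⟨x, by omega⟩, rfl⟩

/-- extension by zero -/
noncomputable def ez (n : ℕ) (u : Fin 3 → ℝ) : Fin n → ℝ := fun x =>
  if h : (x : ℕ) < 3 then u ⟨x, h⟩ else 0

theorem ez_cast (h3 : 3 ≤ n) (u : Fin 3 → ℝ) (i : Fin 3) : ez n u (Fin.castLE h3 i) = u i := by
  simp [ez]

theorem ez_ge (u : Fin 3 → ℝ) {x : Fin n} (h : 3 ≤ (x : ℕ)) : ez n u x = 0 := by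
  simp only [ez, dif_neg (not_lt.mpr h)]

theorem ez_dot (h3 : 3 ≤ n) (u : Fin 3 → ℝ) (f : Fin n → ℝ) :
    ∑ x, ez n u x * f x = ∑ i : Fin 3, u i * f (Fin.castLE h3 i) := by
  rw [sum_cast h3 _ fun x hx => by rw [ez_ge u hx, zero_mul]]
  simp only [ez_cast]

theorem uv_bd (h3 : 3 ≤ n) {D : Mat 3} (hD : RP D) {K : Finset (Fin n)} {i : Fin 3}
    (hi : Fin.castLE h3 i ∉ K) : uv (bd n D) K (Fin.castLE h3 i) = ez n (uv D (res h3 K) i) := by
  have hi' : i ∉ res h3 K := fun hh => hi (mem_res.mp hh)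
  symm
  refine uv_unique (RP_bd h3 hD) hi ?_ ?_ ?_
  · rw [ez_cast, uv_self]
  · intro x hx hxi
    rcases Nat.lt_or_ge (x : ℕ) 3 with h | h
    · obtain ⟨x, rfl⟩ : ∃ x' : Fin 3, Fin.castLE h3 x' = x := ⟨⟨x, h⟩, rfl⟩
      rw [ez_cast]
      exact uv_off D (fun hh => hx (mem_res.mp hh)) fun hh => hxi (by rw [hh])
    · exact ez_ge _ h
  · intro k hk
    change ∑ x, ez n (uv D (res h3 K) i) x * bd n D x k = 0
    rw [ez_dot h3]
    rcases Nat.lt_or_ge (k : ℕ) 3 with h | h
    · obtain ⟨k, rfl⟩ : ∃ x' : Fin 3, Fin.castLE h3 x' = k := ⟨⟨k, h⟩, rfl⟩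
      simp only [bd_cast]
      exact uv_mul_mem hD hi' (mem_res.mpr hk)
    · refine Finset.sum_eq_zero fun x _ => ?_
      rw [bd_right D _ _ h, if_neg, mul_zero]
      intro hh
      have := congrArg Fin.val hh
      simp at this
      omega

theorem uv_bd_ge (h3 : 3 ≤ n) {D : Mat 3} (hD : RP D) {K : Finset (Fin n)} {k : Fin n}
    (hk : k ∉ K) (hk3 : 3 ≤ (k : ℕ)) : uv (bd n D) K k = Pi.single k 1 := by
  symm
  refine uv_unique (RP_bd h3 hD) hk (by simp) ?_ ?_
  · intro x _ hx
    simp [hx]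
  · intro y hy
    rw [Matrix.single_one_vecMul]
    change bd n D k y = 0
    rw [bd_left D _ _ hk3, if_neg]
    rintro rfl
    exact hk hy

theorem scr_bd (h3 : 3 ≤ n) {D : Mat 3} (hD : RP D) {K : Finset (Fin n)} {i : Fin 3}
    (hi : Fin.castLE h3 i ∉ K) (j : Fin 3) :
    scr (bd n D) K (Fin.castLE h3 i) (Fin.castLE h3 j) = scr D (res h3 K) i j := by
  have hi' : i ∉ res h3 K := fun hh => hi (mem_res.mp hh)
  rw [← uv_mul (RP_bd h3 hD) hi, uv_bd h3 hD hi, ← uv_mul hD hi']
  change ∑ x, ez n (uv D (res h3 K) i) x * bd n D x _ = _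
  rw [ez_dot h3]
  simp only [bd_cast]
  rfl

theorem scr_bd_right (h3 : 3 ≤ n) {D : Mat 3} (hD : RP D) {K : Finset (Fin n)} {i : Fin n}
    (hi : i ∉ K) {k : Fin n} (hik : i ≠ k) (hk : 3 ≤ (k : ℕ)) :
    scr (bd n D) K i k = 0 := by
  rw [← uv_mul (RP_bd h3 hD) hi]
  rcases Nat.lt_or_ge (i : ℕ) 3 with h | h
  · obtain ⟨i, rfl⟩ : ∃ x' : Fin 3, Fin.castLE h3 x' = i := ⟨⟨i, h⟩, rfl⟩
    rw [uv_bd h3 hD hi]
    change ∑ x, ez n (uv D (res h3 K) i) x * bd n D x _ = _
    rw [ez_dot h3]
    refine Finset.sum_eq_zero fun x _ => ?_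
    rw [bd_right D _ _ hk, if_neg, mul_zero]
    intro hh
    have := congrArg Fin.val hh
    simp at this
    omega
  · rw [uv_bd_ge h3 hD hi h, Matrix.single_one_vecMul]
    change bd n D i k = 0
    rw [bd_right D _ _ hk, if_neg hik]

theorem scr_bd_left (h3 : 3 ≤ n) {D : Mat 3} (hD : RP D) {K : Finset (Fin n)} {i : Fin n}
    (hi : i ∉ K) {k : Fin n} (hik : i ≠ k) (hk : 3 ≤ (k : ℕ)) :
    scr (bd n D) K k i = 0 := by
  rw [← scr_transpose, bd_transpose]
  exact scr_bd_right h3 hD.transpose hi hik hk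

/-! ### the block of order three -/

/-- the leading block -/
noncomputable def D3 : Mat 3 := !![2, 1, 2; 3, 4, 1; 3, 1, 4]

theorem cx_D3 : cx D3 = ex3 := by
  ext i j
  fin_cases i <;> fin_cases j <;> simp [D3, ex3]

theorem isStrictGKK_ex3 : IsStrictGKK ex3 := by
  have hdet : ex3.det = 3 := by
    simp [ex3, det_fin_three]; norm_num
  rw [isStrictGKK_three, hdet]
  refine ⟨⟨?_, ?_, by norm_num⟩, ?_, ?_⟩
  · intro i; fin_cases i <;> simp [ex3]
  · intro i j hij
    fin_cases i <;> fin_cases j <;> first | exact absurd rfl hij | (simp [ex3]; norm_num)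
  · intro i j hij
    fin_cases i <;> fin_cases j <;> first | exact absurd rfl hij | (simp [ex3]; try norm_num)
  · intro i j k hij hki hkj
    fin_cases i <;> fin_cases j <;> first | exact absurd rfl hij | skip
    all_goals fin_cases k <;> first | exact absurd rfl hki | exact absurd rfl hkj | (simp [ex3]; norm_num)

theorem RS_D3 : RS D3 := by
  have h := (isStrictGKK_iff _).mp isStrictGKK_ex3
  rw [← cx_D3] at h
  have hP : RP D3 := fun S => pm_cx_pos.mp (h.1 S)
  exact ⟨hP, fun K i j hv => (ap_cx_pos hP hv.1 hv.2.1 hv.2.2).mp (h.2 K i j hv.1 hv.2.1 hv.2.2)⟩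

/-- the sign vector -/
noncomputable def p3 : Fin 3 → ℝ := ![-1, 1, 1]

theorem uv_of {D : Mat 3} (hD : RP D) {S : Finset (Fin 3)} {i : Fin 3} (hi : i ∉ S) (w : Fin 3 → ℝ)
    (h1 : w i = 1) (h2 : ∀ x, x ∉ S → x ≠ i → w x = 0) (h3 : ∀ k ∈ S, (w ᵥ* D) k = 0) :
    uv D S i ⬝ᵥ p3 = -(w 0) + w 1 + w 2 := by
  rw [← uv_unique hD hi h1 h2 h3]
  simp [dotProduct, Fin.sum_univ_three, p3]

theorem sgn_D3 (S : Finset (Fin 3)) (i : Fin 3) (hi : i ∉ S) :
    0 < (uv D3 S i ⬝ᵥ p3) * (if i = 0 then -1 else 1) := by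
  have hD := RS_D3.1
  fin_cases i
  · by_cases h1 : (1 : Fin 3) ∈ S <;> by_cases h2 : (2 : Fin 3) ∈ S
    · rw [uv_of hD hi ![1, -2/15, -7/15]]
      · first | (simp [Matrix.cons_val]; done) | (simp [Matrix.cons_val]; norm_num)
      · simp
      · intro x hx hxi; fin_cases x <;> simp_all
      · intro k hk
        fin_cases k <;> first | exact absurd hk hi | exact absurd hk h1 | exact absurd hk h2 | (simp [D3, vecMul, dotProduct, Fin.sum_univ_three]; done) | (simp [D3, vecMul, dotProduct, Fin.sum_univ_three]; norm_num)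
    · rw [uv_of hD hi ![1, -1/4, 0]]
      · first | (simp [Matrix.cons_val]; done) | (simp [Matrix.cons_val]; norm_num)
      · simp
      · intro x hx hxi; fin_cases x <;> simp_all
      · intro k hk
        fin_cases k <;> first | exact absurd hk hi | exact absurd hk h1 | exact absurd hk h2 | (simp [D3, vecMul, dotProduct, Fin.sum_univ_three]; done) | (simp [D3, vecMul, dotProduct, Fin.sum_univ_three]; norm_num)
    · rw [uv_of hD hi ![1, 0, -1/2]]
      · first | (simp [Matrix.cons_val]; done) | (simp [Matrix.cons_val]; norm_num)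
      · simp
      · intro x hx hxi; fin_cases x <;> simp_all
      · intro k hk
        fin_cases k <;> first | exact absurd hk hi | exact absurd hk h1 | exact absurd hk h2 | (simp [D3, vecMul, dotProduct, Fin.sum_univ_three]; done) | (simp [D3, vecMul, dotProduct, Fin.sum_univ_three]; norm_num)
    · rw [uv_of hD hi ![1, 0, 0]]
      · first | (simp [Matrix.cons_val]; done) | (simp [Matrix.cons_val]; norm_num)
      · simp
      · intro x hx hxi; fin_cases x <;> simp_all
      · intro k hk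
        fin_cases k <;> first | exact absurd hk hi | exact absurd hk h1 | exact absurd hk h2 | (simp [D3, vecMul, dotProduct, Fin.sum_univ_three]; done) | (simp [D3, vecMul, dotProduct, Fin.sum_univ_three]; norm_num)
  · by_cases h1 : (0 : Fin 3) ∈ S <;> by_cases h2 : (2 : Fin 3) ∈ S
    · rw [uv_of hD hi ![-9/2, 1, 2]]
      · first | (simp [Matrix.cons_val]; done) | (simp [Matrix.cons_val]; norm_num)
      · simp
      · intro x hx hxi; fin_cases x <;> simp_all
      · intro k hk
        fin_cases k <;> first | exact absurd hk hi | exact absurd hk h1 | exact absurd hk h2 | (simp [D3, vecMul, dotProduct, Fin.sum_univ_three]; done) | (simp [D3, vecMul, dotProduct, Fin.sum_univ_three]; norm_num)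
    · rw [uv_of hD hi ![-3/2, 1, 0]]
      · first | (simp [Matrix.cons_val]; done) | (simp [Matrix.cons_val]; norm_num)
      · simp
      · intro x hx hxi; fin_cases x <;> simp_all
      · intro k hk
        fin_cases k <;> first | exact absurd hk hi | exact absurd hk h1 | exact absurd hk h2 | (simp [D3, vecMul, dotProduct, Fin.sum_univ_three]; done) | (simp [D3, vecMul, dotProduct, Fin.sum_univ_three]; norm_num)
    · rw [uv_of hD hi ![0, 1, -1/4]]
      · first | (simp [Matrix.cons_val]; done) | (simp [Matrix.cons_val]; norm_num)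
      · simp
      · intro x hx hxi; fin_cases x <;> simp_all
      · intro k hk
        fin_cases k <;> first | exact absurd hk hi | exact absurd hk h1 | exact absurd hk h2 | (simp [D3, vecMul, dotProduct, Fin.sum_univ_three]; done) | (simp [D3, vecMul, dotProduct, Fin.sum_univ_three]; norm_num)
    · rw [uv_of hD hi ![0, 1, 0]]
      · first | (simp [Matrix.cons_val]; done) | (simp [Matrix.cons_val]; norm_num)
      · simp
      · intro x hx hxi; fin_cases x <;> simp_all
      · intro k hk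
        fin_cases k <;> first | exact absurd hk hi | exact absurd hk h1 | exact absurd hk h2 | (simp [D3, vecMul, dotProduct, Fin.sum_univ_three]; done) | (simp [D3, vecMul, dotProduct, Fin.sum_univ_three]; norm_num)
  · by_cases h1 : (0 : Fin 3) ∈ S <;> by_cases h2 : (1 : Fin 3) ∈ S
    · rw [uv_of hD hi ![-9/5, 1/5, 1]]
      · first | (simp [Matrix.cons_val]; done) | (simp [Matrix.cons_val]; norm_num)
      · simp
      · intro x hx hxi; fin_cases x <;> simp_all
      · intro k hk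
        fin_cases k <;> first | exact absurd hk hi | exact absurd hk h1 | exact absurd hk h2 | (simp [D3, vecMul, dotProduct, Fin.sum_univ_three]; done) | (simp [D3, vecMul, dotProduct, Fin.sum_univ_three]; norm_num)
    · rw [uv_of hD hi ![-3/2, 0, 1]]
      · first | (simp [Matrix.cons_val]; done) | (simp [Matrix.cons_val]; norm_num)
      · simp
      · intro x hx hxi; fin_cases x <;> simp_all
      · intro k hk
        fin_cases k <;> first | exact absurd hk hi | exact absurd hk h1 | exact absurd hk h2 | (simp [D3, vecMul, dotProduct, Fin.sum_univ_three]; done) | (simp [D3, vecMul, dotProduct, Fin.sum_univ_three]; norm_num)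
    · rw [uv_of hD hi ![0, -1/4, 1]]
      · first | (simp [Matrix.cons_val]; done) | (simp [Matrix.cons_val]; norm_num)
      · simp
      · intro x hx hxi; fin_cases x <;> simp_all
      · intro k hk
        fin_cases k <;> first | exact absurd hk hi | exact absurd hk h1 | exact absurd hk h2 | (simp [D3, vecMul, dotProduct, Fin.sum_univ_three]; done) | (simp [D3, vecMul, dotProduct, Fin.sum_univ_three]; norm_num)
    · rw [uv_of hD hi ![0, 0, 1]]
      · first | (simp [Matrix.cons_val]; done) | (simp [Matrix.cons_val]; norm_num)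
      · simp
      · intro x hx hxi; fin_cases x <;> simp_all
      · intro k hk
        fin_cases k <;> first | exact absurd hk hi | exact absurd hk h1 | exact absurd hk h2 | (simp [D3, vecMul, dotProduct, Fin.sum_univ_three]; done) | (simp [D3, vecMul, dotProduct, Fin.sum_univ_three]; norm_num)

theorem sgn_D3' (S : Finset (Fin 3)) (i : Fin 3) (hi : i ∉ S) :
    0 < (vv D3 S i ⬝ᵥ p3) * (if i = 0 then -1 else 1) := by
  have hD := RS_D3.1.transpose
  unfold vv
  fin_cases i
  · by_cases h1 : (1 : Fin 3) ∈ S <;> by_cases h2 : (2 : Fin 3) ∈ S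
    · rw [uv_of hD hi ![1, -3/5, -3/5]]
      · first | (simp [Matrix.cons_val]; done) | (simp [Matrix.cons_val]; norm_num)
      · simp
      · intro x hx hxi; fin_cases x <;> simp_all
      · intro k hk
        fin_cases k <;> first | exact absurd hk hi | exact absurd hk h1 | exact absurd hk h2 | (simp [D3, vecMul, dotProduct, Fin.sum_univ_three, transpose_apply]; done) | (simp [D3, vecMul, dotProduct, Fin.sum_univ_three, transpose_apply]; norm_num)
    · rw [uv_of hD hi ![1, -3/4, 0]]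
      · first | (simp [Matrix.cons_val]; done) | (simp [Matrix.cons_val]; norm_num)
      · simp
      · intro x hx hxi; fin_cases x <;> simp_all
      · intro k hk
        fin_cases k <;> first | exact absurd hk hi | exact absurd hk h1 | exact absurd hk h2 | (simp [D3, vecMul, dotProduct, Fin.sum_univ_three, transpose_apply]; done) | (simp [D3, vecMul, dotProduct, Fin.sum_univ_three, transpose_apply]; norm_num)
    · rw [uv_of hD hi ![1, 0, -3/4]]
      · first | (simp [Matrix.cons_val]; done) | (simp [Matrix.cons_val]; norm_num)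
      · simp
      · intro x hx hxi; fin_cases x <;> simp_all
      · intro k hk
        fin_cases k <;> first | exact absurd hk hi | exact absurd hk h1 | exact absurd hk h2 | (simp [D3, vecMul, dotProduct, Fin.sum_univ_three, transpose_apply]; done) | (simp [D3, vecMul, dotProduct, Fin.sum_univ_three, transpose_apply]; norm_num)
    · rw [uv_of hD hi ![1, 0, 0]]
      · first | (simp [Matrix.cons_val]; done) | (simp [Matrix.cons_val]; norm_num)
      · simp
      · intro x hx hxi; fin_cases x <;> simp_all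
      · intro k hk
        fin_cases k <;> first | exact absurd hk hi | exact absurd hk h1 | exact absurd hk h2 | (simp [D3, vecMul, dotProduct, Fin.sum_univ_three, transpose_apply]; done) | (simp [D3, vecMul, dotProduct, Fin.sum_univ_three, transpose_apply]; norm_num)
  · by_cases h1 : (0 : Fin 3) ∈ S <;> by_cases h2 : (2 : Fin 3) ∈ S
    · rw [uv_of hD hi ![-1, 1, 1/2]]
      · first | (simp [Matrix.cons_val]; done) | (simp [Matrix.cons_val]; norm_num)
      · simp
      · intro x hx hxi; fin_cases x <;> simp_all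
      · intro k hk
        fin_cases k <;> first | exact absurd hk hi | exact absurd hk h1 | exact absurd hk h2 | (simp [D3, vecMul, dotProduct, Fin.sum_univ_three, transpose_apply]; done) | (simp [D3, vecMul, dotProduct, Fin.sum_univ_three, transpose_apply]; norm_num)
    · rw [uv_of hD hi ![-1/2, 1, 0]]
      · first | (simp [Matrix.cons_val]; done) | (simp [Matrix.cons_val]; norm_num)
      · simp
      · intro x hx hxi; fin_cases x <;> simp_all
      · intro k hk
        fin_cases k <;> first | exact absurd hk hi | exact absurd hk h1 | exact absurd hk h2 | (simp [D3, vecMul, dotProduct, Fin.sum_univ_three, transpose_apply]; done) | (simp [D3, vecMul, dotProduct, Fin.sum_univ_three, transpose_apply]; norm_num)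
    · rw [uv_of hD hi ![0, 1, -1/4]]
      · first | (simp [Matrix.cons_val]; done) | (simp [Matrix.cons_val]; norm_num)
      · simp
      · intro x hx hxi; fin_cases x <;> simp_all
      · intro k hk
        fin_cases k <;> first | exact absurd hk hi | exact absurd hk h1 | exact absurd hk h2 | (simp [D3, vecMul, dotProduct, Fin.sum_univ_three, transpose_apply]; done) | (simp [D3, vecMul, dotProduct, Fin.sum_univ_three, transpose_apply]; norm_num)
    · rw [uv_of hD hi ![0, 1, 0]]
      · first | (simp [Matrix.cons_val]; done) | (simp [Matrix.cons_val]; norm_num)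
      · simp
      · intro x hx hxi; fin_cases x <;> simp_all
      · intro k hk
        fin_cases k <;> first | exact absurd hk hi | exact absurd hk h1 | exact absurd hk h2 | (simp [D3, vecMul, dotProduct, Fin.sum_univ_three, transpose_apply]; done) | (simp [D3, vecMul, dotProduct, Fin.sum_univ_three, transpose_apply]; norm_num)
  · by_cases h1 : (0 : Fin 3) ∈ S <;> by_cases h2 : (1 : Fin 3) ∈ S
    · rw [uv_of hD hi ![-7/5, 4/5, 1]]
      · first | (simp [Matrix.cons_val]; done) | (simp [Matrix.cons_val]; norm_num)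
      · simp
      · intro x hx hxi; fin_cases x <;> simp_all
      · intro k hk
        fin_cases k <;> first | exact absurd hk hi | exact absurd hk h1 | exact absurd hk h2 | (simp [D3, vecMul, dotProduct, Fin.sum_univ_three, transpose_apply]; done) | (simp [D3, vecMul, dotProduct, Fin.sum_univ_three, transpose_apply]; norm_num)
    · rw [uv_of hD hi ![-1, 0, 1]]
      · first | (simp [Matrix.cons_val]; done) | (simp [Matrix.cons_val]; norm_num)
      · simp
      · intro x hx hxi; fin_cases x <;> simp_all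
      · intro k hk
        fin_cases k <;> first | exact absurd hk hi | exact absurd hk h1 | exact absurd hk h2 | (simp [D3, vecMul, dotProduct, Fin.sum_univ_three, transpose_apply]; done) | (simp [D3, vecMul, dotProduct, Fin.sum_univ_three, transpose_apply]; norm_num)
    · rw [uv_of hD hi ![0, -1/4, 1]]
      · first | (simp [Matrix.cons_val]; done) | (simp [Matrix.cons_val]; norm_num)
      · simp
      · intro x hx hxi; fin_cases x <;> simp_all
      · intro k hk
        fin_cases k <;> first | exact absurd hk hi | exact absurd hk h1 | exact absurd hk h2 | (simp [D3, vecMul, dotProduct, Fin.sum_univ_three, transpose_apply]; done) | (simp [D3, vecMul, dotProduct, Fin.sum_univ_three, transpose_apply]; norm_num)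
    · rw [uv_of hD hi ![0, 0, 1]]
      · first | (simp [Matrix.cons_val]; done) | (simp [Matrix.cons_val]; norm_num)
      · simp
      · intro x hx hxi; fin_cases x <;> simp_all
      · intro k hk
        fin_cases k <;> first | exact absurd hk hi | exact absurd hk h1 | exact absurd hk h2 | (simp [D3, vecMul, dotProduct, Fin.sum_univ_three, transpose_apply]; done) | (simp [D3, vecMul, dotProduct, Fin.sum_univ_three, transpose_apply]; norm_num)

theorem pos_D3 (S : Finset (Fin 3)) (i : Fin 3) (hi : i ∉ S) :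
    0 < (uv D3 S i ⬝ᵥ p3) * (vv D3 S i ⬝ᵥ p3) := by
  have h := mul_pos (sgn_D3 S i hi) (sgn_D3' S i hi)
  have h1 : (if i = 0 then (-1 : ℝ) else 1) * (if i = 0 then (-1 : ℝ) else 1) = 1 := by
    split_ifs <;> norm_num
  calc (0 : ℝ) < _ := h
    _ = (uv D3 S i ⬝ᵥ p3) * (vv D3 S i ⬝ᵥ p3) * ((if i = 0 then (-1 : ℝ) else 1) * (if i = 0 then (-1 : ℝ) else 1)) := by ring
    _ = _ := by rw [h1, mul_one]

/-! ### diagonal similarity -/

theorem pm_sim {m : ℕ} {d : Fin m → ℂ} (hd : ∀ i, d i ≠ 0) (M : Matrix (Fin m) (Fin m) ℂ)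
    (S : Finset (Fin m)) : pm (Matrix.of fun i j => d i * M i j * (d j)⁻¹) S = pm M S := by
  unfold pm
  have h : (Matrix.of fun i j => d i * M i j * (d j)⁻¹).submatrix (Subtype.val : S → Fin m)
      (Subtype.val : S → Fin m) = Matrix.diagonal (fun x : S => d x) *
        M.submatrix (Subtype.val : S → Fin m) (Subtype.val : S → Fin m) *
        Matrix.diagonal (fun x : S => (d x)⁻¹) := by
    ext x y
    rw [Matrix.mul_diagonal, Matrix.diagonal_mul]
    rfl
  rw [h, det_mul, det_mul, det_diagonal, det_diagonal]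
  have h1 : (∏ x : S, d x) * ∏ x : S, (d x)⁻¹ = 1 := by
    rw [← Finset.prod_mul_distrib]
    exact Finset.prod_eq_one fun x _ => mul_inv_cancel₀ (hd x)
  calc _ = ((∏ x : S, d x) * ∏ x : S, (d x)⁻¹) *
        (M.submatrix (Subtype.val : S → Fin m) (Subtype.val : S → Fin m)).det := by ring
    _ = _ := by rw [h1, one_mul]

theorem clo_sim {m : ℕ} {d : Fin m → ℂ} (hd : ∀ i, d i ≠ 0) {M : Matrix (Fin m) (Fin m) ℂ}
    (h : M ∈ closure {B : Matrix (Fin m) (Fin m) ℂ | IsStrictGKK B}) :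
    (Matrix.of fun i j => d i * M i j * (d j)⁻¹) ∈
      closure {B : Matrix (Fin m) (Fin m) ℂ | IsStrictGKK B} := by
  have hc : Continuous fun M : Matrix (Fin m) (Fin m) ℂ => (Matrix.of fun i j => d i * M i j * (d j)⁻¹) := by
    refine continuous_matrix fun i j => ?_
    exact (continuous_const.mul (continuous_id.matrix_elem i j)).mul continuous_const
  refine map_mem_closure (f := fun M : Matrix (Fin m) (Fin m) ℂ => (Matrix.of fun i j => d i * M i j * (d j)⁻¹))
    (t := {B | IsStrictGKK B}) hc h fun B hB => ?_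
  simp only [Set.mem_ofPred_eq, isStrictGKK_iff, ap, pm_sim hd] at hB ⊢
  exact hB

/-! ### the direction -/

/-- the direction -/
noncomputable def pX (n : ℕ) : Mat n := Matrix.of fun x y =>
  if (x : ℕ) < 3 ∧ 4 ≤ (y : ℕ) then ez n p3 x else if 4 ≤ (x : ℕ) ∧ (y : ℕ) < 3 then ez n p3 y
  else if 3 ≤ (x : ℕ) ∧ 3 ≤ (y : ℕ) ∧ x ≠ y then 1 else 0

theorem pX_transpose : (pX n)ᵀ = pX n := by
  ext x y
  simp only [pX, of_apply, transpose_apply]
  by_cases h1 : (x : ℕ) < 3 ∧ 4 ≤ (y : ℕ)
  · have h2 : ¬ ((y : ℕ) < 3 ∧ 4 ≤ (x : ℕ)) := by omega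
    rw [if_neg h2, if_pos h1.symm, if_pos h1]
  · by_cases h2 : 4 ≤ (x : ℕ) ∧ (y : ℕ) < 3
    · rw [if_pos h2.symm, if_neg h1, if_pos h2]
    · rw [if_neg fun h => h2 h.symm, if_neg fun h => h1 h.symm, if_neg h1, if_neg h2]
      congr 1
      simp only [ne_eq, eq_comm, eq_iff_iff]
      tauto

theorem pX_cast (h3 : 3 ≤ n) (i : Fin 3) {k : Fin n} (hk : 4 ≤ (k : ℕ)) :
    pX n (Fin.castLE h3 i) k = p3 i := by
  have h1 : ((Fin.castLE h3 i : Fin n) : ℕ) < 3 ∧ 4 ≤ (k : ℕ) := ⟨by simp, hk⟩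
  simp only [pX, of_apply]
  rw [if_pos h1, ez_cast]

theorem pX_ge {k l : Fin n} (hk : 3 ≤ (k : ℕ)) (hl : 3 ≤ (l : ℕ)) (hkl : k ≠ l) : pX n k l = 1 := by
  simp only [pX, of_apply]
  rw [if_neg (by omega), if_neg (by omega), if_pos ⟨hk, hl, hkl⟩]

theorem dot_pX (h3 : 3 ≤ n) (u : Fin 3 → ℝ) {k : Fin n} (hk : 4 ≤ (k : ℕ)) :
    (ez n u ᵥ* pX n) k = u ⬝ᵥ p3 := by
  change ∑ x, ez n u x * pX n x k = _
  rw [ez_dot h3]
  simp only [pX_cast h3 _ hk]
  rfl

theorem dl_cast (h3 : 3 ≤ n) {D : Mat 3} (hD : RP D) {K : Finset (Fin n)} {i : Fin 3}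
    (hi : Fin.castLE h3 i ∉ K) {k : Fin n} (hk : 4 ≤ (k : ℕ)) (hkK : k ∉ K) :
    dl (bd n D) (pX n) K (Fin.castLE h3 i) k = uv D (res h3 K) i ⬝ᵥ p3 := by
  unfold dl
  rw [vv, bd_transpose, uv_bd_ge h3 hD.transpose hkK (by omega), uv_bd h3 hD hi,
    Matrix.dotProduct_mulVec, dotProduct_single_one, dot_pX h3 _ hk]

theorem dl_cast' (h3 : 3 ≤ n) {D : Mat 3} (hD : RP D) {K : Finset (Fin n)} {i : Fin 3}
    (hi : Fin.castLE h3 i ∉ K) {k : Fin n} (hk : 4 ≤ (k : ℕ)) (hkK : k ∉ K) :
    dl (bd n D) (pX n) K k (Fin.castLE h3 i) = vv D (res h3 K) i ⬝ᵥ p3 := by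
  have h := dl_cast h3 hD.transpose hi hk hkK
  rw [← bd_transpose, ← pX_transpose, dl_transpose] at h
  exact h

theorem dl_ge (h3 : 3 ≤ n) {D : Mat 3} (hD : RP D) {K : Finset (Fin n)} {k l : Fin n}
    (hk : 3 ≤ (k : ℕ)) (hl : 3 ≤ (l : ℕ)) (hkK : k ∉ K) (hlK : l ∉ K) (hkl : k ≠ l) :
    dl (bd n D) (pX n) K k l = 1 := by
  unfold dl
  rw [vv, bd_transpose, uv_bd_ge h3 hD.transpose hlK hl, uv_bd_ge h3 hD hkK hk,
    Matrix.dotProduct_mulVec, dotProduct_single_one, Matrix.single_one_vecMul]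
  exact pX_ge hk hl hkl

/-! ### one triple -/

/-- the indices at least four in `K` -/
def up (K : Finset (Fin n)) : Finset (Fin n) := K.filter fun x : Fin n => 4 ≤ (x : ℕ)

theorem mem_up {K : Finset (Fin n)} {x : Fin n} : x ∈ up K ↔ x ∈ K ∧ 4 ≤ (x : ℕ) := by
  simp [up]


theorem pert_zero {A X : Mat n} (hA : RP A) {K : Finset (Fin n)} {i j : Fin n} (hv : Val K i j)
    (h0 : scr A K i j = 0) (h0' : scr A K j i = 0) (h : 0 < dl A X K i j * dl A X K j i) :
    ∀ᶠ t : ℝ in 𝓝[>] 0, 0 < scr (A + t • X) K i j * scr (A + t • X) K j i := by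
  have hl := tendsto_line A X
  have hRP : ∀ᶠ t : ℝ in 𝓝[>] 0, RP (A + t • X) := hl.eventually (eventually_RP hA)
  have hpos : ∀ᶠ t : ℝ in 𝓝[>] 0, (0 : ℝ) < t := self_mem_nhdsWithin
  have hq : ∀ i j, Tendsto (fun t : ℝ => uv (A + t • X) K i ⬝ᵥ (X *ᵥ vv A K j))
      (𝓝[>] 0) (𝓝 (dl A X K i j)) := by
    intro i j
    have h3 : Tendsto (fun t : ℝ => uv (A + t • X) K i) (𝓝[>] 0) (𝓝 (uv A K i)) :=
      (continuousAt_uv hA K i).tendsto.comp hl
    unfold dl dotProduct
    exact tendsto_finsetSum _ fun x _ => (tendsto_pi_nhds.mp h3 x).mul tendsto_const_nhds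
  have hz : ∀ i j, Val K i j → scr A K i j = 0 → ∀ t : ℝ, RP (A + t • X) →
      scr (A + t • X) K i j = t * (uv (A + t • X) K i ⬝ᵥ (X *ᵥ vv A K j)) := by
    intro i j hv h0 t ht
    have h4 := scr_sub hA ht hv.1 hv.2.1
    rw [h0, sub_zero, add_sub_cancel_left, Matrix.smul_mulVec, dotProduct_smul, smul_eq_mul] at h4
    exact h4
  have h5 := (hq i j).mul (hq j i)
  filter_upwards [h5.eventually (lt_mem_nhds h), hRP, hpos] with t h6 h7 h8
  rw [hz i j hv h0 t h7, hz j i hv.symm h0' t h7]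
  have : 0 < t * t * ((uv (A + t • X) K i ⬝ᵥ (X *ᵥ vv A K j)) *
      (uv (A + t • X) K j ⬝ᵥ (X *ᵥ vv A K i))) := mul_pos (mul_pos h8 h8) h6
  calc 0 < _ := this
    _ = _ := by ring

theorem pert_ne {A : Mat n} (hA : RP A) {ι : Type*} {l : Filter ι} {f : ι → Mat n}
    (hf : Tendsto f l (𝓝 A)) {K : Finset (Fin n)} {i j : Fin n}
    (h : 0 < scr A K i j * scr A K j i) : ∀ᶠ t in l, 0 < scr (f t) K i j * scr (f t) K j i := by
  have h4 : ContinuousAt (fun B : Mat n => scr B K i j * scr B K j i) A :=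
    (continuousAt_scr hA K i j).mul (continuousAt_scr hA K j i)
  exact (h4.tendsto.comp hf).eventually (lt_mem_nhds h)

/-- the second order term of the pairs `(i, o)` -/
theorem scr_o (h3 : 3 ≤ n) (D : Mat 3) {K : Finset (Fin n)} {i : Fin 3}
    (hi : Fin.castLE h3 i ∉ K) {o : Fin n} (ho : (o : ℕ) = 3) (hoK : o ∉ K) {t : ℝ}
    (ht : RP (bd n D + t • pX n)) :
    scr (bd n D + t • pX n) K (Fin.castLE h3 i) o = -(t ^ 2) *
      ∑ x ∈ up K, (uv (bd n D + t • pX n) K (Fin.castLE h3 i) ᵥ* pX n) x := by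
  set B := bd n D + t • pX n with hB
  set u := uv B K (Fin.castLE h3 i) with hu
  have hio : (Fin.castLE h3 i : Fin n) ≠ o := by
    intro hh
    have := congrArg Fin.val hh
    simp at this
    omega
  have huo : u o = 0 := uv_off B hoK hio.symm
  rw [← uv_mul ht hi]
  change ∑ x, u x * B x o = _
  have h1 : ∀ x ∈ up K, u x = -t * (u ᵥ* pX n) x := by
    intro x hx
    obtain ⟨hxK, hx4⟩ := mem_up.mp hx
    have h2 := uv_mul_mem ht hi hxK
    rw [← hu, hB, Matrix.vecMul_add, Pi.add_apply, Matrix.vecMul_smul, Pi.smul_apply, smul_eq_mul] at h2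
    have h4 : (u ᵥ* bd n D) x = u x := by
      change ∑ y, u y * bd n D y x = u x
      simp only [bd_right D _ x (show 3 ≤ (x : ℕ) by omega), mul_ite, mul_one, mul_zero,
        Finset.sum_ite_eq', mem_univ, if_true]
    rw [h4] at h2
    linarith
  have h5 : ∀ x, u x * B x o = if x ∈ up K then t * u x else 0 := by
    intro x
    by_cases hxo : x = o
    · subst hxo
      rw [huo, zero_mul, mul_zero, ite_self]
    · by_cases hx3 : (x : ℕ) < 3
      · have h6 : B x o = 0 := by
          rw [hB, Matrix.add_apply, Matrix.smul_apply, bd_right D _ _ (by omega), if_neg hxo]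
          simp only [pX, of_apply]
          rw [if_neg (by omega), if_neg (by omega), if_neg (by omega)]
          simp
        rw [h6, mul_zero, if_neg]
        intro hh
        have := (mem_up.mp hh).2
        omega
      · have h6 : B x o = t := by
          rw [hB, Matrix.add_apply, Matrix.smul_apply, bd_right D _ _ (by omega), if_neg hxo,
            pX_ge (by omega) (by omega) hxo]
          simp
        rw [h6]
        by_cases hxK : x ∈ K
        · have hx4 : 4 ≤ (x : ℕ) := by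
            have : (x : ℕ) ≠ (o : ℕ) := fun hh => hxo (Fin.ext hh)
            omega
          rw [if_pos (mem_up.mpr ⟨hxK, hx4⟩), mul_comm]
        · have h7 : u x = 0 := by
            refine uv_off B hxK ?_
            rintro rfl
            simp at hx3
          rw [h7, zero_mul, mul_zero, ite_self]
  rw [Finset.sum_congr rfl fun x _ => h5 x, Finset.sum_ite_mem, univ_inter, Finset.mul_sum]
  refine Finset.sum_congr rfl fun x hx => ?_
  rw [h1 x hx]
  ring

theorem tendsto_o (h3 : 3 ≤ n) {D : Mat 3} (hD : RP D) {K : Finset (Fin n)} {i : Fin 3}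
    (hi : Fin.castLE h3 i ∉ K) :
    Tendsto (fun t : ℝ => ∑ x ∈ up K,
      (uv (bd n D + t • pX n) K (Fin.castLE h3 i) ᵥ* pX n) x) (𝓝[>] 0)
      (𝓝 ((up K).card * (uv D (res h3 K) i ⬝ᵥ p3))) := by
  have h4 : Tendsto (fun t : ℝ => uv (bd n D + t • pX n) K (Fin.castLE h3 i)) (𝓝[>] 0)
      (𝓝 (uv (bd n D) K (Fin.castLE h3 i))) :=
    (continuousAt_uv (RP_bd h3 hD) K _).tendsto.comp (tendsto_line _ _)
  have h5 : ((up K).card : ℝ) * (uv D (res h3 K) i ⬝ᵥ p3)
      = ∑ x ∈ up K, (uv (bd n D) K (Fin.castLE h3 i) ᵥ* pX n) x := by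
    rw [uv_bd h3 hD hi, Finset.sum_congr rfl fun x hx => dot_pX h3 _ (mem_up.mp hx).2,
      Finset.sum_const, nsmul_eq_mul]
  rw [h5]
  refine tendsto_finsetSum _ fun x _ => ?_
  unfold vecMul dotProduct
  exact tendsto_finsetSum _ fun y _ => (tendsto_pi_nhds.mp h4 y).mul tendsto_const_nhds

theorem pert_o (h3 : 3 ≤ n) {K : Finset (Fin n)} {i : Fin 3} (hi : Fin.castLE h3 i ∉ K) {o : Fin n}
    (ho : (o : ℕ) = 3) (hoK : o ∉ K) (hK : ∃ x ∈ K, 4 ≤ (x : ℕ)) :
    ∀ᶠ t : ℝ in 𝓝[>] 0, 0 < scr (bd n D3 + t • pX n) K (Fin.castLE h3 i) o *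
      scr (bd n D3 + t • pX n) K o (Fin.castLE h3 i) := by
  have hD := RS_D3.1
  have hl := tendsto_line (bd n D3) (pX n)
  have hRP : ∀ᶠ t : ℝ in 𝓝[>] 0, RP (bd n D3 + t • pX n) := hl.eventually (eventually_RP (RP_bd h3 hD))
  have hpos : ∀ᶠ t : ℝ in 𝓝[>] 0, (0 : ℝ) < t := self_mem_nhdsWithin
  have hi' : i ∉ res h3 K := fun hh => hi (mem_res.mp hh)
  have hcard : (0 : ℝ) < ((up K).card : ℝ) := by
    obtain ⟨x, hx, hx4⟩ := hK
    exact_mod_cast Finset.card_pos.mpr ⟨x, mem_up.mpr ⟨hx, hx4⟩⟩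
  have h5 := (tendsto_o h3 hD hi).mul (tendsto_o h3 hD.transpose hi)
  have h6 : 0 < ((up K).card : ℝ) * (uv D3 (res h3 K) i ⬝ᵥ p3) *
      (((up K).card : ℝ) * (uv D3ᵀ (res h3 K) i ⬝ᵥ p3)) := by
    have := mul_pos (mul_pos hcard hcard) (pos_D3 (res h3 K) i hi')
    unfold vv at this
    calc 0 < _ := this
      _ = _ := by ring
  filter_upwards [h5.eventually (lt_mem_nhds h6), hRP, hpos] with t h7 h8 h9
  have h10 := scr_o h3 D3 hi ho hoK h8
  have h11 : (bd n D3 + t • pX n)ᵀ = bd n D3ᵀ + t • pX n := by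
    rw [transpose_add, transpose_smul, bd_transpose, pX_transpose]
  have h12 := scr_o h3 D3ᵀ hi ho hoK (by rw [← h11]; exact h8.transpose)
  rw [← h11, scr_transpose, h11] at h12
  rw [h10, h12]
  have := mul_pos (pow_pos h9 4) h7
  calc 0 < _ := this
    _ = _ := by ring

theorem step_one (hn : 4 ≤ n) {o : Fin n} (ho : (o : ℕ) = 3) : ∀ᶠ t : ℝ in 𝓝[>] 0,
    RP (bd n D3 + t • pX n) ∧ ∀ K i j, Val K i j →
      ¬ (j = o ∧ (i : ℕ) < 3 ∧ ∀ k ∈ K, (k : ℕ) < 3) → ¬ (i = o ∧ (j : ℕ) < 3 ∧ ∀ k ∈ K, (k : ℕ) < 3) →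
      0 < scr (bd n D3 + t • pX n) K i j * scr (bd n D3 + t • pX n) K j i := by
  have h3 : 3 ≤ n := by omega
  have hD := RS_D3.1
  have hl := tendsto_line (bd n D3) (pX n)
  have hRP : ∀ᶠ t : ℝ in 𝓝[>] 0, RP (bd n D3 + t • pX n) := hl.eventually (eventually_RP (RP_bd h3 hD))
  refine hRP.and ?_
  rw [eventually_all]; intro K
  rw [eventually_all]; intro i
  rw [eventually_all]; intro j
  by_cases hv : Val K i j
  swap
  · exact Eventually.of_forall fun t h => absurd h hv
  -- the case `i < 3`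
  have key : ∀ i : Fin 3, ∀ j : Fin n, Val K (Fin.castLE h3 i) j →
      ¬ (j = o ∧ ((Fin.castLE h3 i : Fin n) : ℕ) < 3 ∧ ∀ k ∈ K, (k : ℕ) < 3) → ∀ᶠ t : ℝ in 𝓝[>] 0,
      0 < scr (bd n D3 + t • pX n) K (Fin.castLE h3 i) j *
        scr (bd n D3 + t • pX n) K j (Fin.castLE h3 i) := by
    intro i j hv he
    rcases Nat.lt_or_ge (j : ℕ) 3 with h | h
    · obtain ⟨j, rfl⟩ : ∃ x' : Fin 3, Fin.castLE h3 x' = j := ⟨⟨j, h⟩, rfl⟩
      refine pert_ne (RP_bd h3 hD) hl ?_
      rw [scr_bd h3 hD hv.1, scr_bd h3 hD hv.2.1]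
      exact RS_D3.2 _ _ _ ⟨fun hh => hv.1 (mem_res.mp hh), fun hh => hv.2.1 (mem_res.mp hh),
        fun hh => hv.2.2 (by rw [hh])⟩
    · rcases Nat.lt_or_ge (j : ℕ) 4 with h' | h'
      · have hj3 : (j : ℕ) = 3 := by omega
        have hjo : j = o := Fin.ext (by omega)
        refine pert_o h3 hv.1 hj3 hv.2.1 ?_
        by_contra hne
        push Not at hne
        refine he ⟨hjo, by simp, fun k hk => ?_⟩
        have h1 := hne k hk
        have h2 : (k : ℕ) ≠ (j : ℕ) := fun hh => hv.2.1 (by rw [← Fin.ext hh]; exact hk)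
        omega
      · refine pert_zero (RP_bd h3 hD) hv (scr_bd_right h3 hD hv.1 hv.2.2 h)
          (scr_bd_left h3 hD hv.1 hv.2.2 h) ?_
        rw [dl_cast h3 hD hv.1 h' hv.2.1, dl_cast' h3 hD hv.1 h' hv.2.1]
        exact pos_D3 _ _ fun hh => hv.1 (mem_res.mp hh)
  rcases Nat.lt_or_ge (i : ℕ) 3 with h | h
  · obtain ⟨i, rfl⟩ : ∃ x' : Fin 3, Fin.castLE h3 x' = i := ⟨⟨i, h⟩, rfl⟩
    by_cases he : (j = o ∧ ((Fin.castLE h3 i : Fin n) : ℕ) < 3 ∧ ∀ k ∈ K, (k : ℕ) < 3)
    · exact Eventually.of_forall fun t _ h => absurd he h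
    · filter_upwards [key i j hv he] with t ht _ _ _ using ht
  · rcases Nat.lt_or_ge (j : ℕ) 3 with h' | h'
    · obtain ⟨j, rfl⟩ : ∃ x' : Fin 3, Fin.castLE h3 x' = j := ⟨⟨j, h'⟩, rfl⟩
      by_cases he : (i = o ∧ ((Fin.castLE h3 j : Fin n) : ℕ) < 3 ∧ ∀ k ∈ K, (k : ℕ) < 3)
      · exact Eventually.of_forall fun t _ _ h => absurd he h
      · filter_upwards [key j i hv.symm he] with t ht _ _ _
        rw [mul_comm]; exact ht
    · filter_upwards [pert_zero (X := pX n) (RP_bd h3 hD) hv (scr_bd_right h3 hD hv.1 hv.2.2 h')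
          (scr_bd_left h3 hD hv.1 hv.2.2 h') (by
            rw [dl_ge h3 hD h h' hv.1 hv.2.1 hv.2.2, dl_ge h3 hD h' h hv.2.1 hv.1 hv.2.2.symm]
            norm_num)] with t ht _ _ _ using ht

/-! ### the last row -/

/-- the last row -/
noncomputable def pY (n : ℕ) : Mat n := Matrix.of fun x y =>
  if (x : ℕ) = 3 then ez n ![4, 5, -1] y else 0

theorem exists_example {n : ℕ} (hn : 4 ≤ n) : ∃ (A : Mat n) (o : Fin n) (I : Finset (Fin n)),
    o ∉ I ∧ I.card = 3 ∧ RP A ∧ (∀ i ∈ I, A i o = 0) ∧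
    (∀ K i j, Val K i j → ¬ (j = o ∧ i ∈ I ∧ K ⊆ I) → ¬ (i = o ∧ j ∈ I ∧ K ⊆ I) →
      0 < scr A K i j * scr A K j i) ∧
    cx A ∉ closure {B : Matrix (Fin n) (Fin n) ℂ | IsStrictGKK B} := by
  have h3 : 3 ≤ n := by omega
  set o : Fin n := ⟨3, by omega⟩ with ho
  have ho' : (o : ℕ) = 3 := rfl
  obtain ⟨t, ht1, ht2⟩ := (step_one hn ho').exists
  set B := bd n D3 + t • pX n with hB
  have hl := tendsto_line B (pY n)
  have hRP : ∀ᶠ δ : ℝ in 𝓝[>] 0, RP (B + δ • pY n) := hl.eventually (eventually_RP ht1)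
  have hpos : ∀ᶠ δ : ℝ in 𝓝[>] 0, (0 : ℝ) < δ := self_mem_nhdsWithin
  have hall : ∀ᶠ δ : ℝ in 𝓝[>] 0, ∀ K i j, Val K i j →
      ¬ (j = o ∧ (i : ℕ) < 3 ∧ ∀ k ∈ K, (k : ℕ) < 3) → ¬ (i = o ∧ (j : ℕ) < 3 ∧ ∀ k ∈ K, (k : ℕ) < 3) →
      0 < scr (B + δ • pY n) K i j * scr (B + δ • pY n) K j i := by
    rw [eventually_all]; intro K
    rw [eventually_all]; intro i
    rw [eventually_all]; intro j
    by_cases hv : Val K i j ∧ ¬ (j = o ∧ (i : ℕ) < 3 ∧ ∀ k ∈ K, (k : ℕ) < 3) ∧
      ¬ (i = o ∧ (j : ℕ) < 3 ∧ ∀ k ∈ K, (k : ℕ) < 3)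
    · filter_upwards [pert_ne ht1 hl (ht2 K i j hv.1 hv.2.1 hv.2.2)] with δ hδ _ _ _ using hδ
    · exact Eventually.of_forall fun δ g1 g2 g3 => absurd ⟨g1, g2, g3⟩ hv
  obtain ⟨δ, hδ1, hδ2, hδ3⟩ := (hRP.and (hpos.and hall)).exists
  set I : Finset (Fin n) := univ.image (Fin.castLE h3) with hI
  have hmem : ∀ x : Fin n, x ∈ I ↔ (x : ℕ) < 3 := by
    intro x
    rw [hI, mem_image]
    constructor
    · rintro ⟨y, _, rfl⟩
      simp
    · intro hx
      exact ⟨⟨x, hx⟩, mem_univ _, rfl⟩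
  have hsub : ∀ K : Finset (Fin n), K ⊆ I ↔ ∀ k ∈ K, (k : ℕ) < 3 := by
    intro K
    exact ⟨fun h k hk => (hmem k).mp (h hk), fun h k hk => (hmem k).mpr (h k hk)⟩
  refine ⟨B + δ • pY n, o, I, ?_, ?_, hδ1, ?_, ?_, ?_⟩
  · rw [hmem]; simp [ho]
  · rw [hI, card_image_of_injective _ (Fin.castLE_injective h3)]; simp
  · intro i hi
    have hi3 : (i : ℕ) < 3 := (hmem i).mp hi
    rw [hB, Matrix.add_apply, Matrix.add_apply, Matrix.smul_apply, Matrix.smul_apply,
      bd_right D3 _ _ (by omega), if_neg (fun hh => by rw [hh] at hi3; omega)]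
    simp only [pX, pY, of_apply]
    rw [if_neg (by omega), if_neg (by omega), if_neg (by omega), if_neg (by omega)]
    simp
  · intro K i j hv h1 h2
    rw [hmem, hsub] at h1 h2
    exact hδ3 K i j hv h1 h2
  · intro h
    have h1 := mem_closure_submatrix h (Fin.castLE hn) (Fin.strictMono_castLE hn)
    have hδ0 : (δ : ℂ) ≠ 0 := by exact_mod_cast hδ2.ne'
    have h2 := clo_sim (d := ![1, 1, 1, (δ : ℂ)⁻¹]) (by
      intro i; fin_cases i <;> simp [hδ0]) h1
    refine ex4_not_mem ?_
    convert h2 using 1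
    ext i j
    fin_cases i <;> fin_cases j <;>
      simp [hB, ex4, bd, D3, pX, pY, ez, hδ0]

end Pool.Agent.Helper85.CD
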