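import Mathlib
import Pool.Agent.Helper85.CD.Ex

/-!
Block [L]: the real GKK matrices that are not limits have dimension at least `n^2 - 3`.

PROOF. Take `A`, `o`, `I` of `exists_example`. Every `B` near `A` with `B i o = 0` for `i` in `I` is GKK:
`scr B K i o = 0` for `i` in `I`, `K` in `I` (column `o` vanishes on `I`: `scr_eq`), the other products stay
positive (`eventually_ne`); and `cx B` is not in the closure (closed set, `A` is not in it). These `B`
contain an isometric copy of a ball of `R^(n^2-3)` (functions on the set of pairs different from `(i,o)`,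
extended by `0`): `dimH >= n^2 - 3` (`Real.dimH_ball_pi`, `Isometry.dimH_image`).
-/

namespace Pool.Agent.Helper85.CD

open Matrix Finset Filter Topology Pool.Agent.Helper5.GKK Pool.Agent.Helper21.GK
open scoped ENNReal

private theorem low_scr {n : ℕ} {B : Mat n} {o : Fin n} {I K : Finset (Fin n)} {i : Fin n}
    (hB : RP B) (h0 : ∀ i ∈ I, B i o = 0) (hi : i ∈ I) (hK : K ⊆ I) : scr B K i o = 0 := by
  rw [scr_eq (hB K).ne', h0 i hi, zero_sub, neg_eq_zero]
  refine Finset.sum_eq_zero fun x _ => ?_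
  rw [h0 _ (hK x.2), mul_zero]

/-- extension by zero -/
private noncomputable def lowExt {n : ℕ} (o : Fin n) (I : Finset (Fin n))
    (x : {p : Fin n × Fin n // ¬ (p.2 = o ∧ p.1 ∈ I)} → ℝ) : Fin n → Fin n → ℝ := fun i j =>
  if h : ¬ (j = o ∧ i ∈ I) then x ⟨(i, j), h⟩ else 0

private theorem lowExt_isometry {n : ℕ} (o : Fin n) (I : Finset (Fin n)) :
    Isometry (lowExt o I) := by
  refine Isometry.of_dist_eq fun x y => le_antisymm ?_ ?_
  · refine (dist_pi_le_iff dist_nonneg).2 fun i => (dist_pi_le_iff dist_nonneg).2 fun j => ?_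
    by_cases h : ¬ (j = o ∧ i ∈ I)
    · simp only [lowExt, h, not_false_eq_true, dif_pos]
      exact dist_le_pi_dist x y ⟨(i, j), h⟩
    · simp only [lowExt, h, dif_neg, not_false_eq_true, dist_self]
      exact dist_nonneg
  · refine (dist_pi_le_iff dist_nonneg).2 fun p => ?_
    have h1 : dist (lowExt o I x p.1.1 p.1.2) (lowExt o I y p.1.1 p.1.2) ≤
        dist (lowExt o I x) (lowExt o I y) :=
      (dist_le_pi_dist (lowExt o I x p.1.1) (lowExt o I y p.1.1) p.1.2).trans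
        (dist_le_pi_dist (lowExt o I x) (lowExt o I y) p.1.1)
    have h2 : ∀ z, lowExt o I z p.1.1 p.1.2 = z p := fun z => by
      unfold lowExt
      rw [dif_pos p.2]
    rwa [h2, h2] at h1

private theorem low_card {n : ℕ} (o : Fin n) (I : Finset (Fin n)) (hI : I.card = 3) :
    Fintype.card {p : Fin n × Fin n // ¬ (p.2 = o ∧ p.1 ∈ I)} = n ^ 2 - 3 := by
  rw [Fintype.card_subtype_compl, Fintype.card_prod, Fintype.card_fin, sq]
  congr 1
  rw [Fintype.card_subtype]
  have : (Finset.univ.filter fun p : Fin n × Fin n => p.2 = o ∧ p.1 ∈ I) = I ×ˢ {o} := by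
    ext p
    rw [Finset.mem_filter, Finset.mem_product, Finset.mem_singleton]
    constructor
    · rintro ⟨-, h1, h2⟩
      exact ⟨h2, h1⟩
    · rintro ⟨h1, h2⟩
      exact ⟨Finset.mem_univ _, h2, h1⟩
  rw [this, Finset.card_product, hI, Finset.card_singleton]

theorem le_dimH {n : ℕ} (hn : 4 ≤ n) : ((n ^ 2 - 3 : ℕ) : ℝ≥0∞) ≤
    dimH {B : Fin n → Fin n → ℝ | RGKK (Matrix.of B) ∧
      cx (Matrix.of B) ∉ closure {B : Matrix (Fin n) (Fin n) ℂ | IsStrictGKK B}} := by
  obtain ⟨A, o, I, ho, hI, hRP, h0, hpos, hcl⟩ := exists_example hn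
  have hex : ∀ B : Mat n, RP B → (∀ i ∈ I, B i o = 0) → (∀ K i j, Val K i j →
      ¬ (j = o ∧ i ∈ I ∧ K ⊆ I) → ¬ (i = o ∧ j ∈ I ∧ K ⊆ I) →
      0 < scr B K i j * scr B K j i) → RGKK B := by
    intro B hB h1 h2
    refine ⟨hB, fun K i j hv => ?_⟩
    by_cases h3 : j = o ∧ i ∈ I ∧ K ⊆ I
    · obtain ⟨rfl, hi, hK⟩ := h3
      rw [low_scr hB h1 hi hK, zero_mul]
    by_cases h4 : i = o ∧ j ∈ I ∧ K ⊆ I
    · obtain ⟨rfl, hj, hK⟩ := h4
      rw [low_scr hB h1 hj hK, mul_zero]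
    exact (h2 K i j hv h3 h4).le
  have hA : RGKK A := hex A hRP h0 hpos
  obtain ⟨x0, hx0⟩ : ∃ x0 : {p : Fin n × Fin n // ¬ (p.2 = o ∧ p.1 ∈ I)} → ℝ,
      Matrix.of (lowExt o I x0) = A := by
    refine ⟨fun p => A p.1.1 p.1.2, ?_⟩
    ext i j
    by_cases h : ¬ (j = o ∧ i ∈ I)
    · simp only [Matrix.of_apply, lowExt, h, not_false_eq_true, dif_pos]
    · simp only [Matrix.of_apply, lowExt, h, dif_neg, not_false_eq_true]
      rw [not_not] at h
      rw [h.1, h0 i h.2]
  have hcont : Tendsto (fun x => Matrix.of (lowExt o I x)) (𝓝 x0) (𝓝 A) := by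
    rw [← hx0]
    exact (lowExt_isometry o I).continuous.tendsto x0
  have hz : ∀ x, ∀ i ∈ I, (Matrix.of (lowExt o I x) : Mat n) i o = 0 := by
    intro x i hi
    simp only [Matrix.of_apply, lowExt, hi, and_self, not_true_eq_false, dif_neg, not_false_eq_true]
  have key : ∀ (K : Finset (Fin n)) (i j : Fin n), ∀ᶠ x in 𝓝 x0, Val K i j →
      ¬ (j = o ∧ i ∈ I ∧ K ⊆ I) → ¬ (i = o ∧ j ∈ I ∧ K ⊆ I) →
      0 < scr (Matrix.of (lowExt o I x)) K i j * scr (Matrix.of (lowExt o I x)) K j i := by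
    intro K i j
    by_cases hv : Val K i j
    swap
    · exact Eventually.of_forall fun t h => absurd h hv
    by_cases h3 : j = o ∧ i ∈ I ∧ K ⊆ I
    · exact Eventually.of_forall fun t _ h => absurd h3 h
    by_cases h4 : i = o ∧ j ∈ I ∧ K ⊆ I
    · exact Eventually.of_forall fun t _ _ h => absurd h4 h
    have h5 := hpos K i j hv h3 h4
    have h6 : scr A K i j ≠ 0 := fun h => by rw [h, zero_mul] at h5; exact lt_irrefl _ h5
    have h7 : scr A K j i ≠ 0 := fun h => by rw [h, mul_zero] at h5; exact lt_irrefl _ h5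
    filter_upwards [eventually_ne hA hcont hv h6 h7] with x hx _ _ _ using hx
  have hall : ∀ᶠ x in 𝓝 x0, ∀ (K : Finset (Fin n)) (i j : Fin n), Val K i j →
      ¬ (j = o ∧ i ∈ I ∧ K ⊆ I) → ¬ (i = o ∧ j ∈ I ∧ K ⊆ I) →
      0 < scr (Matrix.of (lowExt o I x)) K i j * scr (Matrix.of (lowExt o I x)) K j i :=
    eventually_all.mpr fun K => eventually_all.mpr fun i => eventually_all.mpr fun j => key K i j
  have hout : ∀ᶠ x in 𝓝 x0, cx (Matrix.of (lowExt o I x)) ∉
      closure {B : Matrix (Fin n) (Fin n) ℂ | IsStrictGKK B} := by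
    have h1 : Tendsto (fun x => cx (Matrix.of (lowExt o I x))) (𝓝 x0) (𝓝 (cx A)) :=
      (continuous_cx.tendsto A).comp hcont
    exact h1.eventually (isClosed_closure.isOpen_compl.mem_nhds hcl)
  have hev : ∀ᶠ x in 𝓝 x0, lowExt o I x ∈ {B : Fin n → Fin n → ℝ | RGKK (Matrix.of B) ∧
      cx (Matrix.of B) ∉ closure {B : Matrix (Fin n) (Fin n) ℂ | IsStrictGKK B}} := by
    filter_upwards [hall, hout, hcont.eventually (eventually_RP hRP)] with x h1 h2 h3
    exact ⟨hex _ h3 (hz x) h1, h2⟩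
  obtain ⟨r, hr, hball⟩ := Metric.eventually_nhds_iff_ball.1 hev
  calc ((n ^ 2 - 3 : ℕ) : ℝ≥0∞)
      = (Fintype.card {p : Fin n × Fin n // ¬ (p.2 = o ∧ p.1 ∈ I)} : ℝ≥0∞) := by
        rw [low_card o I hI]
    _ = dimH (Metric.ball x0 r) := (Real.dimH_ball_pi x0 hr).symm
    _ = dimH (lowExt o I '' Metric.ball x0 r) := ((lowExt_isometry o I).dimH_image _).symm
    _ ≤ _ := dimH_mono (by rintro _ ⟨x, hx, rfl⟩; exact hball x hx)

end Pool.Agent.Helper85.CD
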