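import Mathlib
import Pool.Agent.Helper85.CD.CaseB
import Pool.Agent.Helper85.CD.CaseC

/-!
The main theorem: `dim W A <= 3` and no exceptional configuration imply that `A` is a limit.
-/

namespace Pool.Agent.Helper85.CD

open Matrix Finset Filter Topology Pool.Agent.Helper5.GKK Pool.Agent.Helper21.GK

variable {n : ℕ}

theorem W_transpose (A : Mat n) : W Aᵀ = (W A).map (Matrix.transposeLinearEquiv (Fin n) (Fin n) ℝ ℝ :
    Mat n →ₗ[ℝ] Mat n) := by
  unfold W
  rw [Submodule.map_span]
  congr 1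
  ext M
  simp only [Set.mem_ofPred_eq, Set.mem_image]
  constructor
  · rintro ⟨K, i, j, hz, rfl⟩
    exact ⟨vecMulVec (uv A K j) (vv A K i), ⟨K, j, i, Z_transpose.mp hz, rfl⟩, by
      ext a b
      simp [vecMulVec_apply, vv, mul_comm]⟩
  · rintro ⟨_, ⟨K, i, j, hz, rfl⟩, rfl⟩
    refine ⟨K, j, i, Z_transpose.mpr hz, ?_⟩
    ext a b
    simp [vecMulVec_apply, vv, mul_comm]

theorem finrank_W_transpose (A : Mat n) : Module.finrank ℝ (W Aᵀ) = Module.finrank ℝ (W A) := by
  rw [W_transpose]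
  exact LinearEquiv.finrank_map_eq _ _

theorem Col3.card_le {A : Mat n} {K : Finset (Fin n)} {o : Fin n} {I : Finset (Fin n)}
    (h : Col3 A K o I) : 3 ≤ Module.finrank ℝ (W A) := by
  obtain ⟨hoK, hoI, hIK, hI3, hzero⟩ := h
  have hne : ∀ i ∈ I, i ≠ o := fun i hi h => hoI (h ▸ hi)
  have hnK : ∀ i ∈ I, i ∉ K := fun i hi => Finset.disjoint_left.mp hIK hi
  have hli : LinearIndependent ℝ (fun i : I => vecMulVec (uv A K i) (vv A K o)) := by
    rw [Fintype.linearIndependent_iff]
    intro g hg a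
    have h1 := congrFun (congrFun hg a) o
    rw [Matrix.sum_apply] at h1
    rw [Finset.sum_eq_single a] at h1
    · simpa [vecMulVec_apply, uv_self, vv_self] using h1
    · intro b _ hb
      have hab : (a : Fin n) ≠ b := fun h => hb (Subtype.ext h.symm)
      rw [Matrix.smul_apply, vecMulVec_apply, uv_off A (hnK a a.2) hab]
      simp
    · intro h; exact absurd (mem_univ _) h
  have hr := finrank_span_eq_card hli
  have hle : Submodule.span ℝ (Set.range fun i : I => vecMulVec (uv A K i) (vv A K o)) ≤ W A := by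
    rw [Submodule.span_le]
    rintro _ ⟨a, rfl⟩
    exact mem_W ⟨⟨hnK a a.2, hoK, hne a a.2⟩, hzero a a.2⟩
  have := Submodule.finrank_mono hle
  rw [hr, Fintype.card_coe, hI3] at this
  exact this

theorem main {A : Mat n} (hA : RGKK A) (hd : Module.finrank ℝ (W A) ≤ 3)
    (hc : ∀ K o I, ¬ Col3 A K o I) (hr : ∀ K o I, ¬ Col3 Aᵀ K o I) : A ∈ RL n := by
  by_cases hv : ∀ K i K' i' o, Z A K i o → Z A K' i' o → vv A K o = vv A K' o → K = K' ∧ i = i'
  · by_cases hu : ∀ K j K' j' o, Z A K o j → Z A K' o j' → uv A K o = uv A K' o → K = K' ∧ j = j'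
    · exact caseC hA hd hv hu
    · push Not at hu
      obtain ⟨K, j, K', j', o, h1, h2, h3, h4⟩ := hu
      refine RL_transpose (caseB hA.transpose (by rw [finrank_W_transpose]; exact hd) hr
        (by rw [Matrix.transpose_transpose]; exact hc) (Z_transpose.mpr h1) (Z_transpose.mpr h2) h3 ?_)
      rintro ⟨e1, e2⟩
      exact h4 e1 e2
  · push Not at hv
    obtain ⟨K, i, K', i', o, h1, h2, h3, h4⟩ := hv
    refine caseB hA hd hc hr h1 h2 h3 ?_
    rintro ⟨e1, e2⟩
    exact h4 e1 e2

theorem main_two {A : Mat n} (hA : RGKK A) (hd : Module.finrank ℝ (W A) ≤ 2) : A ∈ RL n := by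
  refine main hA (by omega) (fun K o I h => ?_) (fun K o I h => ?_)
  · have := h.card_le; omega
  · have := h.card_le
    rw [finrank_W_transpose] at this
    omega

end Pool.Agent.Helper85.CD
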