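import Mathlib
import Pool.Agent.Helper85.CD.Cfg
import Pool.Agent.Helper63.NG.Weak
import Pool.Agent.Helper21.GK.Parts

/-!
Block [W1]: in an exceptional configuration with a nonvanishing row, limits satisfy the weak linear
program.

PROOF. Let `e : Fin 4 -> Fin n` enumerate `I` and `o` (`e 3 = o`). The Schur part
`M = schurPart (cx A) K e` is the complex form of a real matrix, lies in the closure of the strict
matrices of order 4 (`continuousAt_schurPart`, `isStrictGKK_schurPart`, `map_mem_closure`), has last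
column `0` off the diagonal and last row without zero entries (`h0` with `T` empty). `exists_weak`
gives `z`; put `y (e i) = z i`, `y = 0` elsewhere. `uv A (K + T) i . y` is the entry `(i,o)` of the Schur
complement of `M.updateCol 3 z` at `T`: both are `y_i - (row i of A/K on T) ((A/K)(T))^{-1} y_T`
(`uv_unique` for the matrix `M`, or `scr_insert`).
-/

namespace Pool.Agent.Helper85.CD

open Matrix Finset Filter Topology Pool.Agent.Helper5.GKK Pool.Agent.Helper21.GK

variable {n : ℕ}

theorem nec_pp (A : Matrix (Fin n) (Fin n) ℂ) {K : Finset (Fin n)} (hK : pm A K ≠ 0) {m : ℕ}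
    {e : Fin m → Fin n} (he : Function.Injective e) (heK : ∀ i, e i ∉ K) (S : Finset (Fin m))
    (i j : Fin m) : (A.submatrix
      (Sum.elim (Subtype.val : ↥(K ∪ S.image e) → Fin n) (fun _ : Unit => e i))
      (Sum.elim (Subtype.val : ↥(K ∪ S.image e) → Fin n) (fun _ : Unit => e j))).det
      = pm A K * ((schurPart A K e).submatrix
      (Sum.elim (Subtype.val : S → Fin m) (fun _ : Unit => i))
      (Sum.elim (Subtype.val : S → Fin m) (fun _ : Unit => j))).det := by
  have hα : Function.Injective (Sum.elim (Subtype.val : K → Fin n) (fun x : S => e x.val)) := by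
    rintro (x | x) (y | y) hxy
    · exact congrArg _ (Subtype.val_injective hxy)
    · exact absurd (by rw [← show x.val = e y.val from hxy]; exact x.2) (heK y.val)
    · exact absurd (by rw [show e x.val = y.val from hxy]; exact y.2) (heK x.val)
    · exact congrArg _ (Subtype.val_injective (he hxy))
  obtain ⟨σ, hσ⟩ := exists_equiv (Sum.elim (Subtype.val : K → Fin n) (fun x : S => e x.val))
    (Subtype.val : ↥(K ∪ S.image e) → Fin n) hα Subtype.val_injective (by
      ext x
      simp only [Set.mem_range, Sum.exists, Sum.elim_inl, Sum.elim_inr, Subtype.exists,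
        exists_prop, exists_eq_right, mem_union, mem_image])
  have h := det_sum A K hK (Sum.elim (fun x : S => e x.val) (fun _ : Unit => e i))
    (Sum.elim (fun x : S => e x.val) (fun _ : Unit => e j))
  have h1 : (Matrix.of fun x y => sc A K
      ((Sum.elim (fun x : S => e x.val) (fun _ : Unit => e i)) x)
      ((Sum.elim (fun x : S => e x.val) (fun _ : Unit => e j)) y)) = (schurPart A K e).submatrix
      (Sum.elim (Subtype.val : S → Fin m) (fun _ : Unit => i))
      (Sum.elim (Subtype.val : S → Fin m) (fun _ : Unit => j)) := by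
    ext (x | x) (y | y) <;> rfl
  rw [h1] at h
  rw [← h]
  set τ : K ⊕ (S ⊕ Unit) ≃ ↥(K ∪ S.image e) ⊕ Unit :=
    (Equiv.sumAssoc K S Unit).symm.trans (Equiv.sumCongr σ (Equiv.refl Unit)) with hτ
  have hv : ∀ x : K ⊕ S, (Sum.elim (Subtype.val : K → Fin n) (fun x : S => e x.val)) x =
      ((σ x : ↥(K ∪ S.image e)) : Fin n) := fun x => congrFun hσ x
  have hrow : ∀ i : Fin m, Sum.elim (Subtype.val : K → Fin n)
      (Sum.elim (fun x : S => e x.val) (fun _ : Unit => e i)) =
      (Sum.elim (Subtype.val : ↥(K ∪ S.image e) → Fin n) (fun _ : Unit => e i)) ∘ τ := by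
    intro i
    funext x
    rcases x with x | x | x
    · exact hv (Sum.inl x)
    · exact hv (Sum.inr x)
    · rfl
  rw [hrow i, hrow j, ← submatrix_submatrix, det_submatrix_equiv_self]

theorem nec_cx_schur {B : Mat n} {K : Finset (Fin n)} (hK : pmr B K ≠ 0) {m : ℕ}
    (e : Fin m → Fin n) :
    schurPart (cx B) K e = cx (Matrix.of fun a b => scr B K (e a) (e b)) := by
  ext a b
  rw [schurPart_apply, sc_cx hK, cx_apply, Matrix.of_apply]

/-- Schur complements in two steps. -/
theorem nec_quot {B : Mat n} {K : Finset (Fin n)} (hK : pmr B K ≠ 0) {m : ℕ}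
    {e : Fin m → Fin n} (he : Function.Injective e) (heK : ∀ i, e i ∉ K) (S : Finset (Fin m))
    (i j : Fin m) :
    pmr B (K ∪ S.image e) = pmr B K * pmr (Matrix.of fun a b => scr B K (e a) (e b)) S ∧
    scr B (K ∪ S.image e) (e i) (e j) =
      scr (Matrix.of fun a b => scr B K (e a) (e b)) S i j := by
  have h0 : pm (cx B) K ≠ 0 := by rw [pm_cx]; exact_mod_cast hK
  have h1 := pm_schurPart (cx B) h0 he heK S
  rw [nec_cx_schur hK, pm_cx, pm_cx, pm_cx] at h1
  have h1' : pmr B (K ∪ S.image e) =
      pmr B K * pmr (Matrix.of fun a b => scr B K (e a) (e b)) S := by exact_mod_cast h1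
  have h2 := nec_pp (cx B) h0 he heK S i j
  rw [nec_cx_schur hK, det_cx, det_cx, pm_cx] at h2
  have h2' : ppr B (K ∪ S.image e) (e i) (e j) =
      pmr B K * ppr (Matrix.of fun a b => scr B K (e a) (e b)) S i j := by exact_mod_cast h2
  refine ⟨h1', ?_⟩
  rw [scr, scr, h1', h2', mul_div_mul_left _ _ hK]

theorem nec_congr {m : ℕ} {M M' : Matrix (Fin m) (Fin m) ℝ} {K : Finset (Fin m)}
    {i j : Fin m} (h : ∀ x, (x ∈ K ∨ x = i) → ∀ y, (y ∈ K ∨ y = j) → M x y = M' x y) :
    scr M K i j = scr M' K i j := by
  have h1 : pmr M K = pmr M' K := by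
    unfold pmr
    congr 1
    ext x y
    exact h _ (Or.inl x.2) _ (Or.inl y.2)
  have h2 : ppr M K i j = ppr M' K i j := by
    unfold ppr
    congr 1
    ext (x | x) (y | y)
    · exact h _ (Or.inl x.2) _ (Or.inl y.2)
    · exact h _ (Or.inl x.2) _ (Or.inr rfl)
    · exact h _ (Or.inr rfl) _ (Or.inl y.2)
    · exact h _ (Or.inr rfl) _ (Or.inr rfl)
  rw [scr, scr, h1, h2]

theorem nec_pmr_updateCol (A : Mat n) {K : Finset (Fin n)} {o : Fin n} (ho : o ∉ K)
    (z : Fin n → ℝ) : pmr (A.updateCol o z) K = pmr A K := by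
  unfold pmr
  congr 1
  ext a b
  have hb : (b : Fin n) ≠ o := fun h => ho (h ▸ b.2)
  simp [hb]

theorem nec_scr_updateCol (A : Mat n) {K : Finset (Fin n)} {o : Fin n} (ho : o ∉ K)
    (z : Fin n → ℝ) {i j : Fin n} (hj : j ≠ o) : scr (A.updateCol o z) K i j = scr A K i j := by
  refine nec_congr fun x _ y hy => ?_
  have hyo : y ≠ o := by
    rcases hy with hy | hy
    · exact fun h => ho (h ▸ hy)
    · rw [hy]; exact hj
  rw [Matrix.updateCol_ne hyo]

/-- `u_iK . y` is an entry of the Schur complement of the matrix with the column `y` at `o`. -/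
theorem nec_uv {A : Mat n} (hA : RP A) {K : Finset (Fin n)} {o i : Fin n} (ho : o ∉ K)
    (hi : i ∉ K) (y : Fin n → ℝ) : uv A K i ⬝ᵥ y = scr (A.updateCol o y) K i o := by
  have hne : ∀ x : K, (x : Fin n) ≠ o := fun x h => ho (h ▸ x.2)
  have hQ : Qr (A.updateCol o y) K = Qr A K := by
    unfold Qr
    congr 1
    ext a b
    rw [submatrix_apply, submatrix_apply, Matrix.updateCol_ne (hne b)]
  have hK : pmr (A.updateCol o y) K ≠ 0 := by
    rw [nec_pmr_updateCol A ho]
    exact (hA K).ne'
  rw [scr_eq hK, dotProduct, sum_uv A hi]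
  simp only [hQ, Matrix.updateCol_self]
  congr 1
  refine Finset.sum_congr rfl fun x _ => ?_
  congr 1
  refine Finset.sum_congr rfl fun w _ => ?_
  rw [Matrix.updateCol_ne (hne w)]

theorem feas_of_limit {A : Mat n} (hA : RGKK A) {K : Finset (Fin n)} {o : Fin n}
    {I : Finset (Fin n)} (h : Col3 A K o I) (h0 : ∀ i ∈ I, scr A K o i ≠ 0)
    (hL : cx A ∈ closure {B : Matrix (Fin n) (Fin n) ℂ | IsStrictGKK B}) : Feas A K o I := by
  classical
  obtain ⟨hoK, hoI, hIK, hI3, hzero⟩ := h
  obtain ⟨a, b, c, hab, hac, hbc, hI⟩ := Finset.card_eq_three.1 hI3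
  have haI : a ∈ I := by rw [hI]; simp
  have hbI : b ∈ I := by rw [hI]; simp
  have hcI : c ∈ I := by rw [hI]; simp
  have hao : a ≠ o := fun h => hoI (h ▸ haI)
  have hbo : b ≠ o := fun h => hoI (h ▸ hbI)
  have hco : c ≠ o := fun h => hoI (h ▸ hcI)
  set e : Fin 4 → Fin n := ![a, b, c, o] with he
  have e0 : e 0 = a := rfl
  have e1 : e 1 = b := rfl
  have e2 : e 2 = c := rfl
  have e3 : e 3 = o := rfl
  have heinj : Function.Injective e := by
    intro x y hxy
    fin_cases x <;> fin_cases y <;> first
      | rfl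
      | exact absurd hxy hab
      | exact absurd hxy.symm hab
      | exact absurd hxy hac
      | exact absurd hxy.symm hac
      | exact absurd hxy hbc
      | exact absurd hxy.symm hbc
      | exact absurd hxy hao
      | exact absurd hxy.symm hao
      | exact absurd hxy hbo
      | exact absurd hxy.symm hbo
      | exact absurd hxy hco
      | exact absurd hxy.symm hco
  have heI : ∀ x : Fin 4, x ≠ 3 → e x ∈ I := by
    intro x hx
    fin_cases x
    · exact haI
    · exact hbI
    · exact hcI
    · exact absurd rfl hx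
  have heK : ∀ x, e x ∉ K := by
    intro x
    by_cases hx : x = 3
    · rw [hx]; exact hoK
    · exact fun h => (Finset.disjoint_left.1 hIK) (heI x hx) h
  have hKne : pmr A K ≠ 0 := (hA.1 K).ne'
  set M : Matrix (Fin 4) (Fin 4) ℝ := Matrix.of fun a b => scr A K (e a) (e b) with hM
  have hclos : cx M ∈ closure {B : Matrix (Fin 4) (Fin 4) ℂ | IsStrictGKK B} := by
    rw [hM, ← nec_cx_schur hKne]
    have h0 : pm (cx A) K ≠ 0 := by rw [pm_cx]; exact_mod_cast hKne
    refine ContinuousWithinAt.mem_closure
      (s := {B : Matrix (Fin n) (Fin n) ℂ | IsStrictGKK B})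
      (f := fun B : Matrix (Fin n) (Fin n) ℂ => schurPart B K e)
      (continuousAt_schurPart h0 e).continuousWithinAt hL ?_
    intro B hB
    have hB' := (isStrictGKK_iff B).1 hB
    have hnot : ∀ (S : Finset (Fin 4)) (i : Fin 4), i ∉ S → e i ∉ K ∪ S.image e := by
      intro S i hi hh
      rw [mem_union, mem_image] at hh
      rcases hh with hh | ⟨i', hi', hh⟩
      · exact heK i hh
      · exact hi ((heinj hh) ▸ hi')
    exact isStrictGKK_schurPart hB'.1 heinj heK fun S i j hi hj hij =>
      hB'.2 _ _ _ (hnot S i hi) (hnot S j hj) fun hh => hij (heinj hh)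
  obtain ⟨z, ⟨i₀, hi₀, hz₀⟩, hz⟩ := Pool.Agent.Helper63.NG.exists_weak (A := M) (o := 3)
    (fun S _ => by
      have h1 := (nec_quot hKne heinj heK S 0 0).1
      intro h2
      rw [← hM, h2, mul_zero] at h1
      exact (hA.1 _).ne' h1)
    (fun i hi => by
      rw [hM, Matrix.of_apply, e3]
      exact h0 _ (heI i hi)) ⟨0, by decide⟩ hclos
  -- the column
  set y : Fin n → ℝ := fun x => if x = a then z 0 else if x = b then z 1 else
    if x = c then z 2 else 0 with hy
  have hye : ∀ x : Fin 4, x ≠ 3 → y (e x) = z x := by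
    intro x hx
    fin_cases x
    · change y a = z 0
      simp only [hy, if_true]
    · change y b = z 1
      simp only [hy, if_neg hab.symm, if_true]
    · change y c = z 2
      simp only [hy, if_neg hac.symm, if_neg hbc.symm, if_true]
    · exact absurd rfl hx
  have hyI : ∀ x, x ∉ I → y x = 0 := by
    intro x hx
    have h1 : x ≠ a := fun h => hx (h ▸ haI)
    have h2 : x ≠ b := fun h => hx (h ▸ hbI)
    have h3 : x ≠ c := fun h => hx (h ▸ hcI)
    simp only [hy, if_neg h1, if_neg h2, if_neg h3]
  refine ⟨y, hyI, ?_, ?_⟩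
  · intro h1
    have h2 := congrFun h1 (e i₀)
    rw [hye i₀ hi₀] at h2
    exact hz₀ h2
  · intro i hi T hT hiT
    obtain ⟨i', hi', rfl⟩ : ∃ i' : Fin 4, i' ≠ 3 ∧ e i' = i := by
      rw [hI] at hi
      simp only [mem_insert, mem_singleton] at hi
      rcases hi with rfl | rfl | rfl
      · exact ⟨0, by decide, rfl⟩
      · exact ⟨1, by decide, rfl⟩
      · exact ⟨2, by decide, rfl⟩
    set S : Finset (Fin 4) := univ.filter fun s => e s ∈ T with hS
    have hST : S.image e = T := by
      ext x
      simp only [hS, mem_image, mem_filter, mem_univ, true_and]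
      constructor
      · rintro ⟨s, hs, rfl⟩
        exact hs
      · intro hx
        have h1 := hT hx
        rw [hI] at h1
        simp only [mem_insert, mem_singleton] at h1
        rcases h1 with rfl | rfl | rfl
        · exact ⟨0, hx, rfl⟩
        · exact ⟨1, hx, rfl⟩
        · exact ⟨2, hx, rfl⟩
    have h3S : (3 : Fin 4) ∉ S := by
      intro h1
      rw [hS, mem_filter] at h1
      exact hoI (hT h1.2)
    have hiS : i' ∉ S := by
      intro h1
      rw [hS, mem_filter] at h1
      exact hiT h1.2
    have hoKT : o ∉ K ∪ T := by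
      rw [mem_union, not_or]
      exact ⟨hoK, fun h1 => hoI (hT h1)⟩
    have hiKT : e i' ∉ K ∪ T := by
      rw [mem_union, not_or]
      exact ⟨heK i', hiT⟩
    have hz1 := hz S i' h3S hiS hi'
    have q1 : scr M S 3 i' = scr A (K ∪ T) o (e i') := by
      have h1 := (nec_quot hKne heinj heK S 3 i').2
      rw [hST, e3] at h1
      rw [h1]
    have hKB : pmr (A.updateCol o y) K ≠ 0 := by
      rw [nec_pmr_updateCol A hoK]
      exact hKne
    have q2 : scr (M.updateCol 3 z) S i' 3 = uv A (K ∪ T) (e i') ⬝ᵥ y := by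
      rw [nec_uv hA.1 hoKT hiKT]
      have h1 := (nec_quot hKB heinj heK S i' 3).2
      rw [hST, e3] at h1
      rw [h1]
      refine nec_congr fun x hx w hw => ?_
      have hx3 : x ≠ 3 := by
        rcases hx with hx | hx
        · exact fun h => h3S (h ▸ hx)
        · rw [hx]; exact hi'
      by_cases hw3 : w = 3
      · rw [hw3, Matrix.updateCol_self, Matrix.of_apply, e3, ← nec_uv hA.1 hoK (heK x), dotProduct,
          Finset.sum_eq_single (e x), uv_self, one_mul, hye x hx3]
        · intro v _ hv
          by_cases hvK : v ∈ K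
          · rw [hyI v (fun h => (Finset.disjoint_left.1 hIK) h hvK), mul_zero]
          · rw [uv_off A hvK hv, zero_mul]
        · intro h
          exact absurd (mem_univ _) h
      · have hwo : e w ≠ o := fun h => hw3 (heinj (h.trans e3.symm))
        rw [Matrix.updateCol_ne hw3, Matrix.of_apply,
          nec_scr_updateCol A hoK y hwo, hM, Matrix.of_apply]
    rw [q1, q2, mul_comm] at hz1
    exact hz1

end Pool.Agent.Helper85.CD
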