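import Mathlib
import Pool.Agent.Helper85.CD.Basic
import Pool.Agent.Helper69.CD.Near

/-!
Block [M] (helper69): the rank of the differentials of the vanishing almost principal minors is the
dimension of `W A`.
-/

namespace Pool.Agent.Helper85.CD

open Matrix Finset Filter Topology Pool.Agent.Helper5.GKK Pool.Agent.Helper21.GK

variable {n : ℕ}

/-- The rank at `A` of the almost principal minors that vanish at `A`: the dimension of the span of
their differentials at `A`. -/
noncomputable def vanishRank (A : Matrix (Fin n) (Fin n) ℝ) : ℕ :=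
  Module.finrank ℝ (Submodule.span ℝ {φ : (Fin n → Fin n → ℝ) →L[ℝ] ℝ |
    ∃ (k : ℕ) (α β : Fin k → Fin n), AlmostPrincipal α β ∧ (A.submatrix α β).det = 0 ∧
      φ = fderiv ℝ (fun B : Fin n → Fin n → ℝ => ((Matrix.of B).submatrix α β).det) (Matrix.of.symm A)})

/-- the pairing of matrices -/
private noncomputable def J69 (n : ℕ) : Mat n →ₗ[ℝ] ((Fin n → Fin n → ℝ) →L[ℝ] ℝ) where
  toFun M := LinearMap.toContinuousLinearMap
    { toFun := fun X : Fin n → Fin n → ℝ => ∑ i, ∑ j, M i j * X i j
      map_add' := fun X Y => by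
        simp only [Pi.add_apply, mul_add, Finset.sum_add_distrib]
      map_smul' := fun c X => by
        simp only [Pi.smul_apply, smul_eq_mul, RingHom.id_apply, Finset.mul_sum]
        refine Finset.sum_congr rfl fun i _ => Finset.sum_congr rfl fun j _ => by ring }
  map_add' M N := by
    ext X
    simp only [LinearMap.coe_toContinuousLinearMap', LinearMap.coe_mk, AddHom.coe_mk, Matrix.add_apply,
      add_mul, Finset.sum_add_distrib, _root_.add_apply]
  map_smul' c M := by
    ext X
    simp only [LinearMap.coe_toContinuousLinearMap', LinearMap.coe_mk, AddHom.coe_mk, Matrix.smul_apply,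
      smul_eq_mul, RingHom.id_apply, _root_.smul_apply, Finset.mul_sum]
    refine Finset.sum_congr rfl fun i _ => Finset.sum_congr rfl fun j _ => by ring

private theorem J69_apply (M : Mat n) (X : Fin n → Fin n → ℝ) : J69 n M X = ∑ i, ∑ j, M i j * X i j := rfl

private theorem J69_injective : Function.Injective (J69 n) := by
  rw [injective_iff_map_eq_zero]
  intro M hM
  ext i j
  have h := congrArg (fun φ : (Fin n → Fin n → ℝ) →L[ℝ] ℝ => φ (fun i' j' => if i' = i ∧ j' = j then 1 else 0)) hM
  simp only [J69_apply, _root_.zero_apply] at h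
  rw [Finset.sum_eq_single i, Finset.sum_eq_single j] at h
  · simpa using h
  · intro j' _ hj'; simp [hj']
  · simp
  · intro i' _ hi'
    refine Finset.sum_eq_zero fun j' _ => ?_
    simp [hi']
  · simp

private theorem J69_pair (u v : Fin n → ℝ) (X : Fin n → Fin n → ℝ) :
    J69 n (vecMulVec u v) X = Pool.Agent.Helper69.CD.pair u v X := by
  rw [J69_apply, Pool.Agent.Helper69.CD.pair]
  refine Finset.sum_congr rfl fun i _ => Finset.sum_congr rfl fun j _ => ?_
  rw [vecMulVec_apply]; ring

/-- almost principal minors are `ppr` up to a sign -/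
theorem minor_eq_ppr69 {K : Finset (Fin n)} {i j : Fin n} (hi : i ∉ K) (hj : j ∉ K) {k : ℕ}
    {α β : Fin k → Fin n} (hα : StrictMono α) (hβ : StrictMono β)
    (hαr : Set.range α = insert i (K : Set (Fin n))) (hβr : Set.range β = insert j (K : Set (Fin n))) :
    ∃ e : ℝ, e ≠ 0 ∧ ∀ B : Mat n, (B.submatrix α β).det = e * ppr B K i j := by
  have inj : ∀ i : Fin n, i ∉ K → Function.Injective (Sum.elim (Subtype.val : K → Fin n) (fun _ : Unit => i)) := by
    intro i hi
    rintro (x | x) (y | y) hxy
    · exact congrArg _ (Subtype.val_injective hxy)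
    · exact absurd (by rw [← show x.val = i from hxy]; exact x.2) hi
    · exact absurd (by rw [show i = y.val from hxy]; exact y.2) hi
    · rfl
  have rng : ∀ i : Fin n, Set.range (Sum.elim (Subtype.val : K → Fin n) (fun _ : Unit => i))
      = insert i (K : Set (Fin n)) := by
    intro i
    ext x
    simp only [Set.mem_range, Sum.exists, Sum.elim_inl, Sum.elim_inr, exists_const,
      Set.mem_insert_iff, Finset.mem_coe, Subtype.exists, exists_prop, exists_eq_right]
    constructor
    · rintro (h | h)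
      · exact Or.inr h
      · exact Or.inl h.symm
    · rintro (h | h)
      · exact Or.inr h.symm
      · exact Or.inl h
  obtain ⟨σ, hσ⟩ := exists_equiv α _ hα.injective (inj i hi) (by rw [hαr, rng])
  obtain ⟨τ, hτ⟩ := exists_equiv β _ hβ.injective (inj j hj) (by rw [hβr, rng])
  refine ⟨((Equiv.Perm.sign (σ.symm.trans τ) : ℤ) : ℝ), ?_, fun B => ?_⟩
  · rcases Int.units_eq_one_or (Equiv.Perm.sign (σ.symm.trans τ)) with h | h <;> rw [h] <;> simp
  · have h : B.submatrix α β = ((B.submatrix (Sum.elim (Subtype.val : K → Fin n) (fun _ : Unit => i))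
        (Sum.elim (Subtype.val : K → Fin n) (fun _ : Unit => j))).submatrix id (σ.symm.trans τ)).submatrix σ σ := by
      rw [hσ, hτ]
      ext x y
      simp
    rw [h, det_submatrix_equiv_self, det_permute', ppr]

/-- the derivative of a vanishing almost principal minor -/
private theorem hasFDerivAt_ppr69 {A : Mat n} (hA : RP A) {K : Finset (Fin n)} {i j : Fin n}
    (hz : Z A K i j) : HasFDerivAt (fun B : Fin n → Fin n → ℝ => ppr (Matrix.of B) K i j)
      (pmr A K • J69 n (vecMulVec (uv A K i) (vv A K j))) (Matrix.of.symm A) := by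
  rw [hasFDerivAt_iff_isLittleO, Asymptotics.isLittleO_iff]
  intro c hc
  have h0 : ppr A K i j = 0 := by rw [ppr_eq (hA K).ne', hz.2, mul_zero]
  have hcont : ContinuousAt (fun B : Fin n → Fin n → ℝ => ∑ x, ∑ y,
      |(pmr (Matrix.of B) K * uv (Matrix.of B) K i x) * vv A K j y -
        (pmr A K * uv A K i x) * vv A K j y|) (Matrix.of.symm A) := by
    refine tendsto_finsetSum _ fun x _ => tendsto_finsetSum _ fun y _ => ?_
    have c1 : ContinuousAt (fun B : Fin n → Fin n → ℝ => uv (Matrix.of B) K i x) (Matrix.of.symm A) :=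
      (continuous_apply x).continuousAt.comp (continuousAt_uv (A := A) hA K i)
    have c2 : ContinuousAt (fun B : Fin n → Fin n → ℝ => pmr (Matrix.of B) K) (Matrix.of.symm A) :=
      (continuous_pmr K).continuousAt
    exact (((c2.mul c1).mul continuousAt_const).sub continuousAt_const).abs
  have hsm := hcont.eventually_lt_const (u := c) (by simpa using hc)
  have hRP : ∀ᶠ B : Fin n → Fin n → ℝ in 𝓝 (Matrix.of.symm A), RP (Matrix.of B) := eventually_RP hA
  filter_upwards [hsm, hRP] with B hB1 hB2
  have h1 := scr_sub hA hB2 hz.1.1 hz.1.2.1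
  rw [hz.2, sub_zero] at h1
  have h2 : ppr (Matrix.of B) K i j = Pool.Agent.Helper69.CD.pair
      (fun x => pmr (Matrix.of B) K * uv (Matrix.of B) K i x) (vv A K j) (B - Matrix.of.symm A) := by
    rw [ppr_eq (hB2 K).ne', h1]
    simp only [Pool.Agent.Helper69.CD.pair, dotProduct, Matrix.mulVec, Finset.mul_sum]
    refine Finset.sum_congr rfl fun x _ => Finset.sum_congr rfl fun y _ => ?_
    simp only [Matrix.sub_apply, Matrix.of_apply, Pi.sub_apply, Matrix.of_symm_apply]
    ring
  have h3 : (pmr A K • J69 n (vecMulVec (uv A K i) (vv A K j))) (B - Matrix.of.symm A)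
      = Pool.Agent.Helper69.CD.pair (fun x => pmr A K * uv A K i x) (vv A K j) (B - Matrix.of.symm A) := by
    rw [_root_.smul_apply, J69_pair, smul_eq_mul]
    simp only [Pool.Agent.Helper69.CD.pair, Finset.mul_sum]
    refine Finset.sum_congr rfl fun x _ => Finset.sum_congr rfl fun y _ => by ring
  have h4 : ppr (Matrix.of (Matrix.of.symm A)) K i j = 0 := h0
  rw [h2, h3, h4, sub_zero, Real.norm_eq_abs]
  refine (Pool.Agent.Helper69.CD.abs_pair_le).trans (mul_le_mul_of_nonneg_right ?_ (norm_nonneg _))
  exact hB1.le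

theorem vanishRank_eq {A : Mat n} (hA : RP A) : vanishRank A = Module.finrank ℝ (W A) := by
  have hspan : Submodule.span ℝ {φ : (Fin n → Fin n → ℝ) →L[ℝ] ℝ |
      ∃ (k : ℕ) (α β : Fin k → Fin n), AlmostPrincipal α β ∧ (A.submatrix α β).det = 0 ∧
        φ = fderiv ℝ (fun B : Fin n → Fin n → ℝ => ((Matrix.of B).submatrix α β).det) (Matrix.of.symm A)}
      = (W A).map (J69 n) := by
    have hder : ∀ {K : Finset (Fin n)} {i j : Fin n} (hz : Z A K i j) {k : ℕ} {α β : Fin k → Fin n} (e : ℝ)
        (he : ∀ B : Mat n, (B.submatrix α β).det = e * ppr B K i j),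
        fderiv ℝ (fun B : Fin n → Fin n → ℝ => ((Matrix.of B).submatrix α β).det) (Matrix.of.symm A)
          = e • (pmr A K • J69 n (vecMulVec (uv A K i) (vv A K j))) := by
      intro K i j hz k α β e he
      have h1 : (fun B : Fin n → Fin n → ℝ => ((Matrix.of B).submatrix α β).det)
          = fun B => e • ppr (Matrix.of B) K i j := by
        funext B; rw [he, smul_eq_mul]
      rw [h1]
      exact ((hasFDerivAt_ppr69 hA hz).const_smul e).fderiv
    rw [W, Submodule.map_span]
    apply le_antisymm
    · rw [Submodule.span_le]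
      rintro φ ⟨k, α, β, hαβ, hdet, rfl⟩
      obtain ⟨K, i, j, hi, hj, hij, hα, hβ⟩ := hαβ.exists
      obtain ⟨e, he0, he⟩ := minor_eq_ppr69 hi hj hαβ.1 hαβ.2.1 hα hβ
      have hz : Z A K i j := by
        refine ⟨⟨hi, hj, hij⟩, ?_⟩
        rw [he] at hdet
        rw [scr, (mul_eq_zero.mp hdet).resolve_left he0, zero_div]
      rw [SetLike.mem_coe, hder hz e he]
      refine Submodule.smul_mem _ _ (Submodule.smul_mem _ _ (Submodule.subset_span ?_))
      exact ⟨_, ⟨K, i, j, hz, rfl⟩, rfl⟩
    · rw [Submodule.span_le]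
      rintro φ ⟨M, ⟨K, i, j, hz, rfl⟩, rfl⟩
      obtain ⟨α, β, hαβ, hα, hβ⟩ := exists_almostPrincipal hz.1.1 hz.1.2.1 hz.1.2.2
      obtain ⟨e, he0, he⟩ := minor_eq_ppr69 hz.1.1 hz.1.2.1 hαβ.1 hαβ.2.1 hα hβ
      have hdet : (A.submatrix α β).det = 0 := by
        rw [he, ppr_eq (hA K).ne', hz.2, mul_zero, mul_zero]
      have hmem := Submodule.subset_span (R := ℝ) (s := {φ : (Fin n → Fin n → ℝ) →L[ℝ] ℝ |
        ∃ (k : ℕ) (α β : Fin k → Fin n), AlmostPrincipal α β ∧ (A.submatrix α β).det = 0 ∧
          φ = fderiv ℝ (fun B : Fin n → Fin n → ℝ => ((Matrix.of B).submatrix α β).det)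
            (Matrix.of.symm A)}) ⟨_, α, β, hαβ, hdet, rfl⟩
      rw [SetLike.mem_coe, hder hz e he] at hmem
      rw [SetLike.mem_coe]
      have h1 := Submodule.smul_mem _ (e * pmr A K)⁻¹ hmem
      rw [smul_smul, smul_smul, mul_assoc, inv_mul_cancel₀ (mul_ne_zero he0 (hA K).ne'), one_smul] at h1
      exact h1
  rw [vanishRank, hspan]
  exact (Submodule.equivMapOfInjective (J69 n) J69_injective (W A)).finrank_eq.symm

end Pool.Agent.Helper85.CD
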