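import Mathlib
import Pool.Agent.Helper85.CD.Grad

/-!
The rank of the vanishing almost principal minors, defined by partial derivatives.
-/

namespace Pool.Agent.Helper85.CD

open Matrix Finset Filter Topology Pool.Agent.Helper5.GKK Pool.Agent.Helper21.GK

variable {n : ℕ}

/-- The gradient at `A` of the minor with rows `α` and columns `β`: the matrix of its partial
derivatives with respect to the entries. -/
noncomputable def minorGrad (A : Matrix (Fin n) (Fin n) ℝ) {k : ℕ} (α β : Fin k → Fin n) :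
    Matrix (Fin n) (Fin n) ℝ :=
  Matrix.of fun i j => deriv (fun t : ℝ => ((A + t • Matrix.single i j 1).submatrix α β).det) 0

/-- The rank at `A` of the almost principal minors that vanish at `A`: the dimension of the span of
their gradients at `A`. -/
noncomputable def vanishingRank (A : Matrix (Fin n) (Fin n) ℝ) : ℕ :=
  Module.finrank ℝ (Submodule.span ℝ {G : Matrix (Fin n) (Fin n) ℝ |
    ∃ (k : ℕ) (α β : Fin k → Fin n), AlmostPrincipal α β ∧ (A.submatrix α β).det = 0 ∧
      G = minorGrad A α β})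

theorem hasDerivAt_mul_cont {g : ℝ → ℝ} (hg : ContinuousAt g 0) : HasDerivAt (fun t => t * g t) (g 0) 0 := by
  rw [hasDerivAt_iff_tendsto_slope]
  have h1 : Tendsto g (𝓝[≠] 0) (𝓝 (g 0)) := hg.tendsto.mono_left nhdsWithin_le_nhds
  refine h1.congr' ?_
  filter_upwards [self_mem_nhdsWithin] with t ht
  rw [slope_def_field]
  have ht0 : t ≠ 0 := ht
  field_simp
  ring

theorem minorGrad_eq {A : Mat n} (hA : RP A) {K : Finset (Fin n)} {i j : Fin n} (hz : Z A K i j)
    {k : ℕ} {α β : Fin k → Fin n} {e : ℝ} (he : ∀ B : Mat n, (B.submatrix α β).det = e * ppr B K i j) :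
    minorGrad A α β = (e * pmr A K) • vecMulVec (uv A K i) (vv A K j) := by
  ext x y
  rw [minorGrad, Matrix.of_apply, Matrix.smul_apply, vecMulVec_apply, smul_eq_mul]
  set X : Mat n := Matrix.single x y 1 with hX
  have hline : Continuous fun t : ℝ => A + t • X := by fun_prop
  have hl : ContinuousAt (fun t : ℝ => A + t • X) 0 := hline.continuousAt
  have hl' : Tendsto (fun t : ℝ => A + t • X) (𝓝 0) (𝓝 A) := by
    have := hl.tendsto
    rwa [zero_smul, add_zero] at this
  have hRP : ∀ᶠ t : ℝ in 𝓝 0, RP (A + t • X) := hl'.eventually (eventually_RP hA)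
  set g : ℝ → ℝ := fun t => e * (pmr (A + t • X) K * (uv (A + t • X) K i ⬝ᵥ (X *ᵥ vv A K j))) with hg
  have hgc : ContinuousAt g 0 := by
    refine continuousAt_const.mul (ContinuousAt.mul ?_ ?_)
    · exact ((continuous_pmr K).comp hline).continuousAt
    · have h3 : Tendsto (fun t : ℝ => uv (A + t • X) K i) (𝓝 0) (𝓝 (uv (A + (0 : ℝ) • X) K i)) := by
        rw [zero_smul, add_zero]
        exact (continuousAt_uv hA K i).tendsto.comp hl'
      unfold dotProduct
      exact tendsto_finsetSum _ fun x _ => (tendsto_pi_nhds.mp h3 x).mul tendsto_const_nhds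
  have hg0 : g 0 = e * pmr A K * (uv A K i x * vv A K j y) := by
    simp only [hg, zero_smul, add_zero]
    rw [hX, Matrix.single_mulVec, one_mul]
    have h4 : Function.update (0 : Fin n → ℝ) x (vv A K j y) = Pi.single x (vv A K j y) := rfl
    rw [h4, dotProduct_single]
    ring
  have hev : (fun t : ℝ => ((A + t • X).submatrix α β).det) =ᶠ[𝓝 0] fun t => t * g t := by
    filter_upwards [hRP] with t ht
    have h4 := scr_sub hA ht hz.1.1 hz.1.2.1
    rw [hz.2, sub_zero, add_sub_cancel_left, Matrix.smul_mulVec, dotProduct_smul, smul_eq_mul] at h4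
    rw [he, ppr_eq (ht K).ne', h4, hg]
    ring
  rw [hev.deriv_eq, (hasDerivAt_mul_cont hgc).deriv, hg0]

theorem vanishingRank_eq {A : Mat n} (hA : RP A) : vanishingRank A = Module.finrank ℝ (W A) := by
  have hspan : Submodule.span ℝ {G : Matrix (Fin n) (Fin n) ℝ |
      ∃ (k : ℕ) (α β : Fin k → Fin n), AlmostPrincipal α β ∧ (A.submatrix α β).det = 0 ∧
        G = minorGrad A α β} = W A := by
    apply le_antisymm
    · rw [Submodule.span_le]
      rintro G ⟨k, α, β, hαβ, hdet, rfl⟩
      obtain ⟨K, i, j, hi, hj, hij, hα, hβ⟩ := hαβ.exists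
      obtain ⟨e, he0, he⟩ := minor_eq_ppr69 hi hj hαβ.1 hαβ.2.1 hα hβ
      have hz : Z A K i j := by
        refine ⟨⟨hi, hj, hij⟩, ?_⟩
        rw [he] at hdet
        rw [scr, (mul_eq_zero.mp hdet).resolve_left he0, zero_div]
      rw [SetLike.mem_coe, minorGrad_eq hA hz he]
      exact Submodule.smul_mem _ _ (Submodule.subset_span ⟨K, i, j, hz, rfl⟩)
    · rw [W, Submodule.span_le]
      rintro M ⟨K, i, j, hz, rfl⟩
      obtain ⟨α, β, hαβ, hα, hβ⟩ := exists_almostPrincipal hz.1.1 hz.1.2.1 hz.1.2.2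
      obtain ⟨e, he0, he⟩ := minor_eq_ppr69 hz.1.1 hz.1.2.1 hαβ.1 hαβ.2.1 hα hβ
      have hdet : (A.submatrix α β).det = 0 := by
        rw [he, ppr_eq (hA K).ne', hz.2, mul_zero, mul_zero]
      have hmem := Submodule.subset_span (R := ℝ) (s := {G : Matrix (Fin n) (Fin n) ℝ |
        ∃ (k : ℕ) (α β : Fin k → Fin n), AlmostPrincipal α β ∧ (A.submatrix α β).det = 0 ∧
          G = minorGrad A α β}) ⟨_, α, β, hαβ, hdet, rfl⟩
      rw [minorGrad_eq hA hz he] at hmem
      rw [SetLike.mem_coe]
      have h1 := Submodule.smul_mem _ (e * pmr A K)⁻¹ hmem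
      rw [smul_smul, inv_mul_cancel₀ (mul_ne_zero he0 (hA K).ne'), one_smul] at h1
      exact h1
  rw [vanishingRank, hspan]

end Pool.Agent.Helper85.CD
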