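import Mathlib
import Pool.Agent.Helper85.CD.Cfg
import Pool.Agent.Helper85.CD.Cls

/-!
Block [W2] (helper96): in the exceptional configuration, if the weak linear program has a nonzero
solution then `A` is a limit of GKK matrices `A' = A + eps y e_o^T` to which the main theorem applies.

PROOF. `dim W = 3` and the class of `v = vv A K o` has rank 3, so `Z A` = `{(K+T,i,o) : i in I, T in I - i}`
(`Z_struct`), all other products are positive, in particular the rows `scr A (K+T) o i` are nonzero and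
`D = (A/K)(I)` is strict. `Z A'` = `{(K+T,i,o) : f T i = 0}` with `f T i = uv A (K+T) i . y` (`Z_pert`). Col3
of `A'` and of its transpose is impossible (`y` is not 0). `dim W A' <= 3`: if for each `i` there is at most
one `T` with `f T i = 0`, there are at most three elements; otherwise (`two_zeros`) either there are only two
zeros, or `y` is a multiple of `e_k` or of column `k` of `D` and `Z A'` is a class of rank 2 (all its elements
share `v`).
-/

namespace Pool.Agent.Helper85.CD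

open Matrix Finset Filter Topology Pool.Agent.Helper5.GKK Pool.Agent.Helper21.GK

variable {n : ℕ}

/-- the linear forms of a strict matrix of order three -/
structure Sys (I : Finset (Fin n)) (f : Finset (Fin n) → Fin n → ℝ)
    (s : Finset (Fin n) → Fin n → Fin n → ℝ) : Prop where
  f_ins : ∀ T x z, T ⊆ I → x ∈ I → z ∈ I → x ∉ T → z ∉ T → x ≠ z →
    f (insert z T) x = f T x - s T x z / s T z z * f T z
  s_ins : ∀ T x w z, T ⊆ I → x ∈ I → w ∈ I → z ∈ I → x ∉ T → w ∉ T → z ∉ T →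
    s (insert z T) x w = s T x w - s T x z * s T z w / s T z z
  s_pos : ∀ T x, T ⊆ I → x ∈ I → x ∉ T → 0 < s T x x
  s_ne : ∀ T x z, T ⊆ I → x ∈ I → z ∈ I → x ∉ T → z ∉ T → x ≠ z → s T x z ≠ 0
  f_ne : ∃ x ∈ I, f ∅ x ≠ 0

/-- three different elements that form `I` -/
structure Tri (I : Finset (Fin n)) (i k l : Fin n) : Prop where
  hI : I = {i, k, l}
  ik : i ≠ k
  il : i ≠ l
  kl : k ≠ l

theorem Tri.swap {I : Finset (Fin n)} {i k l : Fin n} (h : Tri I i k l) : Tri I i l k :=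
  ⟨by rw [h.hI]; ext x; simp only [mem_insert, mem_singleton]; tauto, h.il, h.ik, h.kl.symm⟩

theorem Tri.rot {I : Finset (Fin n)} {i k l : Fin n} (h : Tri I i k l) : Tri I k l i :=
  ⟨by rw [h.hI]; ext x; simp only [mem_insert, mem_singleton]; tauto, h.kl, h.ik.symm, h.il.symm⟩

theorem Tri.mem1 {I : Finset (Fin n)} {i k l : Fin n} (h : Tri I i k l) : i ∈ I := by rw [h.hI]; simp
theorem Tri.mem2 {I : Finset (Fin n)} {i k l : Fin n} (h : Tri I i k l) : k ∈ I := by rw [h.hI]; simp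
theorem Tri.mem3 {I : Finset (Fin n)} {i k l : Fin n} (h : Tri I i k l) : l ∈ I := by rw [h.hI]; simp

theorem Tri.sub {I : Finset (Fin n)} {i k l : Fin n} (h : Tri I i k l) {T : Finset (Fin n)} (hT : T ⊆ I)
    (hi : i ∉ T) : T = ∅ ∨ T = {k} ∨ T = {l} ∨ T = {k, l} := by
  have hx : ∀ x ∈ T, x = k ∨ x = l := by
    intro x hx
    have h1 := hT hx
    rw [h.hI] at h1
    simp only [mem_insert, mem_singleton] at h1
    rcases h1 with rfl | h1
    · exact absurd hx hi
    · exact h1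
  by_cases hk : k ∈ T <;> by_cases hl : l ∈ T
  · right; right; right
    ext x
    simp only [mem_insert, mem_singleton]
    exact ⟨hx x, by rintro (rfl | rfl) <;> assumption⟩
  · right; left
    ext x
    simp only [mem_singleton]
    constructor
    · intro h1
      rcases hx x h1 with rfl | rfl
      · rfl
      · exact absurd h1 hl
    · rintro rfl; exact hk
  · right; right; left
    ext x
    simp only [mem_singleton]
    constructor
    · intro h1
      rcases hx x h1 with rfl | rfl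
      · exact absurd h1 hk
      · rfl
    · rintro rfl; exact hl
  · left
    refine Finset.eq_empty_of_forall_notMem fun x h1 => ?_
    rcases hx x h1 with rfl | rfl
    · exact hk h1
    · exact hl h1

/-- all twelve pairs -/
theorem Tri.all {I : Finset (Fin n)} {i k l : Fin n} (h : Tri I i k l)
    {P : Finset (Fin n) → Fin n → Prop} (hi0 : P ∅ i) (hik : P {k} i) (hil : P {l} i) (hi2 : P {k, l} i)
    (hk0 : P ∅ k) (hki : P {i} k) (hkl : P {l} k) (hk2 : P {i, l} k)
    (hl0 : P ∅ l) (hli : P {i} l) (hlk : P {k} l) (hl2 : P {i, k} l) :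
    ∀ T x, T ⊆ I → x ∈ I → x ∉ T → P T x := by
  intro T x hT hx hxT
  have h1 := hx
  rw [h.hI] at h1
  simp only [mem_insert, mem_singleton] at h1
  rcases h1 with rfl | rfl | rfl
  · rcases h.sub hT hxT with rfl | rfl | rfl | rfl <;> assumption
  · rcases h.rot.swap.sub hT hxT with rfl | rfl | rfl | rfl <;> assumption
  · rcases h.rot.rot.sub hT hxT with rfl | rfl | rfl | rfl <;> assumption

/-- the equations of one ordered triple -/
structure Eqs (I : Finset (Fin n)) (f : Finset (Fin n) → Fin n → ℝ)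
    (s : Finset (Fin n) → Fin n → Fin n → ℝ) (x z w : Fin n) : Prop where
  f1 : f {z} x = f ∅ x - s ∅ x z / s ∅ z z * f ∅ z
  f2 : f {z, w} x = f {w} x - s {w} x z / s {w} z z * f {w} z
  f2' : f {z, w} x = f {z} x - s {z} x w / s {z} w w * f {z} w
  s1 : s {z} x w = s ∅ x w - s ∅ x z * s ∅ z w / s ∅ z z
  s2 : 0 < s {w} x x - s {w} x z * s {w} z x / s {w} z z
  s3 : 0 < s ∅ x x - s ∅ x z * s ∅ z x / s ∅ z z
  s4 : s {z} x x = s ∅ x x - s ∅ x z * s ∅ z x / s ∅ z z
  p0 : 0 < s ∅ x x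
  p1 : 0 < s {z} x x
  n0 : s ∅ x z ≠ 0
  n1 : s {z} x w ≠ 0

theorem Sys.eqs {I : Finset (Fin n)} {f : Finset (Fin n) → Fin n → ℝ}
    {s : Finset (Fin n) → Fin n → Fin n → ℝ} (h : Sys I f s) {x z w : Fin n} (t : Tri I x z w) :
    Eqs I f s x z w := by
  have e0 : (∅ : Finset (Fin n)) ⊆ I := Finset.empty_subset I
  have ez : ({z} : Finset (Fin n)) ⊆ I := by simpa using t.mem2
  have ew : ({w} : Finset (Fin n)) ⊆ I := by simpa using t.mem3
  have i1 : insert z (∅ : Finset (Fin n)) = {z} := insert_empty_eq z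
  have xz : x ∉ ({z} : Finset (Fin n)) := by simpa using t.ik
  have wz : w ∉ ({z} : Finset (Fin n)) := by simpa using t.kl.symm
  have xw : x ∉ ({w} : Finset (Fin n)) := by simpa using t.il
  have zw : z ∉ ({w} : Finset (Fin n)) := by simpa using t.kl
  have nx := Finset.notMem_empty x
  have nz := Finset.notMem_empty z
  have nw := Finset.notMem_empty w
  refine ⟨?_, ?_, ?_, ?_, ?_, ?_, ?_, ?_, ?_, ?_, ?_⟩
  · have := h.f_ins ∅ x z e0 t.mem1 t.mem2 nx nz t.ik
    rwa [i1] at this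
  · exact h.f_ins {w} x z ew t.mem1 t.mem2 xw zw t.ik
  · have := h.f_ins {z} x w ez t.mem1 t.mem3 xz wz t.il
    rwa [Finset.pair_comm w z] at this
  · have := h.s_ins ∅ x w z e0 t.mem1 t.mem3 t.mem2 nx nw nz
    rwa [i1] at this
  · have := h.s_pos (insert z {w}) x (Finset.insert_subset t.mem2 ew) t.mem1 (by
      simp only [mem_insert, mem_singleton, not_or]; exact ⟨t.ik, t.il⟩)
    rwa [h.s_ins {w} x x z ew t.mem1 t.mem1 t.mem2 xw xw zw] at this
  · have := h.s_pos {z} x ez t.mem1 xz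
    have h2 := h.s_ins ∅ x x z e0 t.mem1 t.mem1 t.mem2 nx nx nz
    rw [i1] at h2
    rwa [h2] at this
  · have h2 := h.s_ins ∅ x x z e0 t.mem1 t.mem1 t.mem2 nx nx nz
    rwa [i1] at h2
  · exact h.s_pos ∅ x e0 t.mem1 nx
  · exact h.s_pos {z} x ez t.mem1 xz
  · exact h.s_ne ∅ x z e0 t.mem1 t.mem2 nx nz t.ik
  · exact h.s_ne {z} x w ez t.mem1 t.mem3 xz wz t.il

/-- the zeros form a class of rank 2 -/
def IsC (I : Finset (Fin n)) (f : Finset (Fin n) → Fin n → ℝ) : Prop :=
  ∃ S p q, S ⊆ I ∧ p ∈ I ∧ q ∈ I ∧ p ∉ S ∧ q ∉ S ∧ p ≠ q ∧ f S p = 0 ∧ f S q = 0 ∧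
    ∀ S' x, S' ⊆ I → x ∈ I → x ∉ S' → f S' x = 0 →
      (x = p ∧ (S' = S ∨ S' = insert q S)) ∨ (x = q ∧ (S' = S ∨ S' = insert p S))

/-- there are at most two zeros -/
def IsT (I : Finset (Fin n)) (f : Finset (Fin n) → Fin n → ℝ) : Prop :=
  ∃ i T T', i ∈ I ∧ ∀ S x, S ⊆ I → x ∈ I → x ∉ S → f S x = 0 → x = i ∧ (S = T ∨ S = T')

section
variable {I : Finset (Fin n)} {f : Finset (Fin n) → Fin n → ℝ}
  {s : Finset (Fin n) → Fin n → Fin n → ℝ} {i k l : Fin n}

theorem quo_ne {a b c : ℝ} (ha : a ≠ 0) (hb : 0 < b) (hc : c ≠ 0) : a / b * c ≠ 0 :=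
  mul_ne_zero (div_ne_zero ha hb.ne') hc

/-- first special case -/
theorem special1 (h : Sys I f s) (t : Tri I i k l) (hi : f ∅ i = 0) (hk : f ∅ k = 0) : IsC I f := by
  have hl : f ∅ l ≠ 0 := by
    obtain ⟨x, hx, hne⟩ := h.f_ne
    rw [t.hI] at hx
    simp only [mem_insert, mem_singleton] at hx
    rcases hx with rfl | rfl | rfl
    · exact absurd hi hne
    · exact absurd hk hne
    · exact hne
  have a1 := h.eqs t
  have a2 := h.eqs t.swap
  have b1 := h.eqs t.rot.swap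
  have b2 := h.eqs t.rot
  have c1 := h.eqs t.rot.rot
  have c2 := h.eqs t.rot.rot.swap
  have g1 : f {k} i = 0 := by rw [a1.f1, hi, hk]; ring
  have g2 : f {i} k = 0 := by rw [b1.f1, hi, hk]; ring
  have g3 : f {l} i ≠ 0 := by
    rw [a2.f1, hi, zero_sub]; exact neg_ne_zero.mpr (quo_ne a2.n0 c1.p0 hl)
  have g4 : f {l} k ≠ 0 := by
    rw [b2.f1, hk, zero_sub]; exact neg_ne_zero.mpr (quo_ne b2.n0 c1.p0 hl)
  have g5 : f {i} l ≠ 0 := by rw [c1.f1, hi, mul_zero, sub_zero]; exact hl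
  have g6 : f {k} l ≠ 0 := by rw [c2.f1, hk, mul_zero, sub_zero]; exact hl
  have g7 : f {k, l} i ≠ 0 := by
    rw [a1.f2', g1, zero_sub]; exact neg_ne_zero.mpr (quo_ne a1.n1 c2.p1 g6)
  have g8 : f {i, l} k ≠ 0 := by
    rw [b1.f2', g2, zero_sub]; exact neg_ne_zero.mpr (quo_ne b1.n1 c1.p1 g5)
  have g9 : f {i, k} l ≠ 0 := by
    rw [c1.f2, g1, mul_zero, sub_zero]; exact g6
  refine ⟨∅, i, k, Finset.empty_subset _, t.mem1, t.mem2, by simp, by simp, t.ik, hi, hk, ?_⟩
  refine t.all ?_ ?_ ?_ ?_ ?_ ?_ ?_ ?_ ?_ ?_ ?_ ?_ <;> intro h0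
  · exact Or.inl ⟨rfl, Or.inl rfl⟩
  · exact Or.inl ⟨rfl, Or.inr (insert_empty_eq k).symm⟩
  · exact absurd h0 g3
  · exact absurd h0 g7
  · exact Or.inr ⟨rfl, Or.inl rfl⟩
  · exact Or.inr ⟨rfl, Or.inr (insert_empty_eq i).symm⟩
  · exact absurd h0 g4
  · exact absurd h0 g8
  · exact absurd h0 hl
  · exact absurd h0 g5
  · exact absurd h0 g6
  · exact absurd h0 g9

/-- second special case -/
theorem special2 (h : Sys I f s) (t : Tri I i k l) (hi : f {k} i = 0) (hl : f {k} l = 0) : IsC I f := by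
  have a1 := h.eqs t
  have a2 := h.eqs t.swap
  have b1 := h.eqs t.rot.swap
  have b2 := h.eqs t.rot
  have c1 := h.eqs t.rot.rot
  have c2 := h.eqs t.rot.rot.swap
  have pk := b1.p0
  have pi := a1.p0
  have pl := c1.p0
  have yi : f ∅ i = s ∅ i k / s ∅ k k * f ∅ k := by
    have := a1.f1; rw [hi] at this; linarith
  have yl : f ∅ l = s ∅ l k / s ∅ k k * f ∅ k := by
    have := c2.f1; rw [hl] at this; linarith
  have yk : f ∅ k ≠ 0 := by
    intro h0
    rw [h0, mul_zero] at yi yl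
    obtain ⟨x, hx, hne⟩ := h.f_ne
    rw [t.hI] at hx
    simp only [mem_insert, mem_singleton] at hx
    rcases hx with rfl | rfl | rfl
    · exact hne yi
    · exact hne h0
    · exact hne yl
  have hc : f ∅ k / s ∅ k k ≠ 0 := div_ne_zero yk pk.ne'
  have g1 : f ∅ i ≠ 0 := by rw [yi]; exact quo_ne a1.n0 pk yk
  have g2 : f ∅ l ≠ 0 := by rw [yl]; exact quo_ne c2.n0 pk yk
  have g3 : f {l} i ≠ 0 := by
    have : f {l} i = f ∅ k / s ∅ k k * s {l} i k := by
      rw [a2.f1, yi, yl, a2.s1]; field_simp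
    rw [this]; exact mul_ne_zero hc a2.n1
  have g4 : f {i} l ≠ 0 := by
    have : f {i} l = f ∅ k / s ∅ k k * s {i} l k := by
      rw [c1.f1, yi, yl, c1.s1]; field_simp
    rw [this]; exact mul_ne_zero hc c1.n1
  have e5 : f {i} k = f ∅ k / s ∅ k k * s {i} k k := by
    rw [b1.f1, yi, b1.s4]; field_simp
  have g5 : f {i} k ≠ 0 := by rw [e5]; exact mul_ne_zero hc b1.p1.ne'
  have e6 : f {l} k = f ∅ k / s ∅ k k * s {l} k k := by
    rw [b2.f1, yl, b2.s4]; field_simp
  have g6 : f {l} k ≠ 0 := by rw [e6]; exact mul_ne_zero hc b2.p1.ne'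
  have g7 : f {k, l} i = 0 := by rw [a1.f2', hi, hl]; ring
  have g8 : f {i, k} l = 0 := by rw [c1.f2, hi, hl]; ring
  have g9 : f {i, l} k ≠ 0 := by
    have e3 : f {l} i = f ∅ k / s ∅ k k * s {l} i k := by
      rw [a2.f1, yi, yl, a2.s1]; field_simp
    have : f {i, l} k = f ∅ k / s ∅ k k * (s {l} k k - s {l} k i * s {l} i k / s {l} i i) := by
      rw [b1.f2, e6, e3]; ring
    rw [this]; exact mul_ne_zero hc b1.s2.ne'
  refine ⟨{k}, i, l, by simpa using t.mem2, t.mem1, t.mem3, by simpa using t.ik, by simpa using t.kl.symm,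
    t.il, hi, hl, ?_⟩
  refine t.all ?_ ?_ ?_ ?_ ?_ ?_ ?_ ?_ ?_ ?_ ?_ ?_ <;> intro h0
  · exact absurd h0 g1
  · exact Or.inl ⟨rfl, Or.inl rfl⟩
  · exact absurd h0 g3
  · exact Or.inl ⟨rfl, Or.inr (Finset.pair_comm k l)⟩
  · exact absurd h0 yk
  · exact absurd h0 g5
  · exact absurd h0 g6
  · exact absurd h0 g9
  · exact absurd h0 g2
  · exact absurd h0 g4
  · exact Or.inr ⟨rfl, Or.inl rfl⟩
  · exact Or.inr ⟨rfl, Or.inr rfl⟩

/-- third case -/
theorem case3 (h : Sys I f s) (t : Tri I i k l) (hi : f ∅ i = 0) (h2 : f {k, l} i = 0) :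
    IsC I f ∨ IsT I f := by
  by_cases yk : f ∅ k = 0
  · exact Or.inl (special1 h t hi yk)
  by_cases yl : f ∅ l = 0
  · exact Or.inl (special1 h t.swap hi yl)
  right
  have a1 := h.eqs t
  have a2 := h.eqs t.swap
  have b1 := h.eqs t.rot.swap
  have b2 := h.eqs t.rot
  have c1 := h.eqs t.rot.rot
  have c2 := h.eqs t.rot.rot.swap
  have g1 : f {i} k ≠ 0 := by rw [b1.f1, hi, mul_zero, sub_zero]; exact yk
  have g2 : f {i} l ≠ 0 := by rw [c1.f1, hi, mul_zero, sub_zero]; exact yl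
  have g3 : f {k} i ≠ 0 := by
    rw [a1.f1, hi, zero_sub]; exact neg_ne_zero.mpr (quo_ne a1.n0 b1.p0 yk)
  have g4 : f {l} i ≠ 0 := by
    rw [a2.f1, hi, zero_sub]; exact neg_ne_zero.mpr (quo_ne a2.n0 c1.p0 yl)
  have e5 : f {l} i = s {l} i k / s {l} k k * f {l} k := by
    have := a1.f2; rw [h2] at this; linarith
  have g5 : f {l} k ≠ 0 := by
    intro h0; rw [h0, mul_zero] at e5; exact g4 e5
  have e6 : f {k} i = s {k} i l / s {k} l l * f {k} l := by
    have := a1.f2'; rw [h2] at this; linarith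
  have g6 : f {k} l ≠ 0 := by
    intro h0; rw [h0, mul_zero] at e6; exact g3 e6
  have g7 : f {i, l} k ≠ 0 := by
    have p := a2.p1
    have p' := b2.p1
    have : f {i, l} k = f {l} k / s {l} k k * (s {l} k k - s {l} k i * s {l} i k / s {l} i i) := by
      rw [b1.f2, e5]; field_simp
    rw [this]; exact mul_ne_zero (div_ne_zero g5 p'.ne') b1.s2.ne'
  have g8 : f {i, k} l ≠ 0 := by
    have p := a1.p1
    have p' := c2.p1
    have : f {i, k} l = f {k} l / s {k} l l * (s {k} l l - s {k} l i * s {k} i l / s {k} i i) := by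
      rw [c1.f2, e6]; field_simp
    rw [this]; exact mul_ne_zero (div_ne_zero g6 p'.ne') c1.s2.ne'
  refine ⟨i, ∅, {k, l}, t.mem1, ?_⟩
  refine t.all ?_ ?_ ?_ ?_ ?_ ?_ ?_ ?_ ?_ ?_ ?_ ?_ <;> intro h0
  · exact ⟨rfl, Or.inl rfl⟩
  · exact absurd h0 g3
  · exact absurd h0 g4
  · exact ⟨rfl, Or.inr rfl⟩
  · exact absurd h0 yk
  · exact absurd h0 g1
  · exact absurd h0 g5
  · exact absurd h0 g7
  · exact absurd h0 yl
  · exact absurd h0 g2
  · exact absurd h0 g6
  · exact absurd h0 g8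

/-- fourth case -/
theorem case4 (h : Sys I f s) (t : Tri I i k l) (hk : f {k} i = 0) (hl : f {l} i = 0) :
    IsC I f ∨ IsT I f := by
  by_cases z1 : f {k} l = 0
  · exact Or.inl (special2 h t hk z1)
  by_cases z2 : f {l} k = 0
  · exact Or.inl (special2 h t.swap hl z2)
  right
  have a1 := h.eqs t
  have a2 := h.eqs t.swap
  have b1 := h.eqs t.rot.swap
  have b2 := h.eqs t.rot
  have c1 := h.eqs t.rot.rot
  have c2 := h.eqs t.rot.rot.swap
  have e1 : f ∅ i = s ∅ i k / s ∅ k k * f ∅ k := by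
    have := a1.f1; rw [hk] at this; linarith
  have e2 : f ∅ i = s ∅ i l / s ∅ l l * f ∅ l := by
    have := a2.f1; rw [hl] at this; linarith
  have g0 : f ∅ i ≠ 0 := by
    intro h0
    have f1 : f ∅ k = 0 := by
      by_contra hne; rw [h0] at e1; exact quo_ne a1.n0 b1.p0 hne e1.symm
    have f2 : f ∅ l = 0 := by
      by_contra hne; rw [h0] at e2; exact quo_ne a2.n0 c1.p0 hne e2.symm
    obtain ⟨x, hx, hne⟩ := h.f_ne
    rw [t.hI] at hx
    simp only [mem_insert, mem_singleton] at hx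
    rcases hx with rfl | rfl | rfl
    · exact hne h0
    · exact hne f1
    · exact hne f2
  have g1 : f ∅ k ≠ 0 := by intro h0; rw [h0, mul_zero] at e1; exact g0 e1
  have g2 : f ∅ l ≠ 0 := by intro h0; rw [h0, mul_zero] at e2; exact g0 e2
  have g3 : f {i} k ≠ 0 := by
    have p := a1.p0
    have p' := b1.p0
    have : f {i} k = f ∅ k / s ∅ k k * (s ∅ k k - s ∅ k i * s ∅ i k / s ∅ i i) := by
      rw [b1.f1, e1]; field_simp
    rw [this]; exact mul_ne_zero (div_ne_zero g1 p'.ne') b1.s3.ne'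
  have g4 : f {i} l ≠ 0 := by
    have p := a1.p0
    have p' := c1.p0
    have : f {i} l = f ∅ l / s ∅ l l * (s ∅ l l - s ∅ l i * s ∅ i l / s ∅ i i) := by
      rw [c1.f1, e2]; field_simp
    rw [this]; exact mul_ne_zero (div_ne_zero g2 p'.ne') c1.s3.ne'
  have g5 : f {k, l} i ≠ 0 := by
    rw [a1.f2', hk, zero_sub]; exact neg_ne_zero.mpr (quo_ne a1.n1 c2.p1 z1)
  have g6 : f {i, l} k ≠ 0 := by rw [b1.f2, hl, mul_zero, sub_zero]; exact z2
  have g7 : f {i, k} l ≠ 0 := by rw [c1.f2, hk, mul_zero, sub_zero]; exact z1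
  refine ⟨i, {k}, {l}, t.mem1, ?_⟩
  refine t.all ?_ ?_ ?_ ?_ ?_ ?_ ?_ ?_ ?_ ?_ ?_ ?_ <;> intro h0
  · exact absurd h0 g0
  · exact ⟨rfl, Or.inl rfl⟩
  · exact ⟨rfl, Or.inr rfl⟩
  · exact absurd h0 g5
  · exact absurd h0 g1
  · exact absurd h0 g3
  · exact absurd h0 z2
  · exact absurd h0 g6
  · exact absurd h0 g2
  · exact absurd h0 g4
  · exact absurd h0 z1
  · exact absurd h0 g7

theorem two_zeros (h : Sys I f s) (t : Tri I i k l) {T T' : Finset (Fin n)} (hT : T ⊆ I) (hT' : T' ⊆ I)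
    (hi : i ∉ T) (hi' : i ∉ T') (h1 : f T i = 0) (h2 : f T' i = 0) (hne : T ≠ T') :
    IsC I f ∨ IsT I f := by
  have a1 := h.eqs t
  have a2 := h.eqs t.swap
  have b1 := h.eqs t.rot.swap
  have c1 := h.eqs t.rot.rot
  have c2 := h.eqs t.rot.rot.swap
  have b2 := h.eqs t.rot
  have s1 : f ∅ i = 0 → f {k} i = 0 → IsC I f := by
    intro h0 h1
    refine special1 h t h0 ?_
    by_contra hne
    have := a1.f1
    rw [h0, h1] at this
    exact quo_ne a1.n0 b1.p0 hne (by linarith)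
  have s2 : f ∅ i = 0 → f {l} i = 0 → IsC I f := by
    intro h0 h1
    refine special1 h t.swap h0 ?_
    by_contra hne
    have := a2.f1
    rw [h0, h1] at this
    exact quo_ne a2.n0 c1.p0 hne (by linarith)
  have s3 : f {k} i = 0 → f {k, l} i = 0 → IsC I f := by
    intro h0 h1
    refine special2 h t h0 ?_
    by_contra hne
    have := a1.f2'
    rw [h0, h1] at this
    exact quo_ne a1.n1 c2.p1 hne (by linarith)
  have s4 : f {l} i = 0 → f {k, l} i = 0 → IsC I f := by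
    intro h0 h1
    refine special2 h t.swap h0 ?_
    by_contra hne
    have := a1.f2
    rw [h0, h1] at this
    exact quo_ne a2.n1 b2.p1 hne (by linarith)
  rcases t.sub hT hi with rfl | rfl | rfl | rfl <;> rcases t.sub hT' hi' with rfl | rfl | rfl | rfl
  · exact absurd rfl hne
  · exact Or.inl (s1 h1 h2)
  · exact Or.inl (s2 h1 h2)
  · exact case3 h t h1 h2
  · exact Or.inl (s1 h2 h1)
  · exact absurd rfl hne
  · exact case4 h t h1 h2
  · exact Or.inl (s3 h1 h2)
  · exact Or.inl (s2 h2 h1)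
  · exact case4 h t h2 h1
  · exact absurd rfl hne
  · exact Or.inl (s4 h1 h2)
  · exact case3 h t h2 h1
  · exact Or.inl (s3 h2 h1)
  · exact Or.inl (s4 h2 h1)
  · exact absurd rfl hne

end

theorem exists_tri {I : Finset (Fin n)} (hc : I.card = 3) {i : Fin n} (hi : i ∈ I) :
    ∃ k l, Tri I i k l := by
  have h1 : (I.erase i).card = 2 := by rw [Finset.card_erase_of_mem hi, hc]
  obtain ⟨k, l, hkl, he⟩ := Finset.card_eq_two.mp h1
  have hk : k ∈ I.erase i := by rw [he]; simp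
  have hl : l ∈ I.erase i := by rw [he]; simp
  refine ⟨k, l, ?_, (Finset.ne_of_mem_erase hk).symm, (Finset.ne_of_mem_erase hl).symm, hkl⟩
  rw [← Finset.insert_erase hi, he]

/-! ### the structure of `Z A` -/

theorem mem_W' {A : Mat n} {K : Finset (Fin n)} {i j : Fin n} (hz : Z A K i j) :
    vecMulVec (uv A K i) (vv A K j) ∈ W A := Submodule.subset_span ⟨K, i, j, hz, rfl⟩

section
variable {A : Mat n} {K : Finset (Fin n)} {o : Fin n} {I : Finset (Fin n)}

theorem Col3.neo (h : Col3 A K o I) {i : Fin n} (hi : i ∈ I) : i ≠ o := fun he => h.2.1 (he ▸ hi)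

theorem Col3.niK (h : Col3 A K o I) {i : Fin n} (hi : i ∈ I) : i ∉ K :=
  Finset.disjoint_left.mp h.2.2.1 hi

theorem W_eq (hd : Module.finrank ℝ (W A) ≤ 3) (h : Col3 A K o I) :
    Submodule.span ℝ (Set.range fun i : I => vecMulVec (uv A K i) (vv A K o)) = W A := by
  have hli : LinearIndependent ℝ (fun i : I => vecMulVec (uv A K i) (vv A K o)) := by
    rw [Fintype.linearIndependent_iff]
    intro g hg a
    have h1 := congrFun (congrFun hg a) o
    rw [Matrix.sum_apply] at h1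
    rw [Finset.sum_eq_single a] at h1
    · simpa [vecMulVec_apply, uv_self, vv_self] using h1
    · intro b _ hb
      have hab : (a : Fin n) ≠ b := fun h => hb (Subtype.ext h.symm)
      rw [Matrix.smul_apply, vecMulVec_apply, uv_off A (h.niK a.2) hab]
      simp
    · intro h; exact absurd (mem_univ _) h
  have hr := finrank_span_eq_card hli
  rw [Fintype.card_coe, h.2.2.2.1] at hr
  refine Submodule.eq_of_le_of_finrank_le ?_ (by rw [hr]; exact hd)
  rw [Submodule.span_le]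
  rintro _ ⟨a, rfl⟩
  exact mem_W' ⟨⟨h.niK a.2, h.1, h.neo a.2⟩, h.2.2.2.2 a a.2⟩

/-- the first part of the structure of `Z A` -/
theorem Z_struct0 (hA : RGKK A) (hd : Module.finrank ℝ (W A) ≤ 3) (h : Col3 A K o I)
    {K' : Finset (Fin n)} {i' j' : Fin n} (hz : Z A K' i' j') :
    j' = o ∧ vv A K' j' = vv A K o ∧ i' ∈ I := by
  have h1 := mem_W' hz
  rw [← W_eq hd h, Submodule.mem_span_range_iff_exists_fun] at h1
  obtain ⟨c, hc⟩ := h1
  set w : Fin n → ℝ := ∑ i : I, c i • uv A K i with hw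
  have h2 : vecMulVec (uv A K' i') (vv A K' j') = vecMulVec w (vv A K o) := by
    rw [← hc, hw]
    ext x y
    simp only [Matrix.sum_apply, Matrix.smul_apply, vecMulVec_apply, Finset.sum_apply, Pi.smul_apply,
      smul_eq_mul, Finset.sum_mul, mul_assoc]
  have h3 : vv A K' j' = w i' • vv A K o := by
    funext y
    have := congrFun (congrFun h2 i') y
    rw [vecMulVec_apply, vecMulVec_apply, uv_self, one_mul] at this
    rw [this, Pi.smul_apply, smul_eq_mul]
  obtain ⟨h4, h5⟩ := vv_parallel hA.1 hz.1.2.1 h.1 h3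
  have h6 : uv A K' i' = w := by
    funext x
    have := congrFun (congrFun h2 x) o
    rwa [vecMulVec_apply, vecMulVec_apply, h5, vv_self, mul_one, mul_one] at this
  have hoff : ∀ x, x ∉ K → x ∉ I → w x = 0 := by
    intro x hx hxI
    rw [hw, Finset.sum_apply]
    refine Finset.sum_eq_zero fun i _ => ?_
    rw [Pi.smul_apply, uv_off A hx (fun he => hxI (he ▸ i.2)), smul_zero]
  have hK : ∀ k ∈ K, (w ᵥ* A) k = 0 := by
    intro k hk
    rw [hw, Matrix.sum_vecMul, Finset.sum_apply]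
    refine Finset.sum_eq_zero fun i _ => ?_
    rw [Matrix.smul_vecMul, Pi.smul_apply, uv_mul_mem hA.1 (h.niK i.2) hk, smul_zero]
  refine ⟨h4, h5, ?_⟩
  by_contra hne
  have hiK : i' ∈ K := by
    by_contra hiK
    have := hoff i' hiK hne
    rw [← h6, uv_self] at this
    exact one_ne_zero this
  have h7 := uv_mul_self hA.1 hz.1.1
  rw [h6, hK i' hiK] at h7
  exact lt_irrefl _ h7

/-- the structure of `Z A` -/
theorem Z_struct (hA : RGKK A) (hd : Module.finrank ℝ (W A) ≤ 3) (h : Col3 A K o I)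
    {K' : Finset (Fin n)} {i' j' : Fin n} (hz : Z A K' i' j') :
    j' = o ∧ i' ∈ I ∧ ∃ T, T ⊆ I ∧ i' ∉ T ∧ K' = K ∪ T := by
  obtain ⟨h1, h2, h3⟩ := Z_struct0 hA hd h hz
  subst h1
  refine ⟨rfl, h3, ?_⟩
  have hKK : K ⊆ K' := by
    intro x hx
    by_contra hne
    have hxo : x ≠ j' := fun he => h.1 (he ▸ hx)
    have hv0 : vv A K j' x = 0 := by rw [← h2]; exact vv_off A hne hxo
    have hje : j' ∉ K.erase x := fun hh => h.1 (Finset.mem_of_mem_erase hh)
    have hv : vv A (K.erase x) j' = vv A K j' := by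
      symm
      refine vv_unique hA.1 hje (vv_self A K j') (fun y hy hyo => ?_) (fun k hk => ?_)
      · by_cases hyx : y = x
        · rw [hyx]; exact hv0
        · exact vv_off A (fun hh => hy (Finset.mem_erase.mpr ⟨hyx, hh⟩)) hyo
      · exact vv_mul_mem hA.1 h.1 (Finset.mem_of_mem_erase hk)
    have hz' : Z A (K.erase x) x j' := by
      refine ⟨⟨by simp, hje, hxo⟩, ?_⟩
      rw [← vv_mul hA.1 hje x, hv]
      exact vv_mul_mem hA.1 h.1 hx
    exact h.niK (Z_struct0 hA hd h hz').2.2 hx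
  have hK2 : ∀ x ∈ K', x ∉ K → x ∈ I := by
    intro x hx hxK
    have hxo : x ≠ j' := fun he => hz.1.2.1 (he ▸ hx)
    have h4 := vv_mul_mem hA.1 hz.1.2.1 hx
    rw [h2, vv_mul hA.1 h.1] at h4
    exact (Z_struct0 hA hd h (⟨⟨hxK, h.1, hxo⟩, h4⟩ : Z A K x j')).2.2
  refine ⟨K' \ K, fun x hx => ?_, fun hh => hz.1.1 (Finset.mem_sdiff.mp hh).1, ?_⟩
  · obtain ⟨h5, h6⟩ := Finset.mem_sdiff.mp hx
    exact hK2 x h5 h6
  · rw [Finset.union_sdiff_of_subset hKK]

/-- the class -/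
theorem vv_class (hA : RGKK A) (h : Col3 A K o I) {T : Finset (Fin n)} (hT : T ⊆ I) :
    vv A (K ∪ T) o = vv A K o := by
  have ho : o ∉ K ∪ T := by
    rw [mem_union, not_or]
    exact ⟨h.1, fun hh => h.2.1 (hT hh)⟩
  symm
  refine vv_unique hA.1 ho (vv_self A K o) (fun y hy hyo => ?_) (fun k hk => ?_)
  · exact vv_off A (fun hh => hy (mem_union_left _ hh)) hyo
  · rcases mem_union.mp hk with hk | hk
    · exact vv_mul_mem hA.1 h.1 hk
    · rw [vv_mul hA.1 h.1]
      exact h.2.2.2.2 k (hT hk)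

theorem scr_class (hA : RGKK A) (h : Col3 A K o I) {T : Finset (Fin n)} (hT : T ⊆ I) {i : Fin n}
    (hi : i ∈ I) : scr A (K ∪ T) i o = 0 := by
  have ho : o ∉ K ∪ T := by
    rw [mem_union, not_or]
    exact ⟨h.1, fun hh => h.2.1 (hT hh)⟩
  rw [← vv_mul hA.1 ho, vv_class hA h hT, vv_mul hA.1 h.1]
  exact h.2.2.2.2 i hi

theorem not_Z (hA : RGKK A) (hd : Module.finrank ℝ (W A) ≤ 3) (h : Col3 A K o I)
    {K' : Finset (Fin n)} {i j : Fin n} (hv : Val K' i j) (hj : j ≠ o) : scr A K' i j ≠ 0 := fun h0 =>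
  hj (Z_struct hA hd h (⟨hv, h0⟩ : Z A K' i j)).1

theorem sys (hA : RGKK A) (hd : Module.finrank ℝ (W A) ≤ 3) (h : Col3 A K o I) {y : Fin n → ℝ}
    (hy : ∀ i, i ∉ I → y i = 0) (hy0 : y ≠ 0) :
    Sys I (fun T i => uv A (K ∪ T) i ⬝ᵥ y) (fun T i j => scr A (K ∪ T) i j) := by
  have hmem : ∀ T x, T ⊆ I → x ∈ I → x ∉ T → x ∉ K ∪ T := by
    intro T x _ hx hxT
    rw [mem_union, not_or]
    exact ⟨h.niK hx, hxT⟩
  refine ⟨?_, ?_, ?_, ?_, ?_⟩
  · intro T x z hT hx hz hxT hzT hxz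
    simp only [Finset.union_insert]
    rw [uv_insert hA.1 (hmem T x hT hx hxT) (hmem T z hT hz hzT) hxz, sub_dotProduct, smul_dotProduct,
      smul_eq_mul]
  · intro T x w z hT hx hw hz hxT hwT hzT
    simp only [Finset.union_insert]
    rw [scr_insert hA.1 (hmem T z hT hz hzT)]
  · intro T x hT hx hxT
    exact scr_self_pos hA.1 (hmem T x hT hx hxT)
  · intro T x z hT hx hz hxT hzT hxz
    exact not_Z hA hd h ⟨hmem T x hT hx hxT, hmem T z hT hz hzT, hxz⟩ (h.neo hz)
  · by_contra hcon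
    push Not at hcon
    apply hy0
    funext x
    by_cases hx : x ∈ I
    · have h1 := hcon x hx
      simp only [Finset.union_empty] at h1
      rw [dotProduct, Finset.sum_eq_single x] at h1
      · rwa [uv_self, one_mul] at h1
      · intro z _ hzx
        by_cases hz : z ∈ I
        · rw [uv_off A (h.niK hz) hzx, zero_mul]
        · rw [hy z hz, mul_zero]
      · intro hh; exact absurd (mem_univ _) hh
    · exact hy x hx

end

/-- a covering bounds the rank -/
theorem finrank_W_le {B : Mat n} (F : Finset (Mat n)) (hF : ∀ K i j, Z B K i j →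
    vecMulVec (uv B K i) (vv B K j) ∈ Submodule.span ℝ (F : Set (Mat n))) :
    Module.finrank ℝ (W B) ≤ F.card := by
  have hle : W B ≤ Submodule.span ℝ (F : Set (Mat n)) := by
    unfold W
    rw [Submodule.span_le]
    rintro _ ⟨K, i, j, hz, rfl⟩
    exact hF K i j hz
  exact (Submodule.finrank_mono hle).trans (finrank_span_finset_le_card F)

/-! ### the perturbed matrix -/

section
variable {A : Mat n} {K : Finset (Fin n)} {o : Fin n} {I : Finset (Fin n)} {y : Fin n → ℝ} {t : ℝ}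

theorem uv_pert (hA : RGKK A) (hB : RP (A + t • vecMulVec y (Pi.single o 1))) {K' : Finset (Fin n)}
    {i : Fin n} (hi : i ∉ K') (ho : o ∉ K') :
    uv (A + t • vecMulVec y (Pi.single o 1)) K' i = uv A K' i := by
  symm
  refine uv_unique hB hi (uv_self A K' i) (fun x hx hxi => uv_off A hx hxi) (fun k hk => ?_)
  have hko : k ≠ o := fun he => ho (he ▸ hk)
  rw [Matrix.vecMul_add, Pi.add_apply, Matrix.vecMul_smul, Pi.smul_apply, Matrix.vecMul_vecMulVec,
    Pi.smul_apply, Pi.single_eq_of_ne hko, uv_mul_mem hA.1 hi hk]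
  simp

theorem scr_pert96 (hA : RGKK A) (h : Col3 A K o I) (hB : RP (A + t • vecMulVec y (Pi.single o 1)))
    {T : Finset (Fin n)} (hT : T ⊆ I) {i : Fin n} (hi : i ∈ I) (hiT : i ∉ T) :
    scr (A + t • vecMulVec y (Pi.single o 1)) (K ∪ T) i o = t * (uv A (K ∪ T) i ⬝ᵥ y) := by
  have hiK : i ∉ K ∪ T := by rw [mem_union, not_or]; exact ⟨h.niK hi, hiT⟩
  have hoK : o ∉ K ∪ T := by rw [mem_union, not_or]; exact ⟨h.1, fun hh => h.2.1 (hT hh)⟩
  rw [← uv_mul hB hiK, uv_pert hA hB hiK hoK, Matrix.vecMul_add, Pi.add_apply, Matrix.vecMul_smul,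
    Pi.smul_apply, Matrix.vecMul_vecMulVec, Pi.smul_apply, Pi.single_eq_same, uv_mul hA.1 hiK,
    scr_class hA h hT hi]
  simp

/-- signs -/
theorem RGKK_pert (hA : RGKK A) (hd : Module.finrank ℝ (W A) ≤ 3) (h : Col3 A K o I)
    (hfe : ∀ i ∈ I, ∀ T, T ⊆ I → i ∉ T → 0 ≤ (uv A (K ∪ T) i ⬝ᵥ y) * scr A (K ∪ T) o i)
    (ht : 0 < t) (hB : RP (A + t • vecMulVec y (Pi.single o 1)))
    (hs : ∀ K' i j, Val K' i j → scr A K' i j ≠ 0 →
      0 < scr (A + t • vecMulVec y (Pi.single o 1)) K' i j * scr A K' i j) :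
    RGKK (A + t • vecMulVec y (Pi.single o 1)) := by
  set B := A + t • vecMulVec y (Pi.single o 1) with hBd
  have key : ∀ K' i j, Val K' i j → scr A K' i j = 0 → 0 ≤ scr B K' i j * scr B K' j i := by
    intro K' i j hv h0
    obtain ⟨rfl, hi, T, hT, hiT, rfl⟩ := Z_struct hA hd h (⟨hv, h0⟩ : Z A K' i j)
    have h1 := not_Z hA hd h hv.symm hv.2.2
    have h2 := hs _ _ _ hv.symm h1
    have h3 := hfe i hi T hT hiT
    rw [hBd, scr_pert96 hA h hB hT hi hiT, ← hBd]
    have h4 : 0 < scr A (K ∪ T) j i ^ 2 := by positivity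
    have h5 : 0 ≤ t * (((uv A (K ∪ T) i ⬝ᵥ y) * scr A (K ∪ T) j i) *
      (scr B (K ∪ T) j i * scr A (K ∪ T) j i)) := mul_nonneg ht.le (mul_nonneg h3 h2.le)
    have h6 : 0 ≤ (t * (uv A (K ∪ T) i ⬝ᵥ y) * scr B (K ∪ T) j i) * scr A (K ∪ T) j i ^ 2 := by
      calc 0 ≤ _ := h5
        _ = _ := by ring
    exact nonneg_of_mul_nonneg_left h6 h4
  refine ⟨hB, fun K' i j hv => ?_⟩
  by_cases z1 : scr A K' i j = 0
  · exact key K' i j hv z1
  · by_cases z2 : scr A K' j i = 0
    · rw [mul_comm]; exact key K' j i hv.symm z2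
    · have h1 := hs _ _ _ hv z1
      have h2 := hs _ _ _ hv.symm z2
      have h3 : 0 < scr A K' i j * scr A K' j i := lt_of_le_of_ne (hA.2 K' i j hv) (mul_ne_zero z1 z2).symm
      have h4 : 0 < (scr B K' i j * scr B K' j i) * (scr A K' i j * scr A K' j i) := by
        calc 0 < _ := mul_pos h1 h2
          _ = _ := by ring
      exact ((pos_iff_pos_of_mul_pos h4).mpr h3).le

theorem Z_pert (hA : RGKK A) (hd : Module.finrank ℝ (W A) ≤ 3) (h : Col3 A K o I)
    (ht : 0 < t) (hB : RP (A + t • vecMulVec y (Pi.single o 1)))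
    (hs : ∀ K' i j, Val K' i j → scr A K' i j ≠ 0 →
      0 < scr (A + t • vecMulVec y (Pi.single o 1)) K' i j * scr A K' i j) {K' : Finset (Fin n)}
    {i j : Fin n} (hz : Z (A + t • vecMulVec y (Pi.single o 1)) K' i j) :
    j = o ∧ i ∈ I ∧ ∃ T, T ⊆ I ∧ i ∉ T ∧ K' = K ∪ T ∧ uv A (K ∪ T) i ⬝ᵥ y = 0 := by
  have h0 : scr A K' i j = 0 := by
    by_contra hne
    have := hs K' i j hz.1 hne
    rw [hz.2, zero_mul] at this
    exact lt_irrefl _ this
  obtain ⟨rfl, hi, T, hT, hiT, rfl⟩ := Z_struct hA hd h (⟨hz.1, h0⟩ : Z A K' i j)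
  refine ⟨rfl, hi, T, hT, hiT, rfl, ?_⟩
  have h1 := hz.2
  rw [scr_pert96 hA h hB hT hi hiT] at h1
  exact (mul_eq_zero.mp h1).resolve_left ht.ne'

theorem finrank_pert (hA : RGKK A) (hd : Module.finrank ℝ (W A) ≤ 3) (h : Col3 A K o I)
    (hy : ∀ i, i ∉ I → y i = 0) (hy0 : y ≠ 0)
    (ht : 0 < t) (hB : RP (A + t • vecMulVec y (Pi.single o 1)))
    (hs : ∀ K' i j, Val K' i j → scr A K' i j ≠ 0 →
      0 < scr (A + t • vecMulVec y (Pi.single o 1)) K' i j * scr A K' i j) :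
    Module.finrank ℝ (W (A + t • vecMulVec y (Pi.single o 1))) ≤ 3 := by
  classical
  have S := sys hA hd h hy hy0
  set B := A + t • vecMulVec y (Pi.single o 1) with hBd
  set f : Finset (Fin n) → Fin n → ℝ := fun T i => uv A (K ∪ T) i ⬝ᵥ y with hf
  have hZ : ∀ {K' i j}, Z B K' i j → j = o ∧ i ∈ I ∧ ∃ T, T ⊆ I ∧ i ∉ T ∧ K' = K ∪ T ∧ f T i = 0 :=
    fun hz => Z_pert hA hd h ht hB hs hz
  by_cases hgen : ∀ i ∈ I, ∀ T T', T ⊆ I → T' ⊆ I → i ∉ T → i ∉ T' → f T i = 0 → f T' i = 0 → T = T'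
  · let Tc : Fin n → Finset (Fin n) := fun i =>
      if hh : ∃ T, T ⊆ I ∧ i ∉ T ∧ f T i = 0 then hh.choose else ∅
    have hF := finrank_W_le (B := B)
      (I.image fun i => vecMulVec (uv B (K ∪ Tc i) i) (vv B (K ∪ Tc i) o)) (fun K' i j hz => by
        obtain ⟨rfl, hi, T, hT, hiT, rfl, h0⟩ := hZ hz
        have hh : ∃ T, T ⊆ I ∧ i ∉ T ∧ f T i = 0 := ⟨T, hT, hiT, h0⟩
        have he : Tc i = T := by
          simp only [Tc, dif_pos hh]
          obtain ⟨g1, g2, g3⟩ := hh.choose_spec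
          exact hgen i hi _ _ g1 hT g2 hiT g3 h0
        refine Submodule.subset_span ?_
        rw [Finset.mem_coe, Finset.mem_image]
        exact ⟨i, hi, by rw [he]⟩)
    refine hF.trans (Finset.card_image_le.trans ?_)
    rw [h.2.2.2.1]
  · push Not at hgen
    obtain ⟨i, hi, T, T', hT, hT', hiT, hiT', h1, h2, hne⟩ := hgen
    obtain ⟨k, l, tr⟩ := exists_tri h.2.2.2.1 hi
    rcases two_zeros S tr hT hT' hiT hiT' h1 h2 hne with hC | hC
    · obtain ⟨S', p, q, hS, hp, hq, hpS, hqS, hpq, f1, f2, hall⟩ := hC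
      have nK : ∀ {x}, x ∈ I → x ∉ S' → x ∉ K ∪ S' := fun hx hxS => by
        rw [mem_union, not_or]; exact ⟨h.niK hx, hxS⟩
      have hoS : o ∉ K ∪ S' := by rw [mem_union, not_or]; exact ⟨h.1, fun hh => h.2.1 (hS hh)⟩
      have hF := finrank_W_le (B := B) {vecMulVec (uv B (K ∪ S') p) (vv B (K ∪ S') o),
        vecMulVec (uv B (K ∪ S') q) (vv B (K ∪ S') o)} (fun K' i j hz => by
          obtain ⟨rfl, hi, T, hT, hiT, rfl, h0⟩ := hZ hz
          have key : ∀ p q, p ∈ I → q ∈ I → p ∉ S' → q ∉ S' → p ≠ q → f S' q = 0 →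
              (T = S' ∨ T = insert q S') → ∀ (M : Submodule ℝ (Mat n)),
              vecMulVec (uv B (K ∪ S') p) (vv B (K ∪ S') j) ∈ M →
              vecMulVec (uv B (K ∪ S') q) (vv B (K ∪ S') j) ∈ M →
              vecMulVec (uv B (K ∪ T) p) (vv B (K ∪ T) j) ∈ M := by
            intro p q hp hq hpS hqS hpq f2 hTT M m1 m2
            rcases hTT with rfl | rfl
            · exact m1
            · have z : scr B (K ∪ S') q j = 0 := by
                rw [hBd, scr_pert96 hA h hB hS hq hqS]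
                change t * f S' q = 0
                rw [f2, mul_zero]
              rw [Finset.union_insert, uv_insert hB (nK hp hpS) (nK hq hqS) hpq,
                vv_insert_zero hB hoS (nK hq hqS) (h.neo hq).symm z, Matrix.sub_vecMulVec,
                Matrix.smul_vecMulVec]
              exact Submodule.sub_mem _ m1 (Submodule.smul_mem _ _ m2)
          have m1 : vecMulVec (uv B (K ∪ S') p) (vv B (K ∪ S') j) ∈ Submodule.span ℝ
              ((({vecMulVec (uv B (K ∪ S') p) (vv B (K ∪ S') j),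
                vecMulVec (uv B (K ∪ S') q) (vv B (K ∪ S') j)} : Finset (Mat n)) : Set (Mat n))) :=
            Submodule.subset_span (by simp)
          have m2 : vecMulVec (uv B (K ∪ S') q) (vv B (K ∪ S') j) ∈ Submodule.span ℝ
              ((({vecMulVec (uv B (K ∪ S') p) (vv B (K ∪ S') j),
                vecMulVec (uv B (K ∪ S') q) (vv B (K ∪ S') j)} : Finset (Mat n)) : Set (Mat n))) :=
            Submodule.subset_span (by simp)
          rcases hall T i hT hi hiT h0 with ⟨rfl, hTT⟩ | ⟨rfl, hTT⟩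
          · exact key i q hp hq hpS hqS hpq f2 hTT _ m1 m2
          · exact key i p hq hp hqS hpS hpq.symm f1 hTT _ m2 m1)
      refine hF.trans (Finset.card_le_two.trans (by norm_num))
    · obtain ⟨i0, T1, T2, hi0, hall⟩ := hC
      have hF := finrank_W_le (B := B) {vecMulVec (uv B (K ∪ T1) i0) (vv B (K ∪ T1) o),
        vecMulVec (uv B (K ∪ T2) i0) (vv B (K ∪ T2) o)} (fun K' i j hz => by
          obtain ⟨rfl, hi, T, hT, hiT, rfl, h0⟩ := hZ hz
          refine Submodule.subset_span ?_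
          rcases hall T i hT hi hiT h0 with ⟨rfl, rfl | rfl⟩ <;> simp)
      refine hF.trans (Finset.card_le_two.trans (by norm_num))

end

theorem mem_RL_of_feas {A : Mat n} (hA : RGKK A) (hd : Module.finrank ℝ (W A) = 3)
    {K : Finset (Fin n)} {o : Fin n} {I : Finset (Fin n)} (h : Col3 A K o I) (hf : Feas A K o I)
    (main : ∀ B : Mat n, RGKK B → Module.finrank ℝ (W B) ≤ 3 → (∀ K o I, ¬ Col3 B K o I) →
      (∀ K o I, ¬ Col3 Bᵀ K o I) → B ∈ RL n) : A ∈ RL n := by
  obtain ⟨y, hy, hy0, hfe⟩ := hf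
  have hd' : Module.finrank ℝ (W A) ≤ 3 := hd.le
  have hl := tendsto_line A (vecMulVec y (Pi.single o 1))
  have hRP : ∀ᶠ t : ℝ in 𝓝[>] 0, RP (A + t • vecMulVec y (Pi.single o 1)) :=
    hl.eventually (eventually_RP hA.1)
  have hpos : ∀ᶠ t : ℝ in 𝓝[>] 0, (0 : ℝ) < t := self_mem_nhdsWithin
  have hsign : ∀ᶠ t : ℝ in 𝓝[>] 0, ∀ K' i j, Val K' i j → scr A K' i j ≠ 0 →
      0 < scr (A + t • vecMulVec y (Pi.single o 1)) K' i j * scr A K' i j := by
    rw [eventually_all]; intro K'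
    rw [eventually_all]; intro i
    rw [eventually_all]; intro j
    by_cases h0 : scr A K' i j = 0
    · exact Eventually.of_forall fun t _ hne => absurd h0 hne
    · have hc : ContinuousAt (fun B : Mat n => scr B K' i j * scr A K' i j) A :=
        (continuousAt_scr hA.1 K' i j).mul continuousAt_const
      filter_upwards [(hc.tendsto.comp hl).eventually (lt_mem_nhds (mul_self_pos.mpr h0))] with t ht _ _
      exact ht
  refine isClosed_closure.mem_of_tendsto hl ?_
  filter_upwards [hRP, hpos, hsign] with t hB ht hs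
  have S := sys hA hd' h hy hy0
  refine main _ (RGKK_pert hA hd' h hfe ht hB hs) (finrank_pert hA hd' h hy hy0 ht hB hs) ?_ ?_
  · intro K' o' I' hc
    have hZ : ∀ i ∈ I', Z (A + t • vecMulVec y (Pi.single o 1)) K' i o' := fun i hi =>
      ⟨⟨hc.niK hi, hc.1, hc.neo hi⟩, hc.2.2.2.2 i hi⟩
    have hsub : I' ⊆ I := fun i hi => (Z_pert hA hd' h ht hB hs (hZ i hi)).2.1
    have hI : I' = I := Finset.eq_of_subset_of_card_le hsub (by rw [h.2.2.2.1, hc.2.2.2.1])
    subst hI
    obtain ⟨x, hx, hne⟩ := S.f_ne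
    obtain ⟨_, _, T, hT, hxT, hK', h0⟩ := Z_pert hA hd' h ht hB hs (hZ x hx)
    have hTe : T = ∅ := by
      refine Finset.eq_empty_of_forall_notMem fun z hz => ?_
      exact hc.niK (hT hz) (by rw [hK']; exact mem_union_right _ hz)
    rw [hTe] at h0
    exact hne h0
  · intro K' o' I' hc
    have hsub : I' ⊆ {o} := by
      intro i hi
      have h0 := hc.2.2.2.2 i hi
      rw [scr_transpose] at h0
      rw [mem_singleton]
      exact (Z_pert hA hd' h ht hB hs (⟨⟨hc.1, hc.niK hi, (hc.neo hi).symm⟩, h0⟩)).1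
    have := Finset.card_le_card hsub
    rw [hc.2.2.2.1, Finset.card_singleton] at this
    omega

/-- in a matrix with `dim W = 3` the row of an exceptional column has no zero -/
theorem row_ne_zero {A : Mat n} (hA : RGKK A) (hd : Module.finrank ℝ (W A) ≤ 3)
    {K : Finset (Fin n)} {o : Fin n} {I : Finset (Fin n)} (h : Col3 A K o I) :
    ∀ i ∈ I, scr A K o i ≠ 0 := fun _ hi =>
  not_Z hA hd h ⟨h.1, h.niK hi, (h.neo hi).symm⟩ (h.neo hi)

end Pool.Agent.Helper85.CD
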