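import Mathlib
import Pool.Agent.Helper85.CD.Main
import Pool.Agent.Helper85.CD.Nec
import Pool.Agent.Helper85.CD.Suf
import Pool.Agent.Helper85.CD.Dim
import Pool.Agent.Helper85.CD.Rank
import Pool.Agent.Helper85.CD.Low

/-!
Assembly: from the internal statements to the statement of the hand-in.
-/

namespace Pool.Agent.Helper85.CD

open Matrix Finset Filter Topology Pool.Agent.Helper5.GKK Pool.Agent.Helper21.GK
open Pool.Agent.Helper85.SVG
open scoped ENNReal ComplexOrder

variable {n : ℕ}

/-- The part of `A` on the index sequence `e` after elimination of the indices in `K`: the matrix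
`A(e,e) - A(e,K) A(K)⁻¹ A(K,e)`. -/
noncomputable def schurBlock (A : Matrix (Fin n) (Fin n) ℝ) (K : Finset (Fin n)) {m : ℕ}
    (e : Fin m → Fin n) : Matrix (Fin m) (Fin m) ℝ :=
  A.submatrix e e - A.submatrix e (Subtype.val : K → Fin n) *
    (A.submatrix (Subtype.val : K → Fin n) (Subtype.val : K → Fin n))⁻¹ *
    A.submatrix (Subtype.val : K → Fin n) e

/-- The linear program of a matrix `M` of order 4 whose last column is zero above the diagonal: some
column `y`, nonzero above the diagonal, in place of the last column of `M` makes the products of all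
almost principal minors with last column `y` and the opposite almost principal minors of `M` (these do
not contain the last column) nonnegative. -/
def ColumnCanMove (M : Matrix (Fin 4) (Fin 4) ℝ) : Prop :=
  ∃ y : Fin 4 → ℝ, (∃ i, i ≠ 3 ∧ y i ≠ 0) ∧ ∀ (k : ℕ) (α β : Fin k → Fin 4), AlmostPrincipal α β →
    3 ∉ Set.range α → 3 ∈ Set.range β →
      0 ≤ ((M.updateCol 3 y).submatrix α β).det * (M.submatrix β α).det

theorem schurBlock_eq {A : Mat n} {K : Finset (Fin n)} (hK : pmr A K ≠ 0) {m : ℕ} (e : Fin m → Fin n) :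
    schurBlock A K e = Matrix.of fun a b => scr A K (e a) (e b) := by
  ext a b
  rw [Matrix.of_apply, scr_eq hK, schurBlock, Matrix.sub_apply, Matrix.submatrix_apply, Matrix.mul_apply]
  rfl

theorem rp_iff {A : Mat n} : RP A ↔ ∀ S, 0 < pm (cx A) S :=
  forall_congr' fun _ => pm_cx_pos.symm

theorem rgkk_iff {A : Mat n} : IsGKK (cx A) ↔ RGKK A := by
  rw [isGKK_iff]
  constructor
  · rintro ⟨h1, h2⟩
    have hP : RP A := rp_iff.mpr h1
    refine ⟨hP, fun K i j hv => ?_⟩
    have h3 := h2 K i j hv.1 hv.2.1 hv.2.2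
    rw [ap_cx hP hv.1 hv.2.1 hv.2.2, Complex.zero_le_real] at h3
    exact nonneg_of_mul_nonneg_right h3 (pow_pos (hP K) 2)
  · rintro ⟨h1, h2⟩
    exact ⟨rp_iff.mp h1, fun K i j hi hj hij => ap_cx_nonneg h1 hi hj hij (h2 K i j ⟨hi, hj, hij⟩)⟩

/-- products of opposite minors of two matrices -/
theorem det_mul_det_eq (M N : Matrix (Fin n) (Fin n) ℝ) {K : Finset (Fin n)} {i j : Fin n}
    (hi : i ∉ K) (hj : j ∉ K) {κ : Type*} [Fintype κ] [DecidableEq κ] (α β : κ → Fin n)
    (hα : Function.Injective α) (hβ : Function.Injective β)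
    (hαr : Set.range α = insert i (K : Set (Fin n))) (hβr : Set.range β = insert j (K : Set (Fin n))) :
    (M.submatrix α β).det * (N.submatrix β α).det = ppr M K i j * ppr N K j i := by
  have inj : ∀ i : Fin n, i ∉ K → Function.Injective (Sum.elim (Subtype.val : K → Fin n) (fun _ : Unit => i)) := by
    intro i hi
    rintro (x | x) (y | y) hxy
    · exact congrArg _ (Subtype.val_injective hxy)
    · exact absurd (by rw [← show x.val = i from hxy]; exact x.2) hi
    · exact absurd (by rw [show i = y.val from hxy]; exact y.2) hi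
    · rfl
  have rng : ∀ i : Fin n, Set.range (Sum.elim (Subtype.val : K → Fin n) (fun _ : Unit => i))
      = insert i (K : Set (Fin n)) := by
    intro i
    ext x
    simp only [Set.mem_range, Sum.exists, Sum.elim_inl, Sum.elim_inr, exists_const,
      Set.mem_insert_iff, Finset.mem_coe, Subtype.exists, exists_prop, exists_eq_right]
    constructor
    · rintro (h | h)
      · exact Or.inr h
      · exact Or.inl h.symm
    · rintro (h | h)
      · exact Or.inr h.symm
      · exact Or.inl h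
  obtain ⟨σ, hσ⟩ := exists_equiv α _ hα (inj i hi) (by rw [hαr, rng])
  obtain ⟨τ, hτ⟩ := exists_equiv β _ hβ (inj j hj) (by rw [hβr, rng])
  have h := det_mul_det_submatrix
    ((cx M).submatrix (Sum.elim (Subtype.val : K → Fin n) (fun _ : Unit => i))
      (Sum.elim (Subtype.val : K → Fin n) (fun _ : Unit => j)))
    ((cx N).submatrix (Sum.elim (Subtype.val : K → Fin n) (fun _ : Unit => j))
      (Sum.elim (Subtype.val : K → Fin n) (fun _ : Unit => i))) σ τ
  rw [submatrix_submatrix, submatrix_submatrix, ← hσ, ← hτ, det_cx, det_cx, det_cx, det_cx] at h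
  unfold ppr
  exact_mod_cast h

theorem move_iff {M : Mat 4} (hM : RP M) : ColumnCanMove M ↔ ∃ y : Fin 4 → ℝ, (∃ i, i ≠ 3 ∧ y i ≠ 0) ∧
    ∀ (S : Finset (Fin 4)) (i : Fin 4), 3 ∉ S → i ∉ S → i ≠ 3 →
      0 ≤ scr (M.updateCol 3 y) S i 3 * scr M S 3 i := by
  have hpm : ∀ (y : Fin 4 → ℝ) (S : Finset (Fin 4)), 3 ∉ S → pmr (M.updateCol 3 y) S = pmr M S := by
    intro y S hS
    unfold pmr
    congr 1
    ext a b
    have hb : (b : Fin 4) ≠ 3 := fun h => hS (h ▸ b.2)
    simp [hb]
  have key : ∀ (y : Fin 4 → ℝ) (S : Finset (Fin 4)) (i : Fin 4), 3 ∉ S → i ∉ S → i ≠ 3 →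
      (0 ≤ ppr (M.updateCol 3 y) S i 3 * ppr M S 3 i ↔
        0 ≤ scr (M.updateCol 3 y) S i 3 * scr M S 3 i) := by
    intro y S i h3 hi hi3
    have hp := hM S
    have e : scr (M.updateCol 3 y) S i 3 * scr M S 3 i
        = (ppr (M.updateCol 3 y) S i 3 * ppr M S 3 i) / (pmr M S * pmr M S) := by
      rw [scr, scr, hpm y S h3, div_mul_div_comm]
    rw [e]
    constructor
    · intro h
      exact div_nonneg h (mul_pos hp hp).le
    · intro h
      by_contra hcon
      push Not at hcon
      exact absurd h (not_le.mpr (div_neg_of_neg_of_pos hcon (mul_pos hp hp)))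
  unfold ColumnCanMove
  refine exists_congr fun y => and_congr_right fun _ => ?_
  constructor
  · intro h S i h3 hi hi3
    obtain ⟨α, β, hap, hα, hβ⟩ := exists_almostPrincipal hi h3 hi3
    have h1 := h _ α β hap (by
      rw [hα]
      rintro (h | h)
      · exact hi3 h.symm
      · exact h3 h) (by rw [hβ]; exact Or.inl rfl)
    rw [det_mul_det_eq _ _ hi h3 α β hap.1.injective hap.2.1.injective hα hβ] at h1
    exact (key y S i h3 hi hi3).mp h1
  · intro h k α β hap hα3 hβ3
    obtain ⟨S, i, j, hi, hj, hij, hα, hβ⟩ := hap.exists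
    have h3S : (3 : Fin 4) ∉ S := fun h => hα3 (by rw [hα]; exact Or.inr h)
    have hj3 : j = 3 := by
      rw [hβ] at hβ3
      rcases hβ3 with h | h
      · exact h.symm
      · exact absurd h h3S
    subst hj3
    rw [det_mul_det_eq _ _ hi hj α β hap.1.injective hap.2.1.injective hα hβ]
    exact (key y S i h3S hi hij).mpr (h S i h3S hi hij)

/-- translation between `A` and its part of order 4 -/
theorem trans {A : Mat n} (hA : RP A) {K : Finset (Fin n)} {e : Fin 4 → Fin n}
    (he : Function.Injective e) (heK : ∀ x, e x ∉ K) {y : Fin n → ℝ} {z : Fin 4 → ℝ}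
    (hy0 : ∀ x ∈ K, y x = 0) (hye : ∀ x, x ≠ 3 → y (e x) = z x)
    {S : Finset (Fin 4)} {i : Fin 4} (h3 : 3 ∉ S) (hi : i ∉ S) (hi3 : i ≠ 3) :
    scr ((Matrix.of fun a b => scr A K (e a) (e b)).updateCol 3 z) S i 3
      = uv A (K ∪ S.image e) (e i) ⬝ᵥ y ∧
    scr (Matrix.of fun a b => scr A K (e a) (e b)) S 3 i = scr A (K ∪ S.image e) (e 3) (e i) := by
  have hKne : pmr A K ≠ 0 := (hA K).ne'
  refine ⟨?_, (nec_quot hKne he heK S 3 i).2.symm⟩
  have himg : ∀ x : Fin 4, e x ∈ S.image e → x ∈ S := by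
    intro x hx
    obtain ⟨x', hx', h⟩ := mem_image.mp hx
    exact he h ▸ hx'
  have hoKT : e 3 ∉ K ∪ S.image e := by
    rw [mem_union, not_or]
    exact ⟨heK 3, fun h => h3 (himg 3 h)⟩
  have hiKT : e i ∉ K ∪ S.image e := by
    rw [mem_union, not_or]
    exact ⟨heK i, fun h => hi (himg i h)⟩
  have hKB : pmr (A.updateCol (e 3) y) K ≠ 0 := by
    rw [nec_pmr_updateCol A (heK 3)]
    exact hKne
  rw [nec_uv hA hoKT hiKT, (nec_quot hKB he heK S i 3).2]
  refine nec_congr fun x hx w hw => ?_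
  have hx3 : x ≠ 3 := by
    rcases hx with hx | hx
    · exact fun h => h3 (h ▸ hx)
    · rw [hx]; exact hi3
  by_cases hw3 : w = 3
  · rw [hw3, Matrix.updateCol_self, Matrix.of_apply, ← nec_uv hA (heK 3) (heK x), dotProduct,
      Finset.sum_eq_single (e x), uv_self, one_mul, hye x hx3]
    · intro v _ hv
      by_cases hvK : v ∈ K
      · rw [hy0 v hvK, mul_zero]
      · rw [uv_off A hvK hv, zero_mul]
    · intro h
      exact absurd (mem_univ _) h
  · have hwo : e w ≠ e 3 := fun h => hw3 (he h)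
    rw [Matrix.updateCol_ne hw3, Matrix.of_apply, Matrix.of_apply, nec_scr_updateCol A (heK 3) y hwo]

theorem rp_part {A : Mat n} (hA : RP A) {K : Finset (Fin n)} {e : Fin 4 → Fin n}
    (he : Function.Injective e) (heK : ∀ x, e x ∉ K) :
    RP (Matrix.of fun a b => scr A K (e a) (e b)) := by
  intro S
  have h1 := (nec_quot (hA K).ne' he heK S 0 0).1
  have h2 := hA (K ∪ S.image e)
  rw [h1] at h2
  exact (pos_iff_pos_of_mul_pos h2).mp (hA K)

theorem image_erase {e : Fin 4 → Fin n} {x : Fin n} : x ∈ (univ.erase (3 : Fin 4)).image e ↔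
    ∃ a : Fin 4, a ≠ 3 ∧ e a = x := by
  simp [mem_image, mem_erase]

theorem feas_iff {A : Mat n} (hA : RP A) {K : Finset (Fin n)} {e : Fin 4 → Fin n}
    (he : Function.Injective e) (heK : ∀ x, e x ∉ K) :
    ColumnCanMove (schurBlock A K e) ↔ Feas A K (e 3) ((univ.erase 3).image e) := by
  rw [schurBlock_eq (hA K).ne', move_iff (rp_part hA he heK)]
  constructor
  · rintro ⟨z, ⟨i0, hi0, hz0⟩, hz⟩
    classical
    set y : Fin n → ℝ := fun x => if h : ∃ a : Fin 4, a ≠ 3 ∧ e a = x then z h.choose else 0 with hy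
    have hye : ∀ a : Fin 4, a ≠ 3 → y (e a) = z a := by
      intro a ha
      have hex : ∃ b : Fin 4, b ≠ 3 ∧ e b = e a := ⟨a, ha, rfl⟩
      have : y (e a) = z hex.choose := by simp only [hy]; rw [dif_pos hex]
      rw [this, he hex.choose_spec.2]
    have hy0 : ∀ x, x ∉ (univ.erase (3 : Fin 4)).image e → y x = 0 := by
      intro x hx
      simp only [hy]
      rw [dif_neg fun h => hx (image_erase.mpr h)]
    refine ⟨y, hy0, fun h => hz0 ?_, fun i hi T hT hiT => ?_⟩
    · rw [← hye i0 hi0, h]; rfl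
    · obtain ⟨a, ha, rfl⟩ := image_erase.mp hi
      set S : Finset (Fin 4) := univ.filter fun s => e s ∈ T with hS
      have hST : S.image e = T := by
        ext x
        simp only [hS, mem_image, mem_filter, mem_univ, true_and]
        constructor
        · rintro ⟨s, hs, rfl⟩
          exact hs
        · intro hx
          obtain ⟨b, _, rfl⟩ := image_erase.mp (hT hx)
          exact ⟨b, hx, rfl⟩
      have h3S : (3 : Fin 4) ∉ S := by
        intro h1
        rw [hS, mem_filter] at h1
        obtain ⟨b, hb, h2⟩ := image_erase.mp (hT h1.2)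
        exact hb (he h2)
      have haS : a ∉ S := by
        intro h1
        rw [hS, mem_filter] at h1
        exact hiT h1.2
      have h1 := hz S a h3S haS ha
      obtain ⟨t1, t2⟩ := trans hA he heK (y := y) (z := z) (fun x hx => hy0 x fun h => by
        obtain ⟨b, _, rfl⟩ := image_erase.mp h
        exact heK b hx) hye h3S haS ha
      rw [t1, t2, hST] at h1
      exact h1
  · rintro ⟨y, hy0, hy, h⟩
    refine ⟨fun a => y (e a), ?_, fun S i h3 hi hi3 => ?_⟩
    · by_contra hcon
      push Not at hcon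
      refine hy (funext fun x => ?_)
      by_cases hx : x ∈ (univ.erase (3 : Fin 4)).image e
      · obtain ⟨a, ha, rfl⟩ := image_erase.mp hx
        exact hcon a ha
      · exact hy0 x hx
    · obtain ⟨t1, t2⟩ := trans hA he heK (y := y) (z := fun a => y (e a)) (fun x hx => hy0 x fun h => by
        obtain ⟨b, _, rfl⟩ := image_erase.mp h
        exact heK b hx) (fun _ _ => rfl) h3 hi hi3
      rw [t1, t2]
      refine h (e i) (image_erase.mpr ⟨i, hi3, rfl⟩) (S.image e) (fun x hx => ?_) (fun hh => ?_)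
      · obtain ⟨a, ha, rfl⟩ := mem_image.mp hx
        exact image_erase.mpr ⟨a, fun h => h3 (h ▸ ha), rfl⟩
      · obtain ⟨a, ha, hh⟩ := mem_image.mp hh
        exact hi (he hh ▸ ha)

theorem isStrictGKK_transpose {B : Matrix (Fin n) (Fin n) ℂ} (hB : IsStrictGKK B) :
    IsStrictGKK Bᵀ := by
  have hm : ∀ (k : ℕ) (α β : Fin k → Fin n), minor Bᵀ α β = minor B β α := by
    intro k α β
    unfold minor
    rw [← Matrix.det_transpose]
    rfl
  refine ⟨fun k α hα => by rw [hm]; exact hB.1 k α hα, fun k α β h => ?_⟩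
  rw [hm, hm, mul_comm]
  exact hB.2 k α β h

theorem closure_transpose {A : Mat n} (hA : cx A ∈ closure {B : Matrix (Fin n) (Fin n) ℂ | IsStrictGKK B}) :
    cx Aᵀ ∈ closure {B : Matrix (Fin n) (Fin n) ℂ | IsStrictGKK B} :=
  map_mem_closure (f := fun B : Matrix (Fin n) (Fin n) ℂ => Bᵀ) (continuous_id.matrix_transpose) hA
    fun _ hB => isStrictGKK_transpose hB

theorem schurBlock_transpose {A : Mat n} (hA : RP A) (K : Finset (Fin n)) (e : Fin 4 → Fin n) :
    (schurBlock A K e)ᵀ = schurBlock Aᵀ K e := by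
  rw [schurBlock_eq (hA K).ne', schurBlock_eq (hA.transpose K).ne']
  ext a b
  rw [Matrix.transpose_apply, Matrix.of_apply, Matrix.of_apply, scr_transpose]

theorem col3_of_zero {A : Mat n} (hA : RP A) {K : Finset (Fin n)} {e : Fin 4 → Fin n}
    (he : Function.Injective e) (heK : ∀ x, e x ∉ K) (h0 : ∀ i, i ≠ 3 → schurBlock A K e i 3 = 0) :
    Col3 A K (e 3) ((univ.erase 3).image e) := by
  refine ⟨heK 3, fun h => ?_, ?_, ?_, fun x hx => ?_⟩
  · obtain ⟨a, ha, h⟩ := image_erase.mp h
    exact ha (he h)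
  · rw [Finset.disjoint_left]
    intro x hx
    obtain ⟨a, _, rfl⟩ := image_erase.mp hx
    exact heK a
  · rw [card_image_of_injective _ he]
    rfl
  · obtain ⟨a, ha, rfl⟩ := image_erase.mp hx
    have := h0 a ha
    rw [schurBlock_eq (hA K).ne'] at this
    exact this

theorem exists_enum {A : Mat n} {K : Finset (Fin n)} {o : Fin n} {I : Finset (Fin n)}
    (h : Col3 A K o I) : ∃ e : Fin 4 → Fin n, Function.Injective e ∧ (∀ x, e x ∉ K) ∧ e 3 = o ∧
      (univ.erase 3).image e = I := by
  obtain ⟨hoK, hoI, hIK, hI3, hzero⟩ := h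
  obtain ⟨a, b, c, hab, hac, hbc, hI⟩ := Finset.card_eq_three.1 hI3
  have haI : a ∈ I := by rw [hI]; simp
  have hbI : b ∈ I := by rw [hI]; simp
  have hcI : c ∈ I := by rw [hI]; simp
  have hao : a ≠ o := fun h => hoI (h ▸ haI)
  have hbo : b ≠ o := fun h => hoI (h ▸ hbI)
  have hco : c ≠ o := fun h => hoI (h ▸ hcI)
  refine ⟨![a, b, c, o], ?_, ?_, rfl, ?_⟩
  · intro x y hxy
    fin_cases x <;> fin_cases y <;> first
      | rfl
      | exact absurd hxy hab
      | exact absurd hxy.symm hab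
      | exact absurd hxy hac
      | exact absurd hxy.symm hac
      | exact absurd hxy hbc
      | exact absurd hxy.symm hbc
      | exact absurd hxy hao
      | exact absurd hxy.symm hao
      | exact absurd hxy hbo
      | exact absurd hxy.symm hbo
      | exact absurd hxy hco
      | exact absurd hxy.symm hco
  · intro x
    fin_cases x
    · exact Finset.disjoint_left.1 hIK haI
    · exact Finset.disjoint_left.1 hIK hbI
    · exact Finset.disjoint_left.1 hIK hcI
    · exact hoK
  · ext x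
    rw [image_erase, hI]
    simp only [mem_insert, mem_singleton]
    constructor
    · rintro ⟨y, hy, rfl⟩
      fin_cases y
      · exact Or.inl rfl
      · exact Or.inr (Or.inl rfl)
      · exact Or.inr (Or.inr rfl)
      · exact absurd rfl hy
    · rintro (rfl | rfl | rfl)
      · exact ⟨0, by decide, rfl⟩
      · exact ⟨1, by decide, rfl⟩
      · exact ⟨2, by decide, rfl⟩

/-- the criterion in dimension three -/
theorem mem_of_move {A : Mat n} (hA : RGKK A) (hd : Module.finrank ℝ (W A) ≤ 3)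
    (h : ∀ (K : Finset (Fin n)) (e : Fin 4 → Fin n), Function.Injective e → (∀ x, e x ∉ K) →
      ((∀ i, i ≠ 3 → schurBlock A K e i 3 = 0) → ColumnCanMove (schurBlock A K e)) ∧
      ((∀ i, i ≠ 3 → schurBlock A K e 3 i = 0) → ColumnCanMove (schurBlock A K e)ᵀ)) :
    A ∈ RL n := by
  by_cases hc : ∀ K o I, ¬ Col3 A K o I
  · by_cases hr : ∀ K o I, ¬ Col3 Aᵀ K o I
    · exact main hA hd hc hr
    · push Not at hr
      obtain ⟨K, o, I, h3⟩ := hr
      have hd' : Module.finrank ℝ (W Aᵀ) = 3 :=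
        le_antisymm (by rw [finrank_W_transpose]; exact hd) h3.card_le
      obtain ⟨e, he, heK, rfl, rfl⟩ := exists_enum h3
      have hm := (h K e he heK).2 fun i hi => by
        have := h3.2.2.2.2 (e i) (image_erase.mpr ⟨i, hi, rfl⟩)
        rw [scr_transpose] at this
        rw [schurBlock_eq (hA.1 K).ne']
        exact this
      rw [schurBlock_transpose hA.1, feas_iff hA.transpose.1 he heK] at hm
      exact RL_transpose (mem_RL_of_feas hA.transpose hd' h3 hm fun B hB hd hc hr => main hB hd hc hr)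
  · push Not at hc
    obtain ⟨K, o, I, h3⟩ := hc
    have hd' : Module.finrank ℝ (W A) = 3 := le_antisymm hd h3.card_le
    obtain ⟨e, he, heK, rfl, rfl⟩ := exists_enum h3
    have hm := (h K e he heK).1 fun i hi => by
      have := h3.2.2.2.2 (e i) (image_erase.mpr ⟨i, hi, rfl⟩)
      rw [schurBlock_eq (hA.1 K).ne']
      exact this
    rw [feas_iff hA.1 he heK] at hm
    exact mem_RL_of_feas hA hd' h3 hm fun B hB hd hc hr => main hB hd hc hr

theorem cx_schurBlock {A : Mat n} {K : Finset (Fin n)} (hK : pmr A K ≠ 0) {m : ℕ} (e : Fin m → Fin n) :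
    cx (schurBlock A K e) = schurPart (cx A) K e := by
  rw [schurBlock_eq hK, nec_cx_schur hK]

/-- parts of limits are limits -/
theorem part_mem_closure {A : Mat n} (hA : RP A) {K : Finset (Fin n)} {m : ℕ} {e : Fin m → Fin n}
    (he : Function.Injective e) (heK : ∀ x, e x ∉ K)
    (hL : cx A ∈ closure {B : Matrix (Fin n) (Fin n) ℂ | IsStrictGKK B}) :
    cx (schurBlock A K e) ∈ closure {B : Matrix (Fin m) (Fin m) ℂ | IsStrictGKK B} := by
  rw [cx_schurBlock (hA K).ne']
  have h0 : pm (cx A) K ≠ 0 := by rw [pm_cx]; exact_mod_cast (hA K).ne'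
  refine ContinuousWithinAt.mem_closure
    (s := {B : Matrix (Fin n) (Fin n) ℂ | IsStrictGKK B})
    (f := fun B : Matrix (Fin n) (Fin n) ℂ => schurPart B K e)
    (continuousAt_schurPart h0 e).continuousWithinAt hL ?_
  intro B hB
  have hB' := (isStrictGKK_iff B).1 hB
  have hnot : ∀ (S : Finset (Fin m)) (i : Fin m), i ∉ S → e i ∉ K ∪ S.image e := by
    intro S i hi hh
    rw [mem_union, mem_image] at hh
    rcases hh with hh | ⟨i', hi', hh⟩
    · exact heK i hh
    · exact hi ((he hh) ▸ hi')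
  exact isStrictGKK_schurPart hB'.1 he heK fun S i j hi hj hij =>
    hB'.2 _ _ _ (hnot S i hi) (hnot S j hj) fun hh => hij (he hh)

/-- parts of GKK matrices are GKK -/
theorem rgkk_part {A : Mat n} (hA : RGKK A) {K : Finset (Fin n)} {e : Fin 4 → Fin n}
    (he : Function.Injective e) (heK : ∀ x, e x ∉ K) : RGKK (schurBlock A K e) := by
  rw [schurBlock_eq (hA.1 K).ne']
  refine ⟨rp_part hA.1 he heK, fun S i j hv => ?_⟩
  rw [← (nec_quot (hA.1 K).ne' he heK S i j).2, ← (nec_quot (hA.1 K).ne' he heK S j i).2]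
  have himg : ∀ x : Fin 4, e x ∈ S.image e → x ∈ S := by
    intro x hx
    obtain ⟨x', hx', h⟩ := mem_image.mp hx
    exact he h ▸ hx'
  refine hA.2 _ _ _ ⟨?_, ?_, fun h => hv.2.2 (he h)⟩
  · rw [mem_union, not_or]; exact ⟨heK i, fun h => hv.1 (himg i h)⟩
  · rw [mem_union, not_or]; exact ⟨heK j, fun h => hv.2.1 (himg j h)⟩

theorem schurBlock_self {M : Mat 4} (hM : RP M) : schurBlock M ∅ id = M := by
  rw [schurBlock_eq (hM ∅).ne']
  ext a b
  rw [Matrix.of_apply, scr_empty]
  rfl

/-- a part of order 4 with zero last column and nonzero last row that is a limit -/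
theorem move_of_part {A : Mat n} (hA : RGKK A) (hd : Module.finrank ℝ (W A) ≤ 3) {K : Finset (Fin n)}
    {e : Fin 4 → Fin n} (he : Function.Injective e) (heK : ∀ x, e x ∉ K)
    (hL : cx (schurBlock A K e) ∈ closure {B : Matrix (Fin 4) (Fin 4) ℂ | IsStrictGKK B})
    (h0 : ∀ i, i ≠ 3 → schurBlock A K e i 3 = 0) : ColumnCanMove (schurBlock A K e) := by
  have h3 := col3_of_zero hA.1 he heK h0
  have hrow := row_ne_zero hA hd h3
  have hG := rgkk_part hA he heK
  have hself := schurBlock_self hG.1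
  have h3' : Col3 (schurBlock A K e) ∅ 3 (univ.erase 3) := by
    refine ⟨by simp, by simp, by simp, by simp, fun i hi => ?_⟩
    rw [scr_empty]
    exact h0 i (ne_of_mem_erase hi)
  have himg : (univ.erase (3 : Fin 4)).image id = univ.erase 3 := by simp
  have h4 := feas_iff hG.1 (K := ∅) (e := id) Function.injective_id (by simp)
  rw [hself, himg, id_eq] at h4
  rw [h4]
  refine feas_of_limit hG h3' (fun i hi => ?_) hL
  rw [scr_empty, schurBlock_eq (hA.1 K).ne', Matrix.of_apply]
  exact hrow (e i) (image_erase.mpr ⟨i, ne_of_mem_erase hi, rfl⟩)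

/-! ### the final statements -/

theorem final_two {A : Mat n} (hA : IsGKK (cx A)) (hd : vanishingRank A ≤ 2) :
    cx A ∈ closure {B : Matrix (Fin n) (Fin n) ℂ | IsStrictGKK B} := by
  have h := rgkk_iff.mp hA
  rw [vanishingRank_eq h.1] at hd
  exact cx_mem_closure (main_two h hd)

theorem move_of_limit {A : Mat n} (hA : RGKK A) (hd : Module.finrank ℝ (W A) ≤ 3)
    (hL : ∀ (K : Finset (Fin n)) (e : Fin 4 → Fin n), Function.Injective e → (∀ x, e x ∉ K) →
      cx (schurBlock A K e) ∈ closure {B : Matrix (Fin 4) (Fin 4) ℂ | IsStrictGKK B})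
    (K : Finset (Fin n)) (e : Fin 4 → Fin n) (he : Function.Injective e) (heK : ∀ x, e x ∉ K) :
      ((∀ i, i ≠ 3 → schurBlock A K e i 3 = 0) → ColumnCanMove (schurBlock A K e)) ∧
      ((∀ i, i ≠ 3 → schurBlock A K e 3 i = 0) → ColumnCanMove (schurBlock A K e)ᵀ) := by
  refine ⟨move_of_part hA hd he heK (hL K e he heK), fun h0 => ?_⟩
  rw [schurBlock_transpose hA.1]
  refine move_of_part hA.transpose (by rw [finrank_W_transpose]; exact hd) he heK ?_ fun i hi => ?_
  · rw [← schurBlock_transpose hA.1]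
    exact closure_transpose (hL K e he heK)
  · rw [← schurBlock_transpose hA.1]
    exact h0 i hi

theorem final_three {A : Mat n} (hA : IsGKK (cx A)) (hd : vanishingRank A ≤ 3) :
    [cx A ∈ closure {B : Matrix (Fin n) (Fin n) ℂ | IsStrictGKK B},
      ∀ (K : Finset (Fin n)) (e : Fin 4 → Fin n), Function.Injective e → (∀ x, e x ∉ K) →
        cx (schurBlock A K e) ∈ closure {B : Matrix (Fin 4) (Fin 4) ℂ | IsStrictGKK B},
      ∀ (K : Finset (Fin n)) (e : Fin 4 → Fin n), Function.Injective e → (∀ x, e x ∉ K) →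
        ((∀ i, i ≠ 3 → schurBlock A K e i 3 = 0) → ColumnCanMove (schurBlock A K e)) ∧
        ((∀ i, i ≠ 3 → schurBlock A K e 3 i = 0) → ColumnCanMove (schurBlock A K e)ᵀ)].TFAE := by
  have h := rgkk_iff.mp hA
  rw [vanishingRank_eq h.1] at hd
  tfae_have 1 → 2 := fun hL K e he heK => part_mem_closure h.1 he heK hL
  tfae_have 2 → 3 := fun hL => move_of_limit h hd hL
  tfae_have 3 → 1 := fun hm => cx_mem_closure (mem_of_move h hd hm)
  tfae_finish

theorem final_dim (n r : ℕ) : dimH {B : Fin n → Fin n → ℝ | IsGKK (cx (Matrix.of B)) ∧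
    r ≤ vanishingRank (Matrix.of B)} ≤ ((n ^ 2 - r : ℕ) : ℝ≥0∞) := by
  refine (dimH_mono ?_).trans (dimH_W_le n r)
  rintro B ⟨h1, h2⟩
  have h := (rgkk_iff.mp h1).1
  exact ⟨h, by rwa [← vanishingRank_eq h]⟩

theorem final_nonlimits {n : ℕ} (hn : 4 ≤ n) : dimH {B : Fin n → Fin n → ℝ | IsGKK (cx (Matrix.of B)) ∧
    cx (Matrix.of B) ∉ closure {B : Matrix (Fin n) (Fin n) ℂ | IsStrictGKK B}} = ((n ^ 2 - 3 : ℕ) : ℝ≥0∞) := by
  refine le_antisymm ?_ ?_
  · refine (dimH_mono ?_).trans (dimH_W_le n 3)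
    rintro B ⟨h1, h2⟩
    have h := rgkk_iff.mp h1
    refine ⟨h.1, ?_⟩
    by_contra hcon
    exact h2 (cx_mem_closure (main_two h (by omega)))
  · refine (le_dimH hn).trans (dimH_mono ?_)
    rintro B ⟨h1, h2⟩
    exact ⟨rgkk_iff.mpr h1, h2⟩

end Pool.Agent.Helper85.CD
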